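import Pool.Agent.Helper87.BK.Basic

/-!
# Project BK: smoothing on a locally compact group (piece BK-LCS)

Use the Borel sets as a local instance (`borel H`, `BorelSpace`) and `μ = MeasureTheory.Measure.haar`
(left invariant, regular, positive on open sets, finite on compact sets).  There is a continuous
`ρ : H → ℝ` with compact support, `0 ≤ ρ`, `∫ ρ ∂μ = 1` (`exists_continuous_one_of_compact...`, or any
lemma giving a nonnegative nonzero compactly supported continuous function; divide by its integral,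
which is positive because `μ` is positive on open sets).
`T φ h = ∫ u, ρ (h⁻¹ * u) * φ u ∂μ`.
* `left`: `∫ ρ (h⁻¹ * u) * φ (a * u) = ∫ ρ (h⁻¹ * (a⁻¹ * u)) * φ u` (`integral_mul_left_eq_self`).
* `const`: `∫ ρ (h⁻¹ * u) = ∫ ρ = 1`.  `add`, `smul`, `bdd`: the functions `u ↦ ρ (h⁻¹ * u) * φ u` are
  continuous with compact support, so integrable.
* `equi`: let `N` be a compact neighbourhood of `h₀`; for `h` in `N` the support of `u ↦ ρ (h⁻¹ * u)` is in the
  compact set `K = N * support`; `(h, u) ↦ ρ (h⁻¹ * u)` is continuous, so for `h` near `h₀` one has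
  `|ρ (h⁻¹ * u) - ρ (h₀⁻¹ * u)| ≤ ε / (μ K + 1)` for all `u` in `K` (compactness of `K`:
  `IsCompact` tube lemma, or `ContinuousMap.curry`), and both are `0` outside `K`.
* `cont`: `(z, h) ↦ ∫ ρ (h⁻¹ * u) * f z u ∂μ` for `f` jointly continuous: near a point the integrand is
  supported in a fixed compact set in `u`; use `continuous_parametric_integral_of_continuous`-type lemmas
  (`ContinuousOn` on a compact set) or dominated convergence with the bound
  `M * sup ρ * indicator K` (`Z × H` is first countable).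
-/

open scoped Topology
open MeasureTheory

namespace Pool.Agent.Helper87.BK
open Pool.Agent.Helper11.BC (dl)
open Pool.Agent.Helper87.BCR

theorem exists_smt (H : Type) [Group H] [TopologicalSpace H] [IsTopologicalGroup H]
    [LocallyCompactSpace H] [FirstCountableTopology H] [T2Space H] :
    ∃ T : (H → ℝ) → H → ℝ, Smt T := by
  let _ : MeasurableSpace H := borel H
  have : BorelSpace H := ⟨rfl⟩
  obtain ⟨μ, hμ⟩ : ∃ μ : Measure H, μ = Measure.haar := ⟨_, rfl⟩
  have : μ.IsMulLeftInvariant := by rw [hμ]; infer_instance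
  have : IsFiniteMeasureOnCompacts μ := by rw [hμ]; infer_instance
  have : μ.IsOpenPosMeasure := by rw [hμ]; infer_instance
  obtain ⟨ρ, hρc, hρs, hρ0, hρ1⟩ : ∃ ρ : H → ℝ, Continuous ρ ∧ HasCompactSupport ρ ∧
      (∀ u, 0 ≤ ρ u) ∧ ∫ u, ρ u ∂μ = 1 := by
    obtain ⟨f, hf1, hf2, hf3⟩ := exists_continuous_nonneg_pos (1 : H)
    have h1 : 0 < ∫ u, f u ∂μ :=
      f.continuous.integral_pos_of_hasCompactSupport_nonneg_nonzero hf1 hf2 hf3
    refine ⟨fun u => (∫ u, f u ∂μ)⁻¹ * f u, continuous_const.mul f.continuous, ?_, ?_, ?_⟩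
    · exact hf1.mul_left
    · intro u
      exact mul_nonneg (inv_nonneg.2 h1.le) (hf2 u)
    · rw [integral_const_mul, inv_mul_cancel₀ h1.ne']
  have hcj : Continuous fun p : H × H => ρ (p.1⁻¹ * p.2) := hρc.comp (by fun_prop)
  have hcu : ∀ h, Continuous fun u => ρ (h⁻¹ * u) := fun h =>
    hcj.comp (continuous_const.prodMk continuous_id)
  have hsu : ∀ h, HasCompactSupport fun u => ρ (h⁻¹ * u) := fun h =>
    hρs.comp_homeomorph (Homeomorph.mulLeft h⁻¹)
  have hi1 : ∀ h, Integrable (fun u => ρ (h⁻¹ * u)) μ := fun h =>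
    (hcu h).integrable_of_hasCompactSupport (hsu h)
  have hint : ∀ (φ : H → ℝ), Continuous φ → ∀ h, Integrable (fun u => ρ (h⁻¹ * u) * φ u) μ :=
    fun φ hφ h => ((hcu h).mul hφ).integrable_of_hasCompactSupport (hsu h).mul_right
  have h1 : ∀ h, ∫ u, ρ (h⁻¹ * u) ∂μ = 1 := fun h => by
    rw [integral_mul_left_eq_self ρ h⁻¹, hρ1]
  -- uniform supports
  have hsupp : ∀ h₀ : H, ∃ N ∈ 𝓝 h₀, ∃ K : Set H, IsCompact K ∧
      ∀ h ∈ N, ∀ u, u ∉ K → ρ (h⁻¹ * u) = 0 := by
    intro h₀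
    obtain ⟨N, hN1, hN2⟩ := exists_compact_mem_nhds h₀
    refine ⟨N, hN2, (fun p : H × H => p.1 * p.2) '' (N ×ˢ tsupport ρ),
      (hN1.prod hρs).image continuous_mul, ?_⟩
    intro h hh u hu
    by_contra hne
    apply hu
    have h2 : h⁻¹ * u ∈ tsupport ρ := subset_tsupport ρ hne
    exact ⟨(h, h⁻¹ * u), ⟨hh, h2⟩, mul_inv_cancel_left h u⟩
  refine ⟨fun φ h => ∫ u, ρ (h⁻¹ * u) * φ u ∂μ, ⟨⟨?_, ?_, ?_, ?_, ?_⟩, ?_, ?_⟩⟩
  · intro c h
    rw [integral_mul_const, h1, one_mul]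
  · intro f g M hf hg _ _ h
    rw [← integral_add (hint f hf h) (hint g hg h)]
    exact integral_congr_ae (Filter.Eventually.of_forall fun u => mul_add _ _ _)
  · intro c f M hf _ h
    rw [← integral_const_mul]
    exact integral_congr_ae (Filter.Eventually.of_forall fun u => mul_left_comm _ _ _)
  · intro f M hf hM h
    have h2 : ‖∫ u, ρ (h⁻¹ * u) * f u ∂μ‖ ≤ ∫ u, ρ (h⁻¹ * u) * M ∂μ := by
      refine norm_integral_le_of_norm_le ((hi1 h).mul_const M)
        (Filter.Eventually.of_forall fun u => ?_)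
      rw [Real.norm_eq_abs, abs_mul, abs_of_nonneg (hρ0 _)]
      exact mul_le_mul_of_nonneg_left (hM u) (hρ0 _)
    rwa [integral_mul_const, h1, one_mul, Real.norm_eq_abs] at h2
  · intro Z _ _ f M hf hM
    rw [continuous_iff_continuousAt]
    rintro ⟨z₀, h₀⟩
    obtain ⟨N, hN, K, hK, hNK⟩ := hsupp h₀
    have h2 : ContinuousOn (fun p : Z × H => ∫ u, ρ (p.2⁻¹ * u) * f p.1 u ∂μ)
        (Set.univ ×ˢ N) := by
      refine continuousOn_integral_of_compact_support
        (f := fun (p : Z × H) (u : H) => ρ (p.2⁻¹ * u) * f p.1 u) hK ?_ ?_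
      · have h3 : Continuous fun q : (Z × H) × H => ρ (q.1.2⁻¹ * q.2) * f q.1.1 q.2 := by
          refine Continuous.mul ?_ ?_
          · exact hcj.comp (f := fun q : (Z × H) × H => (q.1.2, q.2)) (by fun_prop)
          · exact hf.comp (f := fun q : (Z × H) × H => (q.1.1, q.2)) (by fun_prop)
        exact h3.continuousOn
      · rintro ⟨z, h⟩ u hp hu
        show ρ (h⁻¹ * u) * f z u = 0
        rw [hNK h hp.2 u hu, zero_mul]
    exact h2.continuousAt (prod_mem_nhds Filter.univ_mem hN)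
  · intro h₀ ε hε
    obtain ⟨N, hN, K, hK, hNK⟩ := hsupp h₀
    have h2 : ContinuousOn (fun h : H => ∫ u, |ρ (h⁻¹ * u) - ρ (h₀⁻¹ * u)| ∂μ) N := by
      refine continuousOn_integral_of_compact_support
        (f := fun (h : H) (u : H) => |ρ (h⁻¹ * u) - ρ (h₀⁻¹ * u)|) hK ?_ ?_
      · have h3 : Continuous fun q : H × H => |ρ (q.1⁻¹ * q.2) - ρ (h₀⁻¹ * q.2)| :=
          (hcj.sub ((hcu h₀).comp continuous_snd)).abs
        exact h3.continuousOn
      · intro h u hh hu
        show |ρ (h⁻¹ * u) - ρ (h₀⁻¹ * u)| = 0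
        rw [hNK h hh u hu, hNK h₀ (mem_of_mem_nhds hN) u hu, sub_zero, abs_zero]
    have h3 := (h2.continuousAt hN).tendsto
    simp only [sub_self, abs_zero, integral_zero] at h3
    have h4 := h3.eventually (gt_mem_nhds hε)
    filter_upwards [h4] with h hh φ hφ hφ1
    have h5 : (∫ u, ρ (h⁻¹ * u) * φ u ∂μ) - ∫ u, ρ (h₀⁻¹ * u) * φ u ∂μ =
        ∫ u, (ρ (h⁻¹ * u) * φ u - ρ (h₀⁻¹ * u) * φ u) ∂μ :=
      (integral_sub (hint φ hφ h) (hint φ hφ h₀)).symm
    have h6 : ‖∫ u, (ρ (h⁻¹ * u) * φ u - ρ (h₀⁻¹ * u) * φ u) ∂μ‖ ≤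
        ∫ u, |ρ (h⁻¹ * u) - ρ (h₀⁻¹ * u)| ∂μ := by
      refine norm_integral_le_of_norm_le ((hi1 h).sub (hi1 h₀)).abs
        (Filter.Eventually.of_forall fun u => ?_)
      rw [Real.norm_eq_abs, ← sub_mul, abs_mul]
      exact mul_le_of_le_one_right (abs_nonneg _) (hφ1 u)
    rw [h5, ← Real.norm_eq_abs]
    exact h6.trans hh.le
  · intro φ M a h hφ hM
    have h2 := integral_mul_left_eq_self (μ := μ) (fun u => ρ (h⁻¹ * (a⁻¹ * u)) * φ u) a
    simp only [inv_mul_cancel_left] at h2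
    show ∫ u, ρ (h⁻¹ * u) * φ (a * u) ∂μ = ∫ u, ρ ((a * h)⁻¹ * u) * φ u ∂μ
    rw [h2]
    simp only [mul_inv_rev, mul_assoc]

end Pool.Agent.Helper87.BK
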