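import Pool.Agent.Helper87.BK.GDat
import Pool.Agent.Helper87.BK.LCS

/-!
# Project BK: the powers of `SL(2, ℝ)` (piece BK-POW)

* `van_congr`, `cinj_congr`: transport the cochains along `e` (`fun l => μ (l.map e)`,
  `List.eraseIdx_map`; `LC` because `List.map` of `List.ofFn v` is `List.ofFn (e ∘ v)`).
* base case `k = 0`: `Fin 0 → G` has one element; a cochain in `Co (n + 1)` is determined by its value `c` on
  the list of length `n + 1`.  `van_unit`: if `n ≥ 1`: `dl μ` at the list of length `n + 2` is
  `c * ∑_{i < n + 2} (-1)^i`, which is `c` if `n` is odd and `0` if `n` is even.  So `c = 0` for `n` odd;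
  for `n` even `ν` with the value `c` on the list of length `n` has `dl ν = c` (`n + 1` odd).
* step: `(Fin (k + 1) → G) ≃ₜ* (Fin k → G) × G`; `van_prod`, `cinj_prod` with `exists_smt` for `Fin k → G`
  (locally compact: `locallyCompact_G` in `BCR/Haar.lean`; first countable: `BCR.firstCountable_G`; `T2`).
  For `van_pow`: if `n` is odd or `2 (k + 1) < n` then `n ≠ 2`, and `n`, `n - 2` satisfy the hypothesis for
  `k` (if `3 ≤ n`).
-/

open scoped MatrixGroups UpperHalfPlane Topology
open MeasureTheory

namespace Pool.Agent.Helper87.BK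
open Pool.Agent.Helper11.BC
open Pool.Agent.Helper87.BCR

private theorem pow_dl_map {X Y : Type} (f : X → Y) (μ : List Y → ℝ) (l : List X) :
    dl (fun a => μ (a.map f)) l = dl μ (l.map f) := by
  unfold dl
  rw [List.length_map]
  refine Finset.sum_congr rfl fun i _ => ?_
  rw [List.eraseIdx_map]

private theorem pow_LC {X Y : Type} [TopologicalSpace X] [TopologicalSpace Y] {f : X → Y}
    (hf : Continuous f) {μ : List Y → ℝ} (h : LC μ) : LC fun l : List X => μ (l.map f) := by
  intro k
  have h1 : Continuous fun v : Fin k → X => μ (List.ofFn (f ∘ v)) :=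
    (h k).comp (continuous_pi fun i => hf.comp (continuous_apply i))
  have h2 : (fun v : Fin k → X => μ ((List.ofFn v).map f)) =
      fun v : Fin k → X => μ (List.ofFn (f ∘ v)) := by
    funext v
    rw [List.map_ofFn]
  change Continuous fun v : Fin k → X => μ ((List.ofFn v).map f)
  rw [h2]
  exact h1

private theorem pow_map_map {H H' : Type} [Group H] [Group H'] (e : H ≃* H') (g : H)
    (l : List H) : (l.map (g * ·)).map e = (l.map e).map (e g * ·) := by
  rw [List.map_map, List.map_map]
  refine List.map_congr_left fun x _ => ?_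
  exact map_mul e g x

private theorem pow_Co {H H' : Type} [Group H] [TopologicalSpace H] [Group H']
    [TopologicalSpace H'] (e : H ≃* H') (he : Continuous e) {k : ℕ} {μ : List H' → ℝ}
    (h : Co k μ) : Co k fun l : List H => μ (l.map e) where
  cont := pow_LC he h.cont
  bdd := by
    obtain ⟨M, hM⟩ := h.bdd
    exact ⟨M, fun l => hM _⟩
  inv g l := by
    change μ ((l.map (g * ·)).map e) = μ (l.map e)
    rw [pow_map_map, h.inv]
  supp l hl := h.supp _ (by rwa [List.length_map])

private theorem pow_Uo {H H' : Type} [Group H] [TopologicalSpace H] [Group H']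
    [TopologicalSpace H'] (e : H ≃* H') (he : Continuous e) {k : ℕ} {μ : List H' → ℝ}
    (h : Uo k μ) : Uo k fun l : List H => μ (l.map e) where
  cont := pow_LC he h.cont
  inv g l := by
    change μ ((l.map (g * ·)).map e) = μ (l.map e)
    rw [pow_map_map, h.inv]
  supp l hl := h.supp _ (by rwa [List.length_map])

private theorem pow_Cy {H H' : Type} [Group H] [TopologicalSpace H] [Group H']
    [TopologicalSpace H'] (e : H ≃* H') (he : Continuous e) {k : ℕ} {μ : List H' → ℝ}
    (h : Cy k μ) : Cy k fun l : List H => μ (l.map e) :=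
  ⟨pow_Co e he h.1, fun l => by rw [pow_dl_map]; exact h.2 _⟩

private theorem pow_map_symm {H H' : Type} [Group H] [Group H'] (e : H ≃* H') (l : List H') :
    (l.map e.symm).map e = l := by
  rw [List.map_map]
  conv_rhs => rw [← List.map_id l]
  refine List.map_congr_left fun x _ => ?_
  exact e.apply_symm_apply x

theorem van_congr {H H' : Type} [Group H] [TopologicalSpace H] [Group H'] [TopologicalSpace H']
    (e : H ≃* H') (he : Continuous e) (he' : Continuous e.symm) {n : ℕ} (h : Van H n) :
    Van H' n := by
  intro μ hμ
  obtain ⟨ν, hν, hν2⟩ := h _ (pow_Cy e he hμ)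
  refine ⟨fun l => ν (l.map e.symm), pow_Co e.symm he' hν, fun l => ?_⟩
  rw [pow_dl_map, ← hν2, pow_map_symm]

theorem cinj_congr {H H' : Type} [Group H] [TopologicalSpace H] [Group H'] [TopologicalSpace H']
    (e : H ≃* H') (he : Continuous e) (he' : Continuous e.symm) {n : ℕ} (h : CInj H n) :
    CInj H' n := by
  rintro μ hμ ⟨u, hu, hu2⟩
  obtain ⟨ν, hν, hν2⟩ := h _ (pow_Cy e he hμ) ⟨fun l => u (l.map e), pow_Uo e he hu, fun l => by
    rw [pow_dl_map]
    exact hu2 _⟩
  refine ⟨fun l => ν (l.map e.symm), pow_Co e.symm he' hν, fun l => ?_⟩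
  rw [pow_dl_map, ← hν2, pow_map_symm]

private theorem pow_len_ext {H : Type} [Subsingleton H] (f : List H → ℝ) {l m : List H}
    (h : l.length = m.length) : f l = f m := by
  congr 1
  exact List.ext_getElem h fun i _ _ => Subsingleton.elim _ _

/-- The differential at a list, if the value depends only on the length. -/
private theorem pow_dl_len {H : Type} (f : List H → ℝ) (c : ℝ) (k : ℕ) (l : List H)
    (hl : l.length = k + 1) (hf : ∀ m : List H, m.length = k → f m = c) :
    dl f l = c * (if Even (k + 1) then 0 else 1) := by
  unfold dl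
  rw [hl, ← neg_one_geom_sum, Finset.mul_sum]
  refine Finset.sum_congr rfl fun i hi => ?_
  rw [Finset.mem_range] at hi
  rw [hf _ (by rw [List.length_eraseIdx_of_lt (by omega)]; omega), smul_eq_mul, mul_comm]

theorem van_unit (H : Type) [Group H] [TopologicalSpace H] [Subsingleton H] {n : ℕ}
    (hn : 1 ≤ n) : Van H n := by
  intro μ hμ
  obtain ⟨hC, hd⟩ := hμ
  set c : ℝ := μ (List.replicate (n + 1) 1) with hc
  have h1 : ∀ m : List H, m.length = n + 1 → μ m = c := fun m hm =>
    pow_len_ext μ (by rw [hm, List.length_replicate])
  rcases Nat.even_or_odd n with he | ho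
  · -- even
    refine ⟨fun l => if l.length = n then c else 0, ⟨?_, ⟨|c|, fun l => ?_⟩, fun g l => ?_,
      fun l hl => if_neg hl⟩, fun l => ?_⟩
    · intro k
      have h2 : (fun v : Fin k → H => if (List.ofFn v).length = n then c else 0) =
          fun _ => if k = n then c else 0 := by
        funext v
        rw [List.length_ofFn]
      change Continuous fun v : Fin k → H => if (List.ofFn v).length = n then c else 0
      rw [h2]
      exact continuous_const
    · change |if l.length = n then c else 0| ≤ |c|
      split_ifs
      · exact le_rfl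
      · rw [abs_zero]
        exact abs_nonneg c
    · change (if (l.map (g * ·)).length = n then c else 0) = if l.length = n then c else 0
      rw [List.length_map]
    · by_cases hl : l.length = n + 1
      · rw [h1 l hl, pow_dl_len _ c n l hl (fun m hm => if_pos hm), if_neg, mul_one]
        rw [Nat.not_even_iff_odd]
        exact he.add_one
      · rw [hC.supp l hl]
        unfold dl
        symm
        refine Finset.sum_eq_zero fun i hi => ?_
        rw [Finset.mem_range] at hi
        have h3 : ¬ (l.eraseIdx i).length = n := by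
          rw [List.length_eraseIdx_of_lt hi]
          omega
        change (-1 : ℝ) ^ i • (if (l.eraseIdx i).length = n then c else 0) = 0
        rw [if_neg h3, smul_zero]
  · -- odd
    have h2 := hd (List.replicate (n + 2) 1)
    rw [pow_dl_len μ c (n + 1) _ (by rw [List.length_replicate]) h1, if_neg, mul_one] at h2
    · refine ⟨fun _ => 0, ⟨fun k => continuous_const, ⟨0, fun l => by simp⟩, fun g l => rfl,
        fun l _ => rfl⟩, fun l => ?_⟩
      have h3 : μ l = 0 := by
        by_cases hl : l.length = n + 1
        · rw [h1 l hl, h2]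
        · exact hC.supp l hl
      rw [h3]
      unfold dl
      simp
    · rw [Nat.not_even_iff_odd]
      exact (ho.add_one).add_one

private def powEquiv (k : ℕ) : ((Fin k → G) × G) ≃* (Fin (k + 1) → G) where
  toFun p := Fin.cons p.2 p.1
  invFun w := (fun i => w i.succ, w 0)
  left_inv p := rfl
  right_inv w := by
    funext i
    refine Fin.cases ?_ (fun i => ?_) i
    · rfl
    · rfl
  map_mul' p q := by
    funext i
    refine Fin.cases ?_ (fun i => ?_) i
    · rfl
    · rfl

private theorem powEquiv_cont (k : ℕ) : Continuous (powEquiv k) := by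
  refine continuous_pi fun i => ?_
  refine Fin.cases ?_ (fun i => ?_) i
  · exact continuous_snd
  · exact (continuous_apply i).comp continuous_fst

private theorem powEquiv_cont_symm (k : ℕ) : Continuous (powEquiv k).symm := by
  refine Continuous.prodMk ?_ ?_
  · exact continuous_pi fun i => continuous_apply _
  · exact continuous_apply _

theorem van_pow (hBC : ∀ k, 3 ≤ k → Van G k) (k : ℕ) : ∀ n, 1 ≤ n → (Odd n ∨ 2 * k < n) →
    Van (Fin k → G) n := by
  induction k with
  | zero =>
    intro n hn _
    exact van_unit (Fin 0 → G) hn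
  | succ k ih =>
    intro n hn h
    have := locallyCompact_G
    obtain ⟨D, -⟩ := exists_gdata hBC
    obtain ⟨T, hT⟩ := exists_smt (Fin k → G)
    refine van_congr (powEquiv k) (powEquiv_cont k) (powEquiv_cont_symm k)
      (van_prod D hT hn ?_ (ih n hn ?_) fun h3 => ih (n - 2) (by omega) ?_)
    · rintro rfl
      rcases h with h | h
      · exact absurd h (by decide)
      · omega
    · rcases h with h | h
      · exact Or.inl h
      · exact Or.inr (by omega)
    · rcases h with h | h
      · left
        rw [Nat.odd_iff] at h ⊢
        omega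
      · right
        omega

theorem cinj_pow (hBC : ∀ k, 3 ≤ k → Van G k) (k : ℕ) : ∀ n, 1 ≤ n → CInj (Fin k → G) n := by
  induction k with
  | zero =>
    intro n hn μ hμ _
    exact van_unit (Fin 0 → G) hn μ hμ
  | succ k ih =>
    intro n hn
    have := locallyCompact_G
    obtain ⟨D, hD⟩ := exists_gdata hBC
    obtain ⟨T, hT⟩ := exists_smt (Fin k → G)
    exact cinj_congr (powEquiv k) (powEquiv_cont k) (powEquiv_cont_symm k)
      (cinj_prod D hD hT hn (ih n hn) fun h3 => ih (n - 2) (by omega))

end Pool.Agent.Helper87.BK
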