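import Pool.Agent.Helper87.BK.Cmp

/-!
# Project BK: tuples and lists for an arbitrary group (piece BK-CNV)

For `b : (Fin k → H) → ℝ` let `li b m = b (fun j => m.getD j 1)` if `m.length = k`, and `0` otherwise; then
`li b (List.ofFn x) = b x`, `LC (li b)` iff `b` is continuous, and (compare
`Pool/Agent/Helper87/BCR/Conv.lean`, where this is done for `SL(2, ℝ)`)
`dl (li b) (List.ofFn x) = ∑ i, (-1)^i * b (fun j => x (Fin.succAbove i j))`, `dl (li b) m = 0` for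
`m.length ≠ k + 1`.  In the other direction, for `Φ` with `Co k Φ` put `b x = Φ (List.ofFn x)`.
-/

open scoped Topology

namespace Pool.Agent.Helper87.BK
open Pool.Agent.Helper11.BC (dl)
open Pool.Agent.Helper87.BCR

/-- The homogeneous coboundary. -/
noncomputable def dF {H : Type} {n : ℕ} (f : (Fin n → H) → ℝ) (x : Fin (n + 1) → H) : ℝ :=
  ∑ i : Fin (n + 1), (-1 : ℝ) ^ (i : ℕ) * f fun j => x (Fin.succAbove i j)

private lemma cnv_erase {X : Type} {n : ℕ} (x : Fin (n + 1) → X) (i : Fin (n + 1)) :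
    (List.ofFn x).eraseIdx i = List.ofFn fun j : Fin n => x (Fin.succAbove i j) := by
  apply List.ext_getElem
  · rw [List.length_eraseIdx_of_lt (by rw [List.length_ofFn]; exact i.2), List.length_ofFn,
      List.length_ofFn]
    simp
  · intro m h1 h2
    rw [List.length_ofFn] at h2
    rw [List.getElem_eraseIdx]
    by_cases hm : m < (i : ℕ)
    · rw [dif_pos hm, List.getElem_ofFn, List.getElem_ofFn]
      congr 1
      rw [Fin.succAbove_of_castSucc_lt _ _ (by simpa [Fin.lt_def] using hm)]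
      rfl
    · rw [dif_neg hm, List.getElem_ofFn, List.getElem_ofFn]
      congr 1
      rw [Fin.succAbove_of_le_castSucc _ _ (by simpa [Fin.le_def] using hm)]
      rfl

private lemma cnv_dl_ofFn {X : Type} {n : ℕ} (A : List X → ℝ) (x : Fin (n + 1) → X) :
    dl A (List.ofFn x) = dF (fun y : Fin n → X => A (List.ofFn y)) x := by
  unfold dl dF
  rw [List.length_ofFn, Finset.sum_range]
  refine Finset.sum_congr rfl fun i _ => ?_
  rw [cnv_erase, smul_eq_mul]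

private lemma cnv_exists {X : Type} {k : ℕ} (l : List X) (h : l.length = k) :
    ∃ x : Fin k → X, l = List.ofFn x := by
  subst h
  exact ⟨fun j => l[j], by simp⟩

private lemma cnv_dl_zero {X : Type} {n : ℕ} (A : List X → ℝ)
    (hA : ∀ l : List X, l.length ≠ n → A l = 0) (l : List X) (hl : l.length ≠ n + 1) :
    dl A l = 0 := by
  unfold dl
  refine Finset.sum_eq_zero fun i hi' => ?_
  rw [Finset.mem_range] at hi'
  rw [hA, smul_zero]
  rw [List.length_eraseIdx_of_lt hi']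
  omega

variable {H : Type} [Group H] [TopologicalSpace H]

/-- The function on lists of a function of tuples. -/
private noncomputable def cnvLi (k : ℕ) (b : (Fin k → H) → ℝ) (l : List H) : ℝ :=
  if l.length = k then b (fun j : Fin k => l.getD (j : ℕ) 1) else 0

private lemma cnvLi_ofFn {k : ℕ} (b : (Fin k → H) → ℝ) (x : Fin k → H) :
    cnvLi k b (List.ofFn x) = b x := by
  unfold cnvLi
  rw [if_pos (List.length_ofFn)]
  congr 1
  funext j
  rw [List.getD_eq_getElem _ _ (by simp)]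
  simp

private lemma cnvLi_ne {k : ℕ} (b : (Fin k → H) → ℝ) (l : List H) (hl : l.length ≠ k) :
    cnvLi k b l = 0 := by
  unfold cnvLi
  rw [if_neg hl]

private lemma cnvLi_LC {k : ℕ} (b : (Fin k → H) → ℝ) (hc : Continuous b) : LC (cnvLi k b) := by
  intro m
  by_cases hk : m = k
  · subst hk
    simp_rw [cnvLi_ofFn]
    exact hc
  · have : (fun v : Fin m → H => cnvLi k b (List.ofFn v)) = fun _ => 0 := by
      funext v
      exact cnvLi_ne b _ (by rw [List.length_ofFn]; exact hk)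
    rw [this]
    exact continuous_const

private lemma cnvLi_inv {k : ℕ} (b : (Fin k → H) → ℝ)
    (hi : ∀ (g : H) x, b (fun j => g * x j) = b x) (g : H) (l : List H) :
    cnvLi k b (l.map (g * ·)) = cnvLi k b l := by
  by_cases hl : l.length = k
  · obtain ⟨x, rfl⟩ := cnv_exists l hl
    rw [List.map_ofFn, cnvLi_ofFn, cnvLi_ofFn]
    exact hi g x
  · rw [cnvLi_ne b l hl, cnvLi_ne b _ (by rw [List.length_map]; exact hl)]

private lemma cnvLi_Uo {k : ℕ} (b : (Fin k → H) → ℝ) (hc : Continuous b)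
    (hi : ∀ (g : H) x, b (fun j => g * x j) = b x) : Uo k (cnvLi k b) :=
  ⟨cnvLi_LC b hc, cnvLi_inv b hi, cnvLi_ne b⟩

private lemma cnvLi_Co {k : ℕ} (b : (Fin k → H) → ℝ) (hc : Continuous b)
    (hi : ∀ (g : H) x, b (fun j => g * x j) = b x) (hb : ∃ C : ℝ, ∀ x, |b x| ≤ C) :
    Co k (cnvLi k b) := by
  refine ⟨cnvLi_LC b hc, ?_, cnvLi_inv b hi, cnvLi_ne b⟩
  obtain ⟨C, hC⟩ := hb
  refine ⟨max C 0, fun l => ?_⟩
  by_cases hl : l.length = k
  · obtain ⟨x, rfl⟩ := cnv_exists l hl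
    rw [cnvLi_ofFn]
    exact (hC x).trans (le_max_left _ _)
  · rw [cnvLi_ne b l hl, abs_zero]
    exact le_max_right _ _

private lemma cnvLi_dl {k : ℕ} (b : (Fin k → H) → ℝ) (x : Fin (k + 1) → H) :
    dl (cnvLi k b) (List.ofFn x) = dF b x := by
  rw [cnv_dl_ofFn]
  congr 1
  funext y
  exact cnvLi_ofFn b y

private lemma cnvLi_Cy {k : ℕ} (b : (Fin k → H) → ℝ) (hc : Continuous b)
    (hi : ∀ (g : H) x, b (fun j => g * x j) = b x) (hb : ∃ C : ℝ, ∀ x, |b x| ≤ C)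
    (hz : ∀ x, dF b x = 0) : Cy k (cnvLi k b) := by
  refine ⟨cnvLi_Co b hc hi hb, fun l => ?_⟩
  by_cases hl : l.length = k + 1
  · obtain ⟨x, rfl⟩ := cnv_exists l hl
    rw [cnvLi_dl, hz]
  · exact cnv_dl_zero _ (cnvLi_ne b) l hl

private lemma cnvLi_eq {n : ℕ} (A : List H → ℝ) (hA : ∀ l : List H, l.length ≠ n + 1 → A l = 0)
    (u : (Fin n → H) → ℝ) (h : ∀ x : Fin (n + 1) → H, A (List.ofFn x) = dF u x) (l : List H) :
    A l = dl (cnvLi n u) l := by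
  by_cases hl : l.length = n + 1
  · obtain ⟨x, rfl⟩ := cnv_exists l hl
    rw [cnvLi_dl, h]
  · rw [hA l hl, cnv_dl_zero _ (cnvLi_ne u) l hl]

private lemma cnv_inv {k : ℕ} {A : List H → ℝ} (h : ∀ (g : H) l, A (l.map (g * ·)) = A l)
    (g : H) (x : Fin k → H) : A (List.ofFn fun j => g * x j) = A (List.ofFn x) := by
  rw [← h g (List.ofFn x), List.map_ofFn]
  rfl

theorem fin_of_van {n : ℕ} (h : Van H n) (f : (Fin (n + 1) → H) → ℝ) (hc : Continuous f)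
    (hi : ∀ (g : H) x, f (fun j => g * x j) = f x) (hb : ∃ C : ℝ, ∀ x, |f x| ≤ C)
    (hz : ∀ x, dF f x = 0) :
    ∃ u : (Fin n → H) → ℝ, Continuous u ∧ (∀ (g : H) x, u (fun j => g * x j) = u x) ∧
      (∃ C : ℝ, ∀ x, |u x| ≤ C) ∧ ∀ x, f x = dF u x := by
  obtain ⟨ν, hν, hμν⟩ := h (cnvLi (n + 1) f) (cnvLi_Cy f hc hi hb hz)
  refine ⟨fun x => ν (List.ofFn x), hν.cont n, fun g x => cnv_inv hν.inv g x, ?_, fun x => ?_⟩
  · obtain ⟨M, hM⟩ := hν.bdd
    exact ⟨M, fun x => hM _⟩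
  · rw [← cnvLi_ofFn f x, hμν, cnv_dl_ofFn]

theorem van_of_fin {n : ℕ}
    (h : ∀ f : (Fin (n + 1) → H) → ℝ, Continuous f → (∀ (g : H) x, f (fun j => g * x j) = f x) →
      (∃ C : ℝ, ∀ x, |f x| ≤ C) → (∀ x, dF f x = 0) →
      ∃ u : (Fin n → H) → ℝ, Continuous u ∧ (∀ (g : H) x, u (fun j => g * x j) = u x) ∧
        (∃ C : ℝ, ∀ x, |u x| ≤ C) ∧ ∀ x, f x = dF u x) : Van H n := by
  intro μ hμ
  obtain ⟨u, h1, h2, h3, h4⟩ := h (fun x => μ (List.ofFn x)) (hμ.1.cont _)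
    (fun g x => cnv_inv hμ.1.inv g x)
    (by
      obtain ⟨M, hM⟩ := hμ.1.bdd
      exact ⟨M, fun x => hM _⟩)
    (fun x => by rw [← cnv_dl_ofFn, hμ.2])
  exact ⟨cnvLi n u, cnvLi_Co u h1 h2 h3, cnvLi_eq μ hμ.1.supp u h4⟩

theorem fin_of_cinj {n : ℕ} (h : CInj H n) (f : (Fin (n + 1) → H) → ℝ) (hc : Continuous f)
    (hi : ∀ (g : H) x, f (fun j => g * x j) = f x) (hb : ∃ C : ℝ, ∀ x, |f x| ≤ C)
    (v : (Fin n → H) → ℝ) (hvc : Continuous v) (hvi : ∀ (g : H) x, v (fun j => g * x j) = v x)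
    (hv : ∀ x, f x = dF v x) :
    ∃ u : (Fin n → H) → ℝ, Continuous u ∧ (∀ (g : H) x, u (fun j => g * x j) = u x) ∧
      (∃ C : ℝ, ∀ x, |u x| ≤ C) ∧ ∀ x, f x = dF u x := by
  have hfv : ∀ l, cnvLi (n + 1) f l = dl (cnvLi n v) l :=
    cnvLi_eq _ (cnvLi_ne f) v fun x => by rw [cnvLi_ofFn, hv]
  have hz : ∀ x, dF f x = 0 := by
    intro x
    rw [← cnvLi_dl, show cnvLi (n + 1) f = dl (cnvLi n v) from funext hfv, dl_dl]
  obtain ⟨ν, hν, hμν⟩ := h (cnvLi (n + 1) f) (cnvLi_Cy f hc hi hb hz)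
    ⟨cnvLi n v, cnvLi_Uo v hvc hvi, hfv⟩
  refine ⟨fun x => ν (List.ofFn x), hν.cont n, fun g x => cnv_inv hν.inv g x, ?_, fun x => ?_⟩
  · obtain ⟨M, hM⟩ := hν.bdd
    exact ⟨M, fun x => hM _⟩
  · rw [← cnvLi_ofFn f x, hμν, cnv_dl_ofFn]

theorem cinj_of_fin {n : ℕ}
    (h : ∀ f : (Fin (n + 1) → H) → ℝ, Continuous f → (∀ (g : H) x, f (fun j => g * x j) = f x) →
      (∃ C : ℝ, ∀ x, |f x| ≤ C) →
      (∃ v : (Fin n → H) → ℝ, Continuous v ∧ (∀ (g : H) x, v (fun j => g * x j) = v x) ∧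
        ∀ x, f x = dF v x) →
      ∃ u : (Fin n → H) → ℝ, Continuous u ∧ (∀ (g : H) x, u (fun j => g * x j) = u x) ∧
        (∃ C : ℝ, ∀ x, |u x| ≤ C) ∧ ∀ x, f x = dF u x) : CInj H n := by
  rintro μ hμ ⟨v, hv, hμv⟩
  obtain ⟨u, h1, h2, h3, h4⟩ := h (fun x => μ (List.ofFn x)) (hμ.1.cont _)
    (fun g x => cnv_inv hμ.1.inv g x)
    (by
      obtain ⟨M, hM⟩ := hμ.1.bdd
      exact ⟨M, fun x => hM _⟩)
    ⟨fun x => v (List.ofFn x), hv.cont n, fun g x => cnv_inv hv.inv g x, fun x => by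
      rw [← cnv_dl_ofFn, ← hμv]⟩
  exact ⟨cnvLi n u, cnvLi_Co u h1 h2 h3, cnvLi_eq μ hμ.1.supp u h4⟩

end Pool.Agent.Helper87.BK
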