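import Pool.Agent.Helper87.BK.Basic

/-!
# Project BK: the Alexander-Whitney map (piece BK-AW)

* `aw_add`, `aw_smul`, `aw_congr`, `aw_map`: induction on `l`, generalizing the function.
* `aw_dl`: let `DA Φ l m = dl (fun a => Φ a m) l + (-1)^(|l|+1) * dl (Φ l) m` (no condition).  Claim: for
  every `Φ` and every nonempty `l`, with `s = l.map Prod.snd`, `r = l.map Prod.fst`,
  `aw (DA Φ) l = dl (aw Φ) l + Φ [] s + (-1)^(|l|+1) Φ r []`.
  Induction on `l` generalizing `Φ`.  For `[w]`: both sides are `Φ [] [w.2] + Φ [w.1] []`.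
  For `w :: l` with `l` nonempty, `x = w.1`, `Φₓ a b = Φ (x :: a) b`, `s`, `r` of `l`:
  `aw (DA Φ) (w::l) = DA Φ [x] (w.2 :: s) + aw (fun a b => DA Φ (x :: a) b) l`, and for nonempty `a`
  `DA Φ (x :: a) b = Φ a b - DA Φₓ a b` (`BCR.dl_cons`; `aw` evaluates its function only at
  nonempty lists: `aw_congr`), and `DA Φ [x] (w.2 :: s) = Φ [] (w.2 :: s) + Φ [x] s -
  dl (fun b => Φ [x] (w.2 :: b)) s`; so, by induction for `Φₓ` (with `Φₓ [] = Φ [x]`)
  `aw (DA Φ) (w::l) = Φ [] (w.2 :: s) - dl (fun b => Φ [x] (w.2 :: b)) s + aw Φ l - dl (aw Φₓ) l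
    + (-1)^(|l|+2) Φ (x :: r) []`, while `dl (aw Φ) (w::l) = aw Φ l - dl (fun t => aw Φ (w :: t)) l =
  aw Φ l - dl (fun b => Φ [x] (w.2 :: b)) s - dl (aw Φₓ) l` (`dl (fun t => ψ (t.map Prod.snd)) l =
  dl ψ (l.map Prod.snd)`: `List.eraseIdx_map`).
  If `Φ` vanishes at empty lists the claim gives the theorem (`DD Φ = DA Φ` at nonempty lists).
* `aw_eq`: if `Φ l m = 0` unless `m.length = j + 1`, only one term of `aw` remains:
  `aw Φ l = Φ (first |l| - j entries) (last j + 1 entries)`.  Induction on `l`.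
-/

namespace Pool.Agent.Helper87.BK
open Pool.Agent.Helper11.BC (dl)
open Pool.Agent.Helper87.BCR

variable {X Y : Type}

theorem aw_add (Φ Ψ : List X → List Y → ℝ) (l : List (X × Y)) :
    aw (fun a b => Φ a b + Ψ a b) l = aw Φ l + aw Ψ l := by
  induction l generalizing Φ Ψ with
  | nil => simp [aw]
  | cons w l ih =>
    simp only [aw]
    rw [ih (fun a b => Φ (w.1 :: a) b) (fun a b => Ψ (w.1 :: a) b)]
    ring

theorem aw_smul (c : ℝ) (Φ : List X → List Y → ℝ) (l : List (X × Y)) :
    aw (fun a b => c * Φ a b) l = c * aw Φ l := by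
  induction l generalizing Φ with
  | nil => simp [aw]
  | cons w l ih =>
    simp only [aw]
    rw [ih (fun a b => Φ (w.1 :: a) b)]
    ring

theorem aw_congr (Φ Ψ : List X → List Y → ℝ) (l : List (X × Y))
    (h : ∀ a b, a ≠ [] → b ≠ [] → a.length + b.length = l.length + 1 → Φ a b = Ψ a b) :
    aw Φ l = aw Ψ l := by
  induction l generalizing Φ Ψ with
  | nil => simp [aw]
  | cons w l ih =>
    simp only [aw]
    rw [h [w.1] (w.2 :: l.map Prod.snd) (by simp) (by simp) (by simp; ring),
      ih (fun a b => Φ (w.1 :: a) b) (fun a b => Ψ (w.1 :: a) b) ?_]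
    intro a b _ hb hab
    exact h (w.1 :: a) b (by simp) hb (by simp; omega)

theorem aw_map (Φ : List X → List Y → ℝ) (a : X → X) (b : Y → Y) (l : List (X × Y)) :
    aw (fun s t => Φ (s.map a) (t.map b)) l = aw Φ (l.map fun e => (a e.1, b e.2)) := by
  induction l generalizing Φ with
  | nil => simp [aw]
  | cons w l ih =>
    simp only [List.map_cons, List.map_nil, aw]
    rw [ih (fun s t => Φ (a w.1 :: s) t)]
    simp [List.map_map, Function.comp_def]

private theorem AW_sub (Φ Ψ : List X → List Y → ℝ) (l : List (X × Y)) :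
    aw (fun a b => Φ a b - Ψ a b) l = aw Φ l - aw Ψ l := by
  have h1 : (fun a b => Φ a b - Ψ a b) = fun a b => Φ a b + (-1) * Ψ a b := by
    funext a b
    ring
  rw [h1, aw_add, aw_smul]
  ring

private theorem AW_dl_add {T : Type} (Φ Ψ : List T → ℝ) (l : List T) :
    dl (fun m => Φ m + Ψ m) l = dl Φ l + dl Ψ l := by
  unfold dl
  rw [← Finset.sum_add_distrib]
  refine Finset.sum_congr rfl fun i _ => ?_
  rw [smul_add]

private theorem AW_dl_map {T T' : Type} (ψ : List T' → ℝ) (f : T → T') (l : List T) :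
    dl (fun t => ψ (t.map f)) l = dl ψ (l.map f) := by
  unfold dl
  rw [List.length_map]
  refine Finset.sum_congr rfl fun i _ => ?_
  rw [List.eraseIdx_map]

/-- the total differential without condition -/
private noncomputable def AW_DA (Φ : List X → List Y → ℝ) (l : List X) (m : List Y) : ℝ :=
  dl (fun a => Φ a m) l + (-1) ^ (l.length + 1) * dl (Φ l) m

private theorem AW_claim (l : List (X × Y)) (hl : l ≠ []) : ∀ Φ : List X → List Y → ℝ,
    aw (AW_DA Φ) l = dl (aw Φ) l + Φ [] (l.map Prod.snd) +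
      (-1) ^ (l.length + 1) * Φ (l.map Prod.fst) [] := by
  induction l with
  | nil => exact absurd rfl hl
  | cons w l ih =>
    intro Φ
    by_cases hl0 : l = []
    · subst hl0
      simp [aw, AW_DA, dl_cons, dl_nil]
    · have hsplit : (fun a b => AW_DA Φ (w.1 :: a) b) =
          fun a b => Φ a b - AW_DA (fun a b => Φ (w.1 :: a) b) a b := by
        funext a b
        unfold AW_DA
        rw [dl_cons, List.length_cons]
        ring
      have h1 : aw (AW_DA Φ) (w :: l) = AW_DA Φ [w.1] (w.2 :: l.map Prod.snd) +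
          (aw Φ l - aw (AW_DA fun a b => Φ (w.1 :: a) b) l) := by
        rw [aw, hsplit, AW_sub]
      have h2 : AW_DA Φ [w.1] (w.2 :: l.map Prod.snd) = Φ [] (w.2 :: l.map Prod.snd) +
          (Φ [w.1] (l.map Prod.snd) - dl (fun b => Φ [w.1] (w.2 :: b)) (l.map Prod.snd)) := by
        unfold AW_DA
        rw [dl_cons, dl_nil, dl_cons]
        simp
      have h3 : dl (aw Φ) (w :: l) = aw Φ l - (dl (fun b => Φ [w.1] (w.2 :: b)) (l.map Prod.snd) +
          dl (aw fun a b => Φ (w.1 :: a) b) l) := by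
        rw [dl_cons, ← AW_dl_map, ← AW_dl_add]
        rfl
      rw [h1, h2, h3, ih hl0]
      simp only [List.map_cons, List.length_cons]
      ring

theorem aw_dl (Φ : List X → List Y → ℝ) (h1 : ∀ m, Φ [] m = 0) (h2 : ∀ l, Φ l [] = 0)
    (l : List (X × Y)) : aw (DD Φ) l = dl (aw Φ) l := by
  by_cases hl : l = []
  · subst hl
    rw [dl_nil]
    simp [aw]
  · have h3 : aw (DD Φ) l = aw (AW_DA Φ) l := by
      apply aw_congr
      intro a b ha hb _
      unfold DD AW_DA
      rw [if_neg]
      rintro (h | h)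
      · exact ha h
      · exact hb h
    rw [h3, AW_claim l hl, h1, h2]
    ring

private theorem AW_zero (Φ : List X → List Y → ℝ) (j : ℕ)
    (hj : ∀ l m, m.length ≠ j + 1 → Φ l m = 0) (l : List (X × Y)) (hl : l.length < j + 1) :
    aw Φ l = 0 := by
  have h1 : aw Φ l = aw (fun a b => (0 : ℝ) * Φ a b) l := by
    apply aw_congr
    intro a b ha _ hab
    have ha' : 1 ≤ a.length := List.length_pos_iff.2 ha
    rw [hj a b (by omega), mul_zero]
  rw [h1, aw_smul, zero_mul]

theorem aw_eq (Φ : List X → List Y → ℝ) (j : ℕ) (hj : ∀ l m, m.length ≠ j + 1 → Φ l m = 0)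
    (l : List (X × Y)) (hl : j + 1 ≤ l.length) :
    aw Φ l = Φ ((l.take (l.length - j)).map Prod.fst)
      ((l.drop (l.length - (j + 1))).map Prod.snd) := by
  induction l generalizing Φ with
  | nil => simp at hl
  | cons w l ih =>
    rw [List.length_cons] at hl
    by_cases hlj : l.length = j
    · have h1 : aw (fun a b => Φ (w.1 :: a) b) l = 0 :=
        AW_zero _ j (fun a b hb => hj _ _ hb) l (by omega)
      have e1 : (w :: l).length - j = 1 := by rw [List.length_cons]; omega
      have e2 : (w :: l).length - (j + 1) = 0 := by rw [List.length_cons]; omega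
      rw [e1, e2, aw, h1, add_zero]
      simp
    · have h1 : Φ [w.1] (w.2 :: l.map Prod.snd) = 0 := hj _ _ (by simp; omega)
      have e1 : (w :: l).length - j = (l.length - j) + 1 := by rw [List.length_cons]; omega
      have e2 : (w :: l).length - (j + 1) = (l.length - (j + 1)) + 1 := by
        rw [List.length_cons]; omega
      rw [e1, e2, aw, h1, zero_add, ih (fun a b => Φ (w.1 :: a) b) (fun a b hb => hj _ _ hb)
        (by omega)]
      simp

end Pool.Agent.Helper87.BK
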