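import Pool.Agent.Helper87.BK.Basic

/-!
# Project BK: the homotopy between the identity and a natural operator (piece BK-HM)

* `hm_nil`, `hm_cons`: unfold; every face of `x :: l` has length `l.length`, the fuel of `hm` there.
* `hm_homotopy`: strong induction on the length of `l`, for all `f`.  For `l = []`: `dl _ [] = 0`,
  `hm A _ [] = 0` and `A f [] = f []`.  For `s = x :: l`, `fx t = f (x :: t)`:
  `(dl f) (x :: t) = f t - dl fx t` (`BCR.dl_cons`), so by `hm_cons`, linearity and `hdl`
  `hm A (dl f) s = A f s - A (dl fx) s - f s + dl fx s - dl (hm A (fun t => f t - dl fx t)) s`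
  `= A f s - dl (A fx) s - f s + dl fx s - dl (hm A f) s + dl (hm A (dl fx)) s`;
  (`hm A` is linear: `hm_sub`), and by the induction hypothesis for the function `fx` at the faces
  `t` of `s`, `hm A (dl fx) t = A fx t - fx t - dl (hm A fx) t`, so
  `dl (hm A (dl fx)) s = dl (A fx) s - dl fx s - dl (dl (hm A fx)) s`, and `dl (dl _) = 0`.
* `dl_dl`: induction with `BCR.dl_cons`: `dl (dl Φ) (x :: l) = dl Φ l - dl (fun t => dl Φ (x :: t)) l
  = dl Φ l - dl (fun t => Φ t - dl Φx t) l = dl (dl Φx) l = 0`.
-/

namespace Pool.Agent.Helper87.BK
open Pool.Agent.Helper11.BC (dl)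
open Pool.Agent.Helper87.BCR

variable {X : Type}

theorem dl_dl (Φ : List X → ℝ) (l : List X) : dl (dl Φ) l = 0 := by
  induction l generalizing Φ with
  | nil => simp [dl]
  | cons x l ih =>
    rw [dl_cons]
    have h1 : (fun m => dl Φ (x :: m)) = fun m => Φ m - dl (fun t => Φ (x :: t)) m :=
      funext fun m => dl_cons Φ x m
    rw [h1, dl_sub, ih]
    ring

theorem dl_congr (Φ Ψ : List X → ℝ) (l : List X)
    (h : ∀ t : List X, t.length + 1 = l.length → Φ t = Ψ t) : dl Φ l = dl Ψ l := by
  unfold dl
  refine Finset.sum_congr rfl fun i hi => ?_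
  have hi' := Finset.mem_range.1 hi
  rw [h _ (by rw [List.length_eraseIdx_of_lt hi']; omega)]

theorem dl_add (Φ Ψ : List X → ℝ) (l : List X) :
    dl (fun t => Φ t + Ψ t) l = dl Φ l + dl Ψ l := by
  unfold dl
  rw [← Finset.sum_add_distrib]
  exact Finset.sum_congr rfl fun i _ => by rw [smul_add]

theorem dl_smul (c : ℝ) (Φ : List X → ℝ) (l : List X) :
    dl (fun t => c * Φ t) l = c * dl Φ l := by
  unfold dl
  rw [Finset.mul_sum]
  refine Finset.sum_congr rfl fun i _ => ?_
  simp only [smul_eq_mul]
  ring

theorem hm_nil (A : (List X → ℝ) → List X → ℝ) (f : List X → ℝ) : hm A f [] = 0 := rfl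

theorem hm_cons (A : (List X → ℝ) → List X → ℝ) (f : List X → ℝ) (x : X) (l : List X) :
    hm A f (x :: l) = A (fun t => f (x :: t)) (x :: l) - f (x :: x :: l) -
      dl (hm A fun t => f (x :: t)) (x :: l) := by
  have h1 : dl (hm A fun t => f (x :: t)) (x :: l) =
      dl (hmn A l.length fun t => f (x :: t)) (x :: l) := by
    refine dl_congr _ _ _ fun t ht => ?_
    have h2 : t.length = l.length := by
      rw [List.length_cons] at ht
      omega
    unfold hm
    rw [h2]
  rw [h1]
  rfl

private theorem HM_hmn_sub (A : (List X → ℝ) → List X → ℝ)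
    (hsub : ∀ f g l, A (fun t => f t - g t) l = A f l - A g l) (n : ℕ) :
    ∀ (f g : List X → ℝ) (l : List X),
      hmn A n (fun t => f t - g t) l = hmn A n f l - hmn A n g l := by
  induction n with
  | zero =>
    intro f g l
    simp [hmn]
  | succ n ih =>
    intro f g l
    cases l with
    | nil => simp [hmn]
    | cons x l =>
      simp only [hmn]
      rw [hsub]
      have h1 : (hmn A n fun t => f (x :: t) - g (x :: t)) =
          fun t => hmn A n (fun t => f (x :: t)) t - hmn A n (fun t => g (x :: t)) t :=
        funext fun t => ih _ _ t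
      rw [h1, dl_sub]
      ring

theorem hm_sub (A : (List X → ℝ) → List X → ℝ)
    (hsub : ∀ f g l, A (fun t => f t - g t) l = A f l - A g l) (f g : List X → ℝ) (l : List X) :
    hm A (fun t => f t - g t) l = hm A f l - hm A g l :=
  HM_hmn_sub A hsub _ f g l

theorem hm_homotopy (A : (List X → ℝ) → List X → ℝ)
    (hsub : ∀ f g l, A (fun t => f t - g t) l = A f l - A g l)
    (hdl : ∀ f l, A (dl f) l = dl (A f) l) (hnil : ∀ f, A f [] = f [])
    (f : List X → ℝ) (l : List X) : dl (hm A f) l + hm A (dl f) l = A f l - f l := by
  have key : ∀ n : ℕ, ∀ l : List X, l.length = n → ∀ f : List X → ℝ,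
      dl (hm A f) l + hm A (dl f) l = A f l - f l := by
    intro n
    induction n with
    | zero =>
      intro l hl f
      obtain rfl := List.length_eq_zero_iff.1 hl
      rw [hm_nil, hnil]
      simp [dl]
    | succ n ih =>
      intro l hl f
      obtain ⟨x, l, rfl⟩ : ∃ x l', l = x :: l' := by
        cases l with
        | nil => simp at hl
        | cons x l => exact ⟨x, l, rfl⟩
      have hln : l.length = n := by
        rw [List.length_cons] at hl
        omega
      have e1 : (fun t => dl f (x :: t)) = fun t => f t - dl (fun t => f (x :: t)) t :=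
        funext fun t => dl_cons f x t
      have e2 : dl f (x :: x :: l) = f (x :: l) - dl (fun t => f (x :: t)) (x :: l) :=
        dl_cons f x (x :: l)
      have e3 : (hm A fun t => f t - dl (fun t => f (x :: t)) t) =
          fun t => hm A f t - hm A (dl (fun t => f (x :: t))) t :=
        funext fun t => hm_sub A hsub _ _ t
      have e4 : dl (hm A (dl fun t => f (x :: t))) (x :: l) =
          dl (fun t => (A (fun t => f (x :: t)) t - f (x :: t)) -
            dl (hm A fun t => f (x :: t)) t) (x :: l) := by
        refine dl_congr _ _ _ fun t ht => ?_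
        have h1 : t.length = n := by
          rw [List.length_cons] at ht
          omega
        have h2 := ih t h1 (fun t => f (x :: t))
        linear_combination h2
      rw [hm_cons, e1, e2, e3, dl_sub, e4, dl_sub, dl_sub, dl_dl, hsub, hdl]
      ring
  exact key l.length l rfl f

theorem hm_congr (A : (List X → ℝ) → List X → ℝ)
    (hA : ∀ f g l, (∀ t : List X, t.length = l.length → f t = g t) → A f l = A g l)
    (f g : List X → ℝ) (l : List X)
    (h : ∀ t : List X, t.length = l.length + 1 → f t = g t) : hm A f l = hm A g l := by
  have key : ∀ n : ℕ, ∀ l : List X, l.length = n → ∀ f g : List X → ℝ,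
      (∀ t : List X, t.length = l.length + 1 → f t = g t) → hm A f l = hm A g l := by
    intro n
    induction n with
    | zero =>
      intro l hl f g _
      obtain rfl := List.length_eq_zero_iff.1 hl
      rfl
    | succ n ih =>
      intro l hl f g h
      obtain ⟨x, l, rfl⟩ : ∃ x l', l = x :: l' := by
        cases l with
        | nil => simp at hl
        | cons x l => exact ⟨x, l, rfl⟩
      have hln : l.length = n := by
        rw [List.length_cons] at hl
        omega
      rw [hm_cons, hm_cons]
      rw [hA (fun t => f (x :: t)) (fun t => g (x :: t)) (x :: l) (fun t ht => h _ (by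
        rw [List.length_cons, ht])), h (x :: x :: l) (by simp)]
      rw [dl_congr (hm A fun t => f (x :: t)) (hm A fun t => g (x :: t)) (x :: l) (fun t ht => by
        have h1 : t.length = n := by
          rw [List.length_cons] at ht
          omega
        exact ih t h1 _ _ fun t' ht' => h _ (by
          rw [List.length_cons, ht', List.length_cons, h1, hln]))]
  exact key l.length l rfl f g h

private theorem HM_dl_map {Y : Type} (a : X → Y) (Φ : List Y → ℝ) (l : List X) :
    dl (fun t => Φ (t.map a)) l = dl Φ (l.map a) := by
  unfold dl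
  rw [List.length_map]
  exact Finset.sum_congr rfl fun i _ => by rw [List.eraseIdx_map]

theorem hm_map (A : (List X → ℝ) → List X → ℝ) (a : X → X)
    (hA : ∀ f l, A (fun t => f (t.map a)) l = A f (l.map a)) (f : List X → ℝ) (l : List X) :
    hm A (fun t => f (t.map a)) l = hm A f (l.map a) := by
  have key : ∀ n : ℕ, ∀ l : List X, l.length = n → ∀ f : List X → ℝ,
      hm A (fun t => f (t.map a)) l = hm A f (l.map a) := by
    intro n
    induction n with
    | zero =>
      intro l hl f
      obtain rfl := List.length_eq_zero_iff.1 hl
      rfl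
    | succ n ih =>
      intro l hl f
      obtain ⟨x, l, rfl⟩ : ∃ x l', l = x :: l' := by
        cases l with
        | nil => simp at hl
        | cons x l => exact ⟨x, l, rfl⟩
      have hln : l.length = n := by
        rw [List.length_cons] at hl
        omega
      have e1 : dl (hm A fun t => f (a x :: t.map a)) (x :: l) =
          dl (fun t => hm A (fun t => f (a x :: t)) (t.map a)) (x :: l) := by
        refine dl_congr _ _ _ fun t ht => ?_
        have h1 : t.length = n := by
          rw [List.length_cons] at ht
          omega
        exact ih t h1 (fun t => f (a x :: t))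
      have e2 : A (fun t => f (a x :: t.map a)) (x :: l) =
          A (fun t => f (a x :: t)) (a x :: l.map a) := hA (fun t => f (a x :: t)) (x :: l)
      rw [hm_cons]
      simp only [List.map_cons]
      rw [hm_cons, e1, HM_dl_map, e2, List.map_cons]
  exact key l.length l rfl f

end Pool.Agent.Helper87.BK
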