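import Pool.Agent.Helper87.BK.SH
import Pool.Agent.Helper87.BK.AW
import Pool.Agent.Helper87.BK.HM

/-!
# Project BK: the operator `awsh` (piece BK-AS)

All from `SH.lean`, `AW.lean`, `HM.lean` (other pieces).
* `awsh_dl`: for `l = []` both sides are `0` (`dl _ [] = 0`).  For `l = [w]`:
  `awsh (dl f) [w] = sh (dl f) [w.1] [w.2] = f []` (`sh_dl`, and `DD (sh f) [w.1] [w.2] = 0`) and
  `dl (awsh f) [w] = awsh f [] = f []`.  For `2 ≤ |l|`: by `sh_dl` and `aw_congr` (the pairs have
  `|a| + |b| = |l| + 1 ≥ 3`) `aw (sh (dl f)) l = aw (DD (sh f)) l = dl (aw (sh f)) l` (`aw_dl`), and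
  the faces of `l` are nonempty, so `dl (awsh f) l = dl (aw (sh f)) l`.
-/

namespace Pool.Agent.Helper87.BK
open Pool.Agent.Helper11.BC (dl)
open Pool.Agent.Helper87.BCR

variable {X Y : Type}

private theorem sh_sub_fun (f g : List (X × Y) → ℝ) :
    sh (fun t => f t - g t) = fun a b => sh f a b + (-1) * sh g a b := by
  funext a b
  have h : (fun t => f t - g t) = fun t => f t + (fun t => (-1) * g t) t := by
    funext t
    ring
  rw [h, sh_add, sh_smul]

theorem awsh_sub (f g : List (X × Y) → ℝ) (l : List (X × Y)) :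
    awsh (fun t => f t - g t) l = awsh f l - awsh g l := by
  have h : aw (sh fun t => f t - g t) l = aw (sh f) l + (-1) * aw (sh g) l := by
    rw [sh_sub_fun, aw_add (sh f) (fun a b => (-1) * sh g a b), aw_smul]
  unfold awsh
  rw [h]
  split_ifs <;> ring

theorem awsh_nil (f : List (X × Y) → ℝ) : awsh f [] = f [] := by
  simp [awsh, aw]

theorem awsh_congr (f g : List (X × Y) → ℝ) (l : List (X × Y))
    (h : ∀ t : List (X × Y), t.length = l.length → f t = g t) : awsh f l = awsh g l := by
  unfold awsh
  congr 1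
  · split_ifs with hl
    · exact h [] (by rw [hl])
    · rfl
  · refine aw_congr _ _ l fun a b _ _ hab => sh_congr f g a b fun t ht => h t ?_
    omega

theorem awsh_map (f : List (X × Y) → ℝ) (a : X → X) (b : Y → Y) (l : List (X × Y)) :
    awsh (fun t => f (t.map fun e => (a e.1, b e.2))) l =
      awsh f (l.map fun e => (a e.1, b e.2)) := by
  unfold awsh
  have h : (sh fun t => f (t.map fun e => (a e.1, b e.2))) =
      fun s t => sh f (s.map a) (t.map b) := by
    funext s t
    exact sh_map f a b s t
  rw [h, aw_map (sh f) a b l]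
  congr 1
  cases l with
  | nil => simp
  | cons w l => simp

theorem awsh_dl (f : List (X × Y) → ℝ) (l : List (X × Y)) :
    awsh (dl f) l = dl (awsh f) l := by
  match l with
  | [] => rw [awsh_nil]; simp [dl]
  | [w] =>
    have h1 : dl (awsh f) [w] = f [] := by
      rw [dl_cons, awsh_nil]
      simp [dl]
    have h2 : DD (sh f) [w.1] [w.2] = 0 := by
      unfold DD
      rw [dl_cons, dl_cons, sh_nil_left, sh_nil_right]
      simp [dl]
    have h3 : awsh (dl f) [w] = sh (dl f) [w.1] [w.2] := by
      simp [awsh, aw]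
    rw [h1, h3, sh_dl, h2]
    simp
  | w :: v :: l =>
    have h1 : awsh (dl f) (w :: v :: l) = aw (sh (dl f)) (w :: v :: l) := by
      simp [awsh]
    have h2 : aw (sh (dl f)) (w :: v :: l) = aw (DD (sh f)) (w :: v :: l) := by
      refine aw_congr _ _ _ fun a b _ _ hab => ?_
      rw [sh_dl, if_neg, add_zero]
      rintro ⟨ha, hb⟩
      simp only [List.length_cons] at hab
      omega
    have h3 : dl (awsh f) (w :: v :: l) = dl (aw (sh f)) (w :: v :: l) := by
      refine dl_congr _ _ _ fun t ht => ?_
      have htn : t ≠ [] := by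
        rintro rfl
        simp at ht
      unfold awsh
      rw [if_neg htn, zero_add]
    rw [h1, h2, h3]
    exact aw_dl _ (fun m => sh_nil_left f m) (fun l => sh_nil_right f l) _

end Pool.Agent.Helper87.BK
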