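import Pool.Agent.Helper87.BCR.Cont

/-!
# Project BK: the Kuenneth formula for bounded cohomology with one factor `SL(2, ℝ)`

Cochains are functions on lists.  For two types `X`, `Y`:
* `sh f` is the shuffle map from functions on `List (X × Y)` to functions of two lists;
* `aw Φ` is the Alexander-Whitney map in the other direction;
* `DD` is the total differential of the double complex (zero if one of the lists is empty);
* `hm A` is the homotopy between the identity and a natural operator `A`.
-/

open scoped Topology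

namespace Pool.Agent.Helper87.BK
open Pool.Agent.Helper11.BC (dl)
open Pool.Agent.Helper87.BCR

section alg

variable {X Y : Type}

/-- The shuffle map with fuel. -/
noncomputable def shn : ℕ → (List (X × Y) → ℝ) → List X → List Y → ℝ
  | 0, _, _, _ => 0
  | _ + 1, _, [], _ => 0
  | _ + 1, _, _ :: _, [] => 0
  | n + 1, f, x :: l, y :: m =>
    (if l.length + m.length = 0 then f [(x, y)] else 0) +
      (shn n (fun t => f ((x, y) :: t)) l (y :: m) +
        (-1) ^ l.length * shn n (fun t => f ((x, y) :: t)) (x :: l) m)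

/-- The shuffle map. -/
noncomputable def sh (f : List (X × Y) → ℝ) (l : List X) (m : List Y) : ℝ :=
  shn (l.length + m.length) f l m

/-- The total differential. -/
noncomputable def DD (Φ : List X → List Y → ℝ) (l : List X) (m : List Y) : ℝ :=
  if l = [] ∨ m = [] then 0 else
    dl (fun a => Φ a m) l + (-1) ^ (l.length + 1) * dl (Φ l) m

/-- The Alexander-Whitney map. -/
noncomputable def aw : (List X → List Y → ℝ) → List (X × Y) → ℝ
  | _, [] => 0
  | Φ, w :: l => Φ [w.1] (w.2 :: l.map Prod.snd) + aw (fun a b => Φ (w.1 :: a) b) l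

/-- The natural operator `aw ∘ sh`, corrected on the empty list. -/
noncomputable def awsh (f : List (X × Y) → ℝ) (l : List (X × Y)) : ℝ :=
  (if l = [] then f [] else 0) + aw (sh f) l

/-- The homotopy between the identity and `A`, with fuel. -/
noncomputable def hmn (A : (List X → ℝ) → List X → ℝ) : ℕ → (List X → ℝ) → List X → ℝ
  | 0, _, _ => 0
  | _ + 1, _, [] => 0
  | n + 1, f, x :: l => A (fun t => f (x :: t)) (x :: l) - f (x :: x :: l) -
      dl (hmn A n fun t => f (x :: t)) (x :: l)

/-- The homotopy between the identity and `A`. -/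
noncomputable def hm (A : (List X → ℝ) → List X → ℝ) (f : List X → ℝ) (l : List X) : ℝ :=
  hmn A l.length f l

end alg

section top

/-- Bounded families, continuous in the second parameter and continuous in the first parameter
uniformly in the second one. -/
def PU {Z W : Type} [TopologicalSpace Z] [TopologicalSpace W] (F : Z → W → ℝ) : Prop :=
  (∃ M : ℝ, ∀ z w, |F z w| ≤ M) ∧ (∀ z, Continuous (F z)) ∧
    ∀ z₀, ∀ ε > 0, ∀ᶠ z in 𝓝 z₀, ∀ w, |F z w - F z₀ w| ≤ ε

/-- A class of families of real functions of two parameters, closed under linear combinations. -/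
structure Cls (P : ∀ (Z W : Type) [TopologicalSpace Z] [TopologicalSpace W],
    (Z → W → ℝ) → Prop) : Prop where
  zero : ∀ (Z W : Type) [TopologicalSpace Z] [TopologicalSpace W], P Z W fun _ _ => 0
  add : ∀ (Z W : Type) [TopologicalSpace Z] [TopologicalSpace W] (F F' : Z → W → ℝ),
    P Z W F → P Z W F' → P Z W fun z w => F z w + F' z w
  smul : ∀ (Z W : Type) [TopologicalSpace Z] [TopologicalSpace W] (c : ℝ) (F : Z → W → ℝ),
    P Z W F → P Z W fun z w => c * F z w

variable {X Y : Type} [TopologicalSpace X] [TopologicalSpace Y]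

/-- A function on `List (X × Y)` is in the class `P`: every family obtained by inserting
continuous functions of `z` in the first components and continuous functions of `w` in the second
components is in `P`. -/
def InC (P : ∀ (Z W : Type) [TopologicalSpace Z] [TopologicalSpace W],
    (Z → W → ℝ) → Prop) (f : List (X × Y) → ℝ) : Prop :=
  ∀ (Z W : Type) [TopologicalSpace Z] [TopologicalSpace W] (l : List ((Z → X) × (W → Y))),
    (∀ e ∈ l, Continuous e.1 ∧ Continuous e.2) →
    P Z W fun z w => f (l.map fun e => (e.1 z, e.2 w))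

/-- The same for functions of two lists. -/
def InK (P : ∀ (Z W : Type) [TopologicalSpace Z] [TopologicalSpace W],
    (Z → W → ℝ) → Prop) (Φ : List X → List Y → ℝ) : Prop :=
  ∀ (Z W : Type) [TopologicalSpace Z] [TopologicalSpace W] (l : List (Z → X))
    (m : List (W → Y)), (∀ e ∈ l, Continuous e) → (∀ e ∈ m, Continuous e) →
    P Z W fun z w => Φ (l.map fun e => e z) (m.map fun e => e w)

/-- A family of functions on `List (X × Y)` with parameters `z`, `w` is in the class `P`. -/
def FC (P : ∀ (Z W : Type) [TopologicalSpace Z] [TopologicalSpace W],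
    (Z → W → ℝ) → Prop) {Z₀ W₀ : Type} [TopologicalSpace Z₀] [TopologicalSpace W₀]
    (F : Z₀ → W₀ → List (X × Y) → ℝ) : Prop :=
  ∀ (Z W : Type) [TopologicalSpace Z] [TopologicalSpace W] (p : Z → Z₀) (q : W → W₀),
    Continuous p → Continuous q → ∀ l : List ((Z → X) × (W → Y)),
    (∀ e ∈ l, Continuous e.1 ∧ Continuous e.2) →
    P Z W fun z w => F (p z) (q w) (l.map fun e => (e.1 z, e.2 w))

/-- The same for functions of two lists. -/
def FK (P : ∀ (Z W : Type) [TopologicalSpace Z] [TopologicalSpace W],
    (Z → W → ℝ) → Prop) {Z₀ W₀ : Type} [TopologicalSpace Z₀] [TopologicalSpace W₀]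
    (F : Z₀ → W₀ → List X → List Y → ℝ) : Prop :=
  ∀ (Z W : Type) [TopologicalSpace Z] [TopologicalSpace W] (p : Z → Z₀) (q : W → W₀),
    Continuous p → Continuous q → ∀ (l : List (Z → X)) (m : List (W → Y)),
    (∀ e ∈ l, Continuous e) → (∀ e ∈ m, Continuous e) →
    P Z W fun z w => F (p z) (q w) (l.map fun e => e z) (m.map fun e => e w)

/-- The class of the families `PU`. -/
def PUc (Z W : Type) [TopologicalSpace Z] [TopologicalSpace W] (F : Z → W → ℝ) : Prop := PU F

/-- The class of the jointly continuous families. -/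
def JCc (Z W : Type) [TopologicalSpace Z] [TopologicalSpace W] (F : Z → W → ℝ) : Prop :=
  Continuous fun p : Z × W => F p.1 p.2

end top

section grp

variable {H : Type} [Group H] [TopologicalSpace H]

/-- Bounded continuous invariant cochains with `k` points (degree `k - 1`). -/
structure Co (k : ℕ) (A : List H → ℝ) : Prop where
  cont : LC A
  bdd : ∃ M : ℝ, ∀ l, |A l| ≤ M
  inv : ∀ (g : H) l, A (l.map (g * ·)) = A l
  supp : ∀ l : List H, l.length ≠ k → A l = 0

/-- Bounded continuous invariant cocycles with `k` points (degree `k - 1`). -/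
def Cy (k : ℕ) (A : List H → ℝ) : Prop := Co k A ∧ ∀ l, dl A l = 0

/-- Continuous invariant cochains with `k` points, not necessarily bounded. -/
structure Uo (k : ℕ) (A : List H → ℝ) : Prop where
  cont : LC A
  inv : ∀ (g : H) l, A (l.map (g * ·)) = A l
  supp : ∀ l : List H, l.length ≠ k → A l = 0

variable {G : Type} [Group G] [TopologicalSpace G]

/-- Bounded cochains of the double complex, of total number of points `k` (total degree
`k - 2`). -/
structure Ko (k : ℕ) (Φ : List H → List G → ℝ) : Prop where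
  reg : InK PUc Φ
  inv : ∀ (h : H) (g : G) l m, Φ (l.map (h * ·)) (m.map (g * ·)) = Φ l m
  supp : ∀ (l : List H) (m : List G), l = [] ∨ m = [] ∨ l.length + m.length ≠ k → Φ l m = 0

/-- Continuous cochains of the double complex. -/
structure Vo (k : ℕ) (Φ : List H → List G → ℝ) : Prop where
  reg : InK JCc Φ
  inv : ∀ (h : H) (g : G) l m, Φ (l.map (h * ·)) (m.map (g * ·)) = Φ l m
  supp : ∀ (l : List H) (m : List G), l = [] ∨ m = [] ∨ l.length + m.length ≠ k → Φ l m = 0

/-- What is used of the group `G`: the bounded cohomology of `G` is trivial in degree `1` and in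
degrees `≥ 3`, and it is spanned by the class of `e` in degree `2`. -/
structure GData (G : Type) [Group G] [TopologicalSpace G] where
  e : List G → ℝ
  lam : (List G → ℝ) → ℝ
  he : Cy 3 e
  lam_lin : ∀ (φ ψ : List G → ℝ) (a b : ℝ), Cy 3 φ → Cy 3 ψ →
    lam (fun m => a * φ m + b * ψ m) = a * lam φ + b * lam ψ
  lam_bdd : ∀ (φ : List G → ℝ) (M : ℝ), Cy 3 φ → (∀ m, |φ m| ≤ M) → |lam φ| ≤ M
  lam_dl : ∀ ψ : List G → ℝ, Co 2 ψ → lam (dl ψ) = 0
  prim1 : ∀ φ : List G → ℝ, Cy 2 φ → ∀ m, φ m = 0
  prim2 : ∀ φ : List G → ℝ, Cy 3 φ → ∃ ψ, Co 2 ψ ∧ ∀ m, φ m = dl ψ m + lam φ * e m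
  prim : ∀ k, 3 ≤ k → ∀ φ : List G → ℝ, Cy (k + 1) φ → ∃ ψ, Co k ψ ∧ ∀ m, φ m = dl ψ m

/-- A smoothing operator on the group `H`. -/
structure Smt (T : (H → ℝ) → H → ℝ) : Prop where
  op : Mk H T
  equi : ∀ h₀ : H, ∀ ε > 0, ∀ᶠ h in 𝓝 h₀, ∀ φ : H → ℝ, Continuous φ → (∀ x, |φ x| ≤ 1) →
    |T φ h - T φ h₀| ≤ ε
  left : ∀ (φ : H → ℝ) (M : ℝ) (a h : H), Continuous φ → (∀ x, |φ x| ≤ M) →
    T (fun x => φ (a * x)) h = T φ (a * h)

end grp

end Pool.Agent.Helper87.BK
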