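import Mathlib

/-!
# Project BK: continuous selection (Bartle-Graves) (piece BK-FA)

`ContinuousLinearMap.exists_preimage_norm_le`: there is `C > 0` such that every `y` has a preimage `x`
with `‖x‖ ≤ C * ‖y‖`.
Step: for every `ε > 0` there is a continuous `t : F → E` with `‖d (t y) - y‖ < ε` and
`‖t y‖ < C * (‖y‖ + ε) + ε` for all `y`.  `exists_continuous_forall_mem_convex_of_local_const` with the
sets `{x | ‖d x - y‖ < ε ∧ ‖x‖ < C * (‖y‖ + ε) + ε}` (convex; `F` is paracompact and normal as a metric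
space); local constants: for `y₀` take a preimage `x₀` of `y₀` with `‖x₀‖ ≤ C * ‖y₀‖`; near `y₀`,
`‖d x₀ - y‖ = ‖y₀ - y‖ < ε` and `‖x₀‖ ≤ C * ‖y₀‖ < C * (‖y‖ + ε) + ε`.
Iteration: `r 0 y = y`, `u n y = t (2^-(n+1)) (r n y)`, `r (n+1) y = r n y - d (u n y)`; all are
continuous in `y`, `‖r (n+1) y‖ < 2^-(n+1)`, so for `n ≥ 1`
`‖u n y‖ ≤ C * (2^-n + 2^-(n+1)) + 2^-(n+1) ≤ (2 * C + 1) * 2^-n`, and `‖u 0 y‖ ≤ C * (‖y‖ + 1) + 1`.
`s y = ∑' n, u n y` is continuous (`continuous_tsum` applied to the terms `n ≥ 1`, plus the term `0`),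
`‖s y‖ ≤ C * (‖y‖ + 1) + 1 + 2 * (2 * C + 1)`, and `d (s y) = ∑ (r n y - r (n+1) y) = y`.
-/

namespace Pool.Agent.Helper87.BK

private theorem FA_step {E F : Type} [NormedAddCommGroup E] [NormedSpace ℝ E]
    [NormedAddCommGroup F] [NormedSpace ℝ F] (d : E →L[ℝ] F) (C : ℝ) (hC : 0 < C)
    (h : ∀ y, ∃ x, d x = y ∧ ‖x‖ ≤ C * ‖y‖) (ε : ℝ) (hε : 0 < ε) :
    ∃ t : C(F, E), ∀ y, ‖d (t y) - y‖ < ε ∧ ‖t y‖ < C * (‖y‖ + ε) + ε := by
  refine exists_continuous_forall_mem_convex_of_local_const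
    (t := fun y => {x : E | ‖d x - y‖ < ε ∧ ‖x‖ < C * (‖y‖ + ε) + ε}) ?_ ?_
  · intro y
    have h1 : Convex ℝ {x : E | ‖d x - y‖ < ε} := by
      have h2 : {x : E | ‖d x - y‖ < ε} = d ⁻¹' Metric.ball y ε := by
        ext x
        rw [Set.mem_preimage, mem_ball_iff_norm]
        rfl
      rw [h2]
      exact (convex_ball y ε).is_linear_preimage d.isLinear
    have h3 : Convex ℝ {x : E | ‖x‖ < C * (‖y‖ + ε) + ε} := by
      have h4 : {x : E | ‖x‖ < C * (‖y‖ + ε) + ε} = Metric.ball 0 (C * (‖y‖ + ε) + ε) := by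
        ext x
        rw [mem_ball_zero_iff]
        rfl
      rw [h4]
      exact convex_ball _ _
    exact h1.inter h3
  · intro y₀
    obtain ⟨x₀, hx₀, hx₀n⟩ := h y₀
    refine ⟨x₀, ?_⟩
    filter_upwards [Metric.ball_mem_nhds y₀ hε] with y hy
    rw [mem_ball_iff_norm] at hy
    refine ⟨?_, ?_⟩
    · show ‖d x₀ - y‖ < ε
      rw [hx₀, norm_sub_rev]
      exact hy
    · have h5 : ‖y₀‖ ≤ ‖y‖ + ε := by
        have h6 : ‖y₀‖ ≤ ‖y‖ + ‖y₀ - y‖ := norm_le_norm_add_norm_sub' y₀ y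
        rw [norm_sub_rev] at h6
        linarith
      have h7 : C * ‖y₀‖ ≤ C * (‖y‖ + ε) := mul_le_mul_of_nonneg_left h5 hC.le
      show ‖x₀‖ < C * (‖y‖ + ε) + ε
      linarith

private def FA_r {E F : Type} [NormedAddCommGroup E] [NormedSpace ℝ E]
    [NormedAddCommGroup F] [NormedSpace ℝ F] (d : E →L[ℝ] F) (t : ℕ → C(F, E)) : ℕ → F → F
  | 0 => fun y => y
  | n + 1 => fun y => FA_r d t n y - d (t n (FA_r d t n y))

theorem bartle_graves {E F : Type} [NormedAddCommGroup E] [NormedSpace ℝ E] [CompleteSpace E]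
    [NormedAddCommGroup F] [NormedSpace ℝ F] [CompleteSpace F] (d : E →L[ℝ] F)
    (hd : Function.Surjective d) :
    ∃ (s : F → E) (C : ℝ), 0 ≤ C ∧ Continuous s ∧ (∀ y, d (s y) = y) ∧
      ∀ y, ‖s y‖ ≤ C * (‖y‖ + 1) := by
  obtain ⟨C, hC, hpre⟩ := d.exists_preimage_norm_le hd
  have hstep : ∀ n : ℕ, ∃ t : C(F, E), ∀ y, ‖d (t y) - y‖ < (1 / 2 : ℝ) ^ (n + 1) ∧
      ‖t y‖ < C * (‖y‖ + (1 / 2 : ℝ) ^ (n + 1)) + (1 / 2 : ℝ) ^ (n + 1) := fun n =>
    FA_step d C hC hpre _ (by positivity)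
  choose t ht1 ht2 using hstep
  set r : ℕ → F → F := FA_r d t with hr
  have hr0 : ∀ y, r 0 y = y := fun y => rfl
  have hrs : ∀ n y, r (n + 1) y = r n y - d (t n (r n y)) := fun n y => rfl
  have hrc : ∀ n, Continuous (r n) := by
    intro n
    induction n with
    | zero => exact continuous_id
    | succ n ih =>
      have h1 : r (n + 1) = fun y => r n y - d (t n (r n y)) := funext (hrs n)
      rw [h1]
      exact ih.sub (d.continuous.comp ((t n).continuous.comp ih))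
  have hrn : ∀ n y, ‖r (n + 1) y‖ < (1 / 2 : ℝ) ^ (n + 1) := by
    intro n y
    rw [hrs, norm_sub_rev]
    exact ht1 n (r n y)
  have hun : ∀ n y, ‖t (n + 1) (r (n + 1) y)‖ ≤ (2 * C + 1) * (1 / 2 : ℝ) ^ (n + 1) := by
    intro n y
    have h1 := ht2 (n + 1) (r (n + 1) y)
    have h2 := hrn n y
    have h3 : (1 / 2 : ℝ) ^ (n + 1 + 1) = (1 / 2) * (1 / 2 : ℝ) ^ (n + 1) := by ring
    have h4 : (0 : ℝ) < (1 / 2 : ℝ) ^ (n + 1) := by positivity
    rw [h3] at h1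
    have h5 : C * (‖r (n + 1) y‖ + 1 / 2 * (1 / 2 : ℝ) ^ (n + 1)) ≤
        C * ((1 / 2 : ℝ) ^ (n + 1) + 1 / 2 * (1 / 2 : ℝ) ^ (n + 1)) :=
      mul_le_mul_of_nonneg_left (by linarith) hC.le
    nlinarith [mul_pos hC h4]
  have hgeo : HasSum (fun n : ℕ => (2 * C + 1) * (1 / 2 : ℝ) ^ (n + 1)) (2 * C + 1) := by
    have h1 := hasSum_geometric_two' ((2 * C + 1))
    have h2 : (fun n : ℕ => (2 * C + 1) / 2 / 2 ^ n) =
        fun n : ℕ => (2 * C + 1) * (1 / 2 : ℝ) ^ (n + 1) := by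
      funext n
      rw [one_div, inv_pow, pow_succ]
      field_simp
    rwa [h2] at h1
  have hsum : ∀ y, Summable fun n : ℕ => t (n + 1) (r (n + 1) y) := fun y =>
    Summable.of_norm_bounded hgeo.summable (fun n => hun n y)
  refine ⟨fun y => t 0 (r 0 y) + ∑' n : ℕ, t (n + 1) (r (n + 1) y), 3 * C + 2, by positivity,
    ?_, ?_, ?_⟩
  · refine ((t 0).continuous.comp (hrc 0)).add ?_
    exact continuous_tsum (fun n => (t (n + 1)).continuous.comp (hrc (n + 1))) hgeo.summable hun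
  · intro y
    have h1 : HasSum (fun n : ℕ => d (t (n + 1) (r (n + 1) y)))
        (d (∑' n : ℕ, t (n + 1) (r (n + 1) y))) := (hsum y).hasSum.mapL d
    have h2 : ∀ n, ∑ i ∈ Finset.range n, d (t (i + 1) (r (i + 1) y)) = r 1 y - r (n + 1) y := by
      intro n
      induction n with
      | zero => simp
      | succ n ih =>
        rw [Finset.sum_range_succ, ih, hrs (n + 1) y]
        abel
    have h3 : Filter.Tendsto (fun n => r (n + 1) y) Filter.atTop (nhds 0) := by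
      refine squeeze_zero_norm (fun n => (hrn n y).le) ?_
      have h4 := (tendsto_pow_atTop_nhds_zero_of_lt_one (r := (1 / 2 : ℝ)) (by norm_num)
        (by norm_num))
      exact h4.comp (Filter.tendsto_add_atTop_nat 1)
    have h5 : Filter.Tendsto (fun n => ∑ i ∈ Finset.range n, d (t (i + 1) (r (i + 1) y)))
        Filter.atTop (nhds (r 1 y - 0)) := by
      simp only [h2]
      exact tendsto_const_nhds.sub h3
    have h6 := tendsto_nhds_unique h1.tendsto_sum_nat h5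
    rw [map_add, h6, hrs 0 y, hr0 y]
    abel
  · intro y
    have h1 : ‖∑' n : ℕ, t (n + 1) (r (n + 1) y)‖ ≤ 2 * C + 1 :=
      tsum_of_norm_bounded hgeo (fun n => hun n y)
    have h2 := ht2 0 y
    have h3 : ‖t 0 (r 0 y) + ∑' n : ℕ, t (n + 1) (r (n + 1) y)‖ ≤
        ‖t 0 y‖ + ‖∑' n : ℕ, t (n + 1) (r (n + 1) y)‖ := norm_add_le _ _
    have h4 : 0 ≤ ‖y‖ := norm_nonneg y
    have h5 : 0 ≤ C * ‖y‖ := mul_nonneg hC.le h4
    norm_num at h2
    show ‖t 0 (r 0 y) + ∑' n : ℕ, t (n + 1) (r (n + 1) y)‖ ≤ (3 * C + 2) * (‖y‖ + 1)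
    nlinarith

end Pool.Agent.Helper87.BK
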