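import Pool.Agent.Helper87.BK.Param
import Pool.Agent.Helper87.BK.Sel

/-!
# Project BK: the cochains of high degree in `G` (piece BK-CHASE1)

`chase_step`: let `p = n + 2 - (k + 1)`; if `p = 0` or `n + 2 < k + 1` then `Φ l m = 0` for
`m.length = k + 1` too (support), take `Ψ = 0`.  Let `Φ₁ l m = Φ l m` if `m.length = k + 1`, `0`
otherwise (`Ko_cut`); it is supported on `l.length = p`.  `dl (Φ₁ l) m = 0`: only for `m.length = k + 2`
and `l.length = p` there is something to prove; `DD Φ l m = 0`, and in `DD_of_ne` the first sum is zero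
because `Φ a m = 0` for `m.length = k + 2`.  Apply `exists_sel` with `lam = 0` (`hex` is `D.prim k`), then
`sel_param`, to get `Ψ₁` with `Φ₁ l m = dl (Ψ₁ l) m`, supported on `l.length = p`, `m.length = k`.
`Ψ l m = (-1)^(p+1) * Ψ₁ l m` is `Ko (n + 1)`.  For `m.length = k + 1`: `DD Ψ l m =
(-1)^(|l|+1) dl (Ψ l) m` (first sum zero), which is `Φ₁ l m` if `|l| = p` and `0` otherwise; for
`m.length > k + 1` everything is zero.
`chase_top`: for `j = 0, 1, ..` (induction on `d` with `k = n + 2 - d`, downward from `k ≥ n + 1`, where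
the claim is trivial by the support, to `k = 3`) there is `Ψ` with `Ko (n + 1) Ψ` and
`Φ l m = DD Ψ l m` for `k < m.length`: apply `chase_step` to `Φ - DD Ψ` (`Ko.sub`, `Ko.DD`, `DD_DD`).
-/

open scoped Topology

namespace Pool.Agent.Helper87.BK
open Pool.Agent.Helper11.BC (dl)
open Pool.Agent.Helper87.BCR

variable {H G : Type} [Group H] [TopologicalSpace H] [Group G] [TopologicalSpace G]
  [IsTopologicalGroup G]

private theorem dl_zero' {X : Type} (l : List X) : dl (fun _ : List X => (0 : ℝ)) l = 0 := by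
  have h := dl_smul (0 : ℝ) (fun _ : List X => (0 : ℝ)) l
  simpa using h

private theorem dl_zero_of {X : Type} (Φ : List X → ℝ) (l : List X)
    (h : ∀ t : List X, t.length + 1 = l.length → Φ t = 0) : dl Φ l = 0 := by
  rw [dl_congr Φ (fun _ => 0) l h, dl_zero']

private theorem DD_zero' {X Y : Type} (l : List X) (m : List Y) :
    DD (fun _ _ => (0 : ℝ)) l m = 0 := by
  have h := DD_smul (0 : ℝ) (fun (_ : List X) (_ : List Y) => (0 : ℝ)) l m
  simpa using h

private theorem Ko_zero' {H G : Type} [Group H] [TopologicalSpace H] [Group G]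
    [TopologicalSpace G] (k : ℕ) : Ko k (fun (_ : List H) (_ : List G) => (0 : ℝ)) where
  reg := fun Z W _ _ _ _ _ _ => cls_PU.zero Z W
  inv := fun _ _ _ _ => rfl
  supp := fun _ _ _ => rfl

theorem chase_step (D : GData G) {n k : ℕ} (hk : 3 ≤ k) (Φ : List H → List G → ℝ)
    (hΦ : Ko (n + 2) Φ) (hD : ∀ l m, DD Φ l m = 0) (htop : ∀ l m, k + 1 < m.length → Φ l m = 0) :
    ∃ Ψ : List H → List G → ℝ, Ko (n + 1) Ψ ∧ ∀ l m, k < m.length → Φ l m = DD Ψ l m := by
  rcases Nat.lt_or_ge (k + 1) (n + 2) with hkn | hkn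
  · obtain ⟨p, hp⟩ : ∃ p, p + k = n + 1 := ⟨n + 1 - k, by omega⟩
    have hp1 : 1 ≤ p := by omega
    set Φ₁ : List H → List G → ℝ := fun l m => if m.length = k + 1 then Φ l m else 0 with hΦ₁
    have hK₁ : Ko (n + 2) Φ₁ := Ko_cut hΦ (k + 1)
    have hsupp : ∀ (l : List H) (m : List G), l.length ≠ p ∨ m.length ≠ k + 1 → Φ₁ l m = 0 := by
      intro l m h
      by_cases hm : m.length = k + 1
      · have hl : l.length ≠ p := by
          rcases h with h | h
          · exact h
          · exact absurd hm h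
        exact hK₁.supp l m (Or.inr (Or.inr (by omega)))
      · simp only [hΦ₁]
        rw [if_neg hm]
    have hcoc : ∀ l m, dl (Φ₁ l) m = 0 := by
      intro l m
      by_cases hm : m.length = k + 2
      · by_cases hl : l = []
        · exact dl_zero_of _ _ fun t _ => hK₁.supp l t (Or.inl hl)
        · have hm0 : m ≠ [] := by
            rintro rfl
            simp at hm
          have h1 := hD l m
          rw [DD_of_ne Φ hl hm0] at h1
          have h2 : dl (fun a => Φ a m) l = 0 :=
            dl_zero_of _ _ fun t _ => htop t m (by omega)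
          rw [h2, zero_add] at h1
          have h3 : dl (Φ l) m = 0 := by
            rcases mul_eq_zero.mp h1 with h | h
            · exact absurd h (pow_ne_zero _ (by norm_num))
            · exact h
          rw [dl_congr (Φ₁ l) (Φ l) m, h3]
          intro t ht
          simp only [hΦ₁]
          rw [if_pos (by omega)]
      · exact dl_zero_of _ _ fun t ht => hsupp l t (Or.inr (by omega))
    obtain ⟨s, C, hC, hs⟩ := exists_sel (G := G) k (fun _ => 0)
      (fun φ ψ a b _ _ => by simp)
      (fun φ M _ hM => by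
        rw [abs_zero]
        exact le_trans (abs_nonneg _) (hM []))
      (fun _ _ => rfl)
      (fun φ hφ _ => D.prim k hk φ hφ)
    obtain ⟨Ψ₁, hreg, hinv, hsup, hdl⟩ := sel_param (H := H) k p (fun _ => 0) s C hC hs Φ₁ hK₁.reg
      hK₁.inv hsupp hcoc (fun _ => rfl)
    have hΨ0 : ∀ l m, m.length ≠ k → (-1 : ℝ) ^ (p + 1) * Ψ₁ l m = 0 := by
      intro l m hm
      rw [hsup l m (Or.inr hm), mul_zero]
    refine ⟨fun l m => (-1) ^ (p + 1) * Ψ₁ l m, ?_, ?_⟩
    · refine ⟨fun Z W _ _ l m hl hm => cls_PU.smul Z W _ _ (hreg Z W l m hl hm), ?_, ?_⟩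
      · intro h g l m
        simp only [hinv]
      · intro l m h
        have : l.length ≠ p ∨ m.length ≠ k := by
          rcases h with rfl | rfl | h
          · left
            simp only [List.length_nil]
            omega
          · right
            simp only [List.length_nil]
            omega
          · by_contra hcon
            push Not at hcon
            omega
        simp only [hsup l m this, mul_zero]
    · intro l m hm
      have hm0 : m ≠ [] := by
        rintro rfl
        simp at hm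
      have hΦΦ₁ : Φ l m = Φ₁ l m := by
        by_cases hmk : m.length = k + 1
        · simp only [hΦ₁]
          rw [if_pos hmk]
        · rw [htop l m (by omega), hsupp l m (Or.inr hmk)]
      by_cases hl : l = []
      · subst hl
        rw [hΦ.supp [] m (Or.inl rfl)]
        unfold DD
        rw [if_pos (Or.inl rfl)]
      · rw [DD_of_ne _ hl hm0, hΦΦ₁]
        have h1 : dl (fun a => (-1 : ℝ) ^ (p + 1) * Ψ₁ a m) l = 0 :=
          dl_zero_of _ _ fun t _ => hΨ0 t m (by omega)
        have h2 : dl (fun t => (-1 : ℝ) ^ (p + 1) * Ψ₁ l t) m = (-1) ^ (p + 1) * Φ₁ l m := by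
          rw [dl_smul, hdl]
        rw [h1, h2, zero_add]
        by_cases hlp : l.length = p
        · rw [hlp, ← mul_assoc, ← mul_pow]
          norm_num
        · rw [hsupp l m (Or.inl hlp)]
          simp
  · refine ⟨fun _ _ => 0, Ko_zero' _, ?_⟩
    intro l m hm
    rw [DD_zero']
    by_cases hmk : k + 1 < m.length
    · exact htop l m hmk
    · by_cases hl : l = []
      · exact hΦ.supp l m (Or.inl hl)
      · have : 0 < l.length := List.length_pos_iff.mpr hl
        exact hΦ.supp l m (Or.inr (Or.inr (by omega)))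

private theorem chase_aux (D : GData G) {n : ℕ} (Φ : List H → List G → ℝ)
    (hΦ : Ko (n + 2) Φ) (hD : ∀ l m, DD Φ l m = 0) (d : ℕ) :
    ∀ k, n + 1 ≤ k + d → 3 ≤ k →
      ∃ Ψ : List H → List G → ℝ, Ko (n + 1) Ψ ∧ ∀ l m, k < m.length → Φ l m = DD Ψ l m := by
  induction d with
  | zero =>
    intro k hk _
    refine ⟨fun _ _ => 0, Ko_zero' _, ?_⟩
    intro l m hm
    rw [DD_zero']
    by_cases hl : l = []
    · exact hΦ.supp l m (Or.inl hl)
    · have : 0 < l.length := List.length_pos_iff.mpr hl
      exact hΦ.supp l m (Or.inr (Or.inr (by omega)))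
  | succ d ih =>
    intro k hk hk3
    obtain ⟨Ψ, hΨ, hΦΨ⟩ := ih (k + 1) (by omega) (by omega)
    have hK : Ko (n + 2) (fun a b => Φ a b - DD Ψ a b) := hΦ.sub hΨ.DD
    have hlin : ∀ (Ψ' : List H → List G → ℝ) l m,
        DD (fun a b => Φ a b - Ψ' a b) l m = DD Φ l m - DD Ψ' l m := by
      intro Ψ' l m
      have h := DD_add Φ (fun a b => (-1) * Ψ' a b) l m
      rw [DD_smul] at h
      have h2 : (fun a b => Φ a b - Ψ' a b) = fun a b => Φ a b + (-1) * Ψ' a b := by
        funext a b
        ring
      rw [h2, h]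
      ring
    have hDK : ∀ l m, DD (fun a b => Φ a b - DD Ψ a b) l m = 0 := by
      intro l m
      rw [hlin, hD, DD_DD Ψ (fun m => hΨ.supp [] m (Or.inl rfl))
        (fun l => hΨ.supp l [] (Or.inr (Or.inl rfl))), sub_zero]
    obtain ⟨Ψ', hΨ', hΦΨ'⟩ := chase_step D hk3 _ hK hDK (fun l m hm => by
      rw [hΦΨ l m hm, sub_self])
    refine ⟨fun a b => Ψ a b - (-1) * Ψ' a b, hΨ.sub (hΨ'.smul (-1)), ?_⟩
    intro l m hm
    have h1 := hΦΨ' l m hm
    have h2 : DD (fun a b => Ψ a b - (-1) * Ψ' a b) l m = DD Ψ l m + DD Ψ' l m := by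
      rw [← DD_add]
      congr 1
      funext a b
      ring
    rw [h2]
    linarith

theorem chase_top (D : GData G) {n : ℕ} (Φ : List H → List G → ℝ)
    (hΦ : Ko (n + 2) Φ) (hD : ∀ l m, DD Φ l m = 0) :
    ∃ Ψ : List H → List G → ℝ, Ko (n + 1) Ψ ∧ ∀ l m, 3 < m.length → Φ l m = DD Ψ l m :=
  chase_aux D Φ hΦ hD (n + 1) 3 (by omega) le_rfl

end Pool.Agent.Helper87.BK
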