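import Pool.Agent.Helper87.BK.Param
import Pool.Agent.Helper87.BK.Sel

/-!
# Project BK: the part of degree two in `G` (piece BK-CHASE2)

Let `Φ₃ l m = Φ l m` if `m.length = 3`, `0` otherwise (`Ko_cut`), `p = n - 1` (`n + 2 = p + 3` if
`1 ≤ n`; for `n = 0`, `Φ₃ = 0`, take everything `0`; for `n = 1`, `p = 0`, `Φ₃ = 0` by the support).
* For every `l`, `Φ₃ l` is in `Cy 3`: `Ko_row`; `dl (Φ₃ l) m = 0` for `m.length = 4` because
  `DD Φ l m = 0` and the first sum in `DD_of_ne` vanishes (`Φ a m = 0` for `m.length = 4`).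
* `μ₂ l = D.lam (Φ₃ l)`.  It is `Cy (n - 1)`: support: `Φ₃ l = 0` for `l.length ≠ p`, and `lam 0 = 0`
  (`lam_bdd` with `M = 0`); bounded and continuous: `lam_lin`, `lam_bdd`:
  `|μ₂ l - μ₂ l'| = |lam (Φ₃ l - Φ₃ l')| ≤ sup_m |Φ₃ l m - Φ₃ l' m|`, and `InK PUc` with
  `Z = (Fin p → H)`, `W = (Fin 3 → G)` gives that this sup is small if the entries of `l'` are near those
  of `l` (`LC μ₂`), and the bound; invariance: `Φ₃ (l.map (h * ·)) = Φ₃ l`.
  Cocycle: for `l.length = p + 1` and `m.length = 3`: `dl (fun a => Φ a m) l = -(-1)^(|l|+1) dl (Φ l) m`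
  (`DD Φ l m = 0`), so, by linearity of `lam` (finite sums), `dl μ₂ l = lam (fun m => dl (fun a => Φ₃ a m) l)
  = -(-1)^(|l|+1) lam (dl (Φ₂ l)) = 0` with `Φ₂ l m = Φ l m` for `m.length = 2`, `0` otherwise, in `Co 2`,
  by `lam_dl` (two functions which agree everywhere; check the lists of length `≠ 3`: both are `0`).
  For `l.length ≠ p + 1` use the support (for `l = []` the sum is empty).
* `Φ₄ l m = Φ₃ l m - μ₂ l * D.e m` satisfies the hypotheses of `sel_param` (`k = 2`, `lam = D.lam`,
  `exists_sel` with `hex` from `D.prim2`: if `lam φ = 0` then `φ = dl ψ`); `lam (Φ₄ l) = μ₂ l - μ₂ l *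
  lam e`.  Here one needs `μ₂ l * (1 - lam e) = 0`, that is `lam φ * lam e = lam φ` for every `φ` in
  `Cy 3`: from `prim2`, `lam φ = lam (dl ψ) + lam φ * lam e = lam φ * lam e`.
* `Ψ l m = (-1)^(p+1) * Ψ₁ l m`, with `Ψ₁` from `sel_param`; as in `Chase1.lean`, for `m.length = 3`
  `DD Ψ l m = Φ₄ l m`; for `m.length > 3` everything is zero.
-/

open scoped Topology

namespace Pool.Agent.Helper87.BK
open Pool.Agent.Helper11.BC (dl)
open Pool.Agent.Helper87.BCR

variable {H G : Type} [Group H] [TopologicalSpace H] [Group G] [TopologicalSpace G]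
  [IsTopologicalGroup G]

private theorem dl_zero_of {X : Type} (φ : List X → ℝ) (l : List X)
    (h : ∀ t : List X, t.length + 1 = l.length → φ t = 0) : dl φ l = 0 := by
  rw [dl_congr φ (fun _ => 0) l h]
  simp [dl]

omit [IsTopologicalGroup G] in
private theorem Co_lin {k : ℕ} {φ ψ : List G → ℝ} (a b : ℝ) (hφ : Co k φ) (hψ : Co k ψ) :
    Co k (fun m => a * φ m + b * ψ m) := by
  refine ⟨fun r => ?_, ?_, fun g l => ?_, fun l hl => ?_⟩
  · exact (continuous_const.mul (hφ.cont r)).add (continuous_const.mul (hψ.cont r))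
  · obtain ⟨M, hM⟩ := hφ.bdd
    obtain ⟨N, hN⟩ := hψ.bdd
    refine ⟨|a| * M + |b| * N, fun l => ?_⟩
    calc |a * φ l + b * ψ l| ≤ |a * φ l| + |b * ψ l| := abs_add_le _ _
      _ = |a| * |φ l| + |b| * |ψ l| := by rw [abs_mul, abs_mul]
      _ ≤ |a| * M + |b| * N := add_le_add
          (mul_le_mul_of_nonneg_left (hM l) (abs_nonneg _))
          (mul_le_mul_of_nonneg_left (hN l) (abs_nonneg _))
  · show a * φ (l.map (g * ·)) + b * ψ (l.map (g * ·)) = a * φ l + b * ψ l
    rw [hφ.inv, hψ.inv]
  · show a * φ l + b * ψ l = 0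
    rw [hφ.supp l hl, hψ.supp l hl]
    ring

omit [IsTopologicalGroup G] in
private theorem Cy_lin {k : ℕ} {φ ψ : List G → ℝ} (a b : ℝ) (hφ : Cy k φ) (hψ : Cy k ψ) :
    Cy k (fun m => a * φ m + b * ψ m) := by
  refine ⟨Co_lin a b hφ.1 hψ.1, fun l => ?_⟩
  rw [dl_add (fun m => a * φ m) (fun m => b * ψ m) l, dl_smul, dl_smul, hφ.2, hψ.2]
  ring

omit [IsTopologicalGroup G] in
private theorem Cy_zero (k : ℕ) : Cy k (fun _ : List G => (0 : ℝ)) := by
  refine ⟨⟨fun r => continuous_const, ⟨0, fun l => by simp⟩, fun g l => rfl, fun l hl => rfl⟩,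
    fun l => by simp [dl]⟩

private theorem lam_zero (D : GData G) : D.lam (fun _ => 0) = 0 := by
  have h := D.lam_bdd (fun _ => 0) 0 (Cy_zero 3) (fun m => by simp)
  exact abs_nonpos_iff.1 h

private theorem lam_sum (D : GData G) {ι : Type} (s : Finset ι) (c : ι → ℝ)
    (φ : ι → List G → ℝ) (hφ : ∀ i, Cy 3 (φ i)) :
    Cy 3 (fun m => ∑ i ∈ s, c i * φ i m) ∧
      D.lam (fun m => ∑ i ∈ s, c i * φ i m) = ∑ i ∈ s, c i * D.lam (φ i) := by
  classical
  induction s using Finset.induction_on with
  | empty =>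
    simp only [Finset.sum_empty]
    exact ⟨Cy_zero 3, lam_zero D⟩
  | insert a s ha ih =>
    have h1 : (fun m => ∑ i ∈ insert a s, c i * φ i m) =
        fun m => c a * φ a m + 1 * (∑ i ∈ s, c i * φ i m) := by
      funext m
      rw [Finset.sum_insert ha, one_mul]
    rw [h1]
    refine ⟨Cy_lin _ _ (hφ a) ih.1, ?_⟩
    rw [D.lam_lin _ _ _ _ (hφ a) ih.1, ih.2, Finset.sum_insert ha, one_mul]

theorem lam_lam (D : GData G) (φ : List G → ℝ) (hφ : Cy 3 φ) :
    D.lam φ * D.lam D.e = D.lam φ := by
  obtain ⟨ψ, hψ, h⟩ := D.prim2 φ hφ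
  have h1 : dl ψ = fun m => 1 * φ m + (-D.lam φ) * D.e m := by
    funext m
    rw [h m]
    ring
  have h2 : Cy 3 (dl ψ) := by
    rw [h1]
    exact Cy_lin _ _ hφ D.he
  have h3 := D.lam_dl ψ hψ
  rw [h1, D.lam_lin _ _ _ _ hφ D.he] at h3
  linarith

private theorem Chase2_ofFn {X : Type} {k : ℕ} (l : List X) (h : l.length = k) :
    List.ofFn (fun i : Fin k => l.get (i.cast h.symm)) = l := by
  subst h
  exact List.ofFn_get l

theorem chase_two (D : GData G) {n : ℕ} (Φ : List H → List G → ℝ)
    (hΦ : Ko (n + 2) Φ) (hD : ∀ l m, DD Φ l m = 0) (htop : ∀ l m, 3 < m.length → Φ l m = 0) :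
    ∃ (Ψ : List H → List G → ℝ) (μ₂ : List H → ℝ), Ko (n + 1) Ψ ∧ Cy (n - 1) μ₂ ∧ μ₂ [] = 0 ∧
      ∀ l m, 2 < m.length → Φ l m = DD Ψ l m + μ₂ l * D.e m := by
  classical
  by_cases hn : n < 2
  · -- everything of degree two vanishes
    refine ⟨fun _ _ => 0, fun _ => 0, ?_, Cy_zero _, rfl, fun l m hm => ?_⟩
    · refine ⟨fun Z W _ _ l m _ _ => cls_PU.zero Z W, fun _ _ _ _ => rfl, fun _ _ _ => rfl⟩
    · have h1 : Φ l m = 0 := by
        by_cases h3 : 3 < m.length
        · exact htop l m h3
        · refine hΦ.supp l m ?_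
          by_cases hl : l = []
          · exact Or.inl hl
          · right; right
            have := List.length_pos_iff.2 hl
            omega
      have h2 : DD (fun (_ : List H) (_ : List G) => (0 : ℝ)) l m = 0 := by
        unfold DD
        split_ifs
        · rfl
        · rw [dl_zero_of _ _ (fun _ _ => rfl), dl_zero_of _ _ (fun _ _ => rfl)]
          ring
      rw [h1, h2]
      ring
  · obtain ⟨q, rfl⟩ : ∃ q, n = q + 2 := ⟨n - 2, by omega⟩
    have hq : q + 2 - 1 = q + 1 := by omega
    rw [hq]
    obtain ⟨Φ₃, hΦ₃⟩ : ∃ Φ₃ : List H → List G → ℝ,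
      Φ₃ = fun l m => if m.length = 3 then Φ l m else 0 := ⟨_, rfl⟩
    have e3 : ∀ l m, m.length = 3 → Φ₃ l m = Φ l m := by
      intro l m hm
      rw [hΦ₃]
      exact if_pos hm
    have z3 : ∀ l m, m.length ≠ 3 → Φ₃ l m = 0 := by
      intro l m hm
      rw [hΦ₃]
      exact if_neg hm
    have K3 : Ko (q + 2 + 2) Φ₃ := by
      rw [hΦ₃]
      exact Ko_cut hΦ 3
    -- support in the first list
    have s3 : ∀ l m, l.length ≠ q + 1 → Φ₃ l m = 0 := by
      intro l m hl
      by_cases hm : m.length = 3
      · refine K3.supp l m (Or.inr (Or.inr ?_))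
        omega
      · exact z3 l m hm
    have s3' : ∀ l, l.length ≠ q + 1 → Φ₃ l = fun _ => 0 := by
      intro l hl
      funext m
      exact s3 l m hl
    -- the rows are cocycles
    have C3 : ∀ l, Cy 3 (Φ₃ l) := by
      intro l
      refine ⟨Ko_row K3 z3 l, fun m => ?_⟩
      by_cases hm : m.length = 4
      · by_cases hl : l = []
        · refine dl_zero_of _ _ fun t _ => K3.supp l t (Or.inl hl)
        · have hm' : m ≠ [] := by
            rintro rfl
            simp at hm
          have h := hD l m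
          rw [DD_of_ne Φ hl hm', dl_zero_of (fun a => Φ a m) l
            (fun t _ => htop t m (by omega)), zero_add] at h
          have h1 : dl (Φ l) m = 0 := by
            rcases mul_eq_zero.1 h with h2 | h2
            · exact absurd h2 (pow_ne_zero _ (by norm_num))
            · exact h2
          rw [dl_congr (Φ₃ l) (Φ l) m (fun t ht => e3 l t (by omega)), h1]
      · refine dl_zero_of _ _ fun t ht => z3 l t (by omega)
    -- the class
    obtain ⟨μ, hμ⟩ : ∃ μ : List H → ℝ, μ = fun l => D.lam (Φ₃ l) := ⟨_, rfl⟩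
    have eμ : ∀ l, μ l = D.lam (Φ₃ l) := fun l => by rw [hμ]
    have zμ : ∀ l, l.length ≠ q + 1 → μ l = 0 := by
      intro l hl
      rw [eμ, s3' l hl, lam_zero]
    -- the family on the lists of length q + 1 and 3
    have hPU : PU (fun (z : Fin (q + 1) → H) (w : Fin 3 → G) =>
        Φ₃ (List.ofFn z) (List.ofFn w)) := by
      have h := K3.reg (Fin (q + 1) → H) (Fin 3 → G) (List.ofFn fun i z => z i)
        (List.ofFn fun i w => w i)
        (fun e he => by
          obtain ⟨i, rfl⟩ := (List.mem_ofFn' _ _).1 he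
          exact continuous_apply i)
        (fun e he => by
          obtain ⟨i, rfl⟩ := (List.mem_ofFn' _ _).1 he
          exact continuous_apply i)
      have h' : (fun (z : Fin (q + 1) → H) (w : Fin 3 → G) =>
          Φ₃ ((List.ofFn fun i (z : Fin (q + 1) → H) => z i).map fun e => e z)
            ((List.ofFn fun i (w : Fin 3 → G) => w i).map fun e => e w)) =
          fun (z : Fin (q + 1) → H) (w : Fin 3 → G) => Φ₃ (List.ofFn z) (List.ofFn w) := by
        funext z w
        rw [List.map_ofFn, List.map_ofFn]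
        rfl
      rw [h'] at h
      exact h
    have hBd : ∃ M : ℝ, ∀ l m, |Φ₃ l m| ≤ M := by
      obtain ⟨M, hM⟩ := hPU.1
      refine ⟨max M 0, fun l m => ?_⟩
      by_cases hl : l.length = q + 1
      · by_cases hm : m.length = 3
        · have h := hM (fun i => l.get (i.cast hl.symm)) (fun i => m.get (i.cast hm.symm))
          have e1 : List.ofFn (fun i : Fin (q + 1) => l.get (i.cast hl.symm)) = l :=
            Chase2_ofFn l hl
          have e2 : List.ofFn (fun i : Fin 3 => m.get (i.cast hm.symm)) = m :=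
            Chase2_ofFn m hm
          change |Φ₃ (List.ofFn _) (List.ofFn _)| ≤ M at h
          rw [e1, e2] at h
          exact h.trans (le_max_left _ _)
        · rw [z3 l m hm, abs_zero]
          exact le_max_right _ _
      · rw [s3 l m hl, abs_zero]
        exact le_max_right _ _
    have Cμ : Co (q + 1) μ := by
      refine ⟨fun k => ?_, ?_, fun h l => ?_, fun l hl => zμ l hl⟩
      · by_cases hk : k = q + 1
        · subst hk
          rw [Metric.continuous_iff']
          intro z₀ ε hε
          have h := hPU.2.2 z₀ (ε / 2) (half_pos hε)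
          filter_upwards [h] with z hz
          rw [Real.dist_eq, eμ, eμ]
          have h1 : D.lam (Φ₃ (List.ofFn z)) - D.lam (Φ₃ (List.ofFn z₀)) =
              D.lam (fun m => 1 * Φ₃ (List.ofFn z) m + (-1) * Φ₃ (List.ofFn z₀) m) := by
            rw [D.lam_lin _ _ _ _ (C3 _) (C3 _)]
            ring
          rw [h1]
          refine lt_of_le_of_lt (D.lam_bdd _ (ε / 2) (Cy_lin _ _ (C3 _) (C3 _)) fun m => ?_)
            (half_lt_self hε)
          by_cases hm : m.length = 3
          · have h2 := hz (fun i => m.get (i.cast hm.symm))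
            have e2 : List.ofFn (fun i : Fin 3 => m.get (i.cast hm.symm)) = m :=
              Chase2_ofFn m hm
            rw [e2] at h2
            have h3 : 1 * Φ₃ (List.ofFn z) m + (-1) * Φ₃ (List.ofFn z₀) m =
                Φ₃ (List.ofFn z) m - Φ₃ (List.ofFn z₀) m := by ring
            rw [h3]
            exact h2
          · rw [z3 _ m hm, z3 _ m hm, mul_zero, mul_zero, add_zero, abs_zero]
            exact (half_pos hε).le
        · have h1 : (fun v : Fin k → H => μ (List.ofFn v)) = fun _ => 0 := by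
            funext v
            exact zμ _ (by rw [List.length_ofFn]; exact hk)
          rw [h1]
          exact continuous_const
      · obtain ⟨M, hM⟩ := hBd
        refine ⟨M, fun l => ?_⟩
        rw [eμ]
        exact D.lam_bdd _ M (C3 l) (hM l)
      · rw [eμ, eμ]
        congr 1
        funext m
        have h1 := K3.inv h 1 l m
        have h2 : m.map (fun x => (1 : G) * x) = m := by
          simp
        rw [h2] at h1
        exact h1
    have Dμ : ∀ l, dl μ l = 0 := by
      intro l
      by_cases hl : l.length = q + 2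
      · have hl' : l ≠ [] := by
          rintro rfl
          simp at hl
        have K2 := Ko_cut hΦ 2
        have C2 : Co 2 (fun m : List G => if m.length = 2 then Φ l m else 0) :=
          Ko_row K2 (fun l m hm => if_neg hm) l
        have h1 : dl μ l = D.lam (fun m => ∑ i ∈ Finset.range l.length,
            (-1 : ℝ) ^ i * Φ₃ (l.eraseIdx i) m) := by
          rw [(lam_sum D (Finset.range l.length) (fun i => (-1 : ℝ) ^ i)
            (fun i => Φ₃ (l.eraseIdx i)) (fun i => C3 _)).2]
          unfold dl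
          refine Finset.sum_congr rfl fun i _ => ?_
          rw [smul_eq_mul, eμ]
        have h2 : (fun m => ∑ i ∈ Finset.range l.length,
            (-1 : ℝ) ^ i * Φ₃ (l.eraseIdx i) m) =
            dl (fun m : List G => -(-1) ^ (l.length + 1) *
              (if m.length = 2 then Φ l m else 0)) := by
          funext m
          rw [dl_smul]
          by_cases hm : m.length = 3
          · have hm' : m ≠ [] := by
              rintro rfl
              simp at hm
            have h := hD l m
            rw [DD_of_ne Φ hl' hm'] at h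
            rw [dl_congr (fun m : List G => if m.length = 2 then Φ l m else 0) (Φ l) m
              (fun t ht => if_pos (by omega))]
            have h3 : (∑ i ∈ Finset.range l.length, (-1 : ℝ) ^ i * Φ₃ (l.eraseIdx i) m) =
                dl (fun a => Φ a m) l := by
              unfold dl
              refine Finset.sum_congr rfl fun i _ => ?_
              rw [smul_eq_mul, e3 _ m hm]
            rw [h3]
            linarith
          · rw [dl_zero_of (fun m : List G => if m.length = 2 then Φ l m else 0) m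
              (fun t ht => if_neg (by omega)), mul_zero]
            refine Finset.sum_eq_zero fun i _ => ?_
            rw [z3 _ m hm, mul_zero]
        rw [h1, h2]
        refine D.lam_dl _ ?_
        have h4 := Co_lin (-(-1) ^ (l.length + 1)) 0 C2 C2
        simpa using h4
      · refine dl_zero_of _ _ fun t ht => zμ t (by omega)
    have μ0 : μ [] = 0 := zμ [] (by simp)
    -- the corrected rows
    have K4 : Ko (q + 2 + 2) (fun l m => Φ₃ l m - μ l * D.e m) := by
      have h := K3.sub (Ko_mul Cμ μ0 (j := 2) D.he.1 : Ko (q + 1 + (2 + 1)) _)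
      exact h
    have C4 : ∀ l, Cy 3 (fun m => 1 * Φ₃ l m + (-μ l) * D.e m) := fun l =>
      Cy_lin _ _ (C3 l) D.he
    have r4 : ∀ l, (fun m => Φ₃ l m - μ l * D.e m) =
        fun m => 1 * Φ₃ l m + (-μ l) * D.e m := by
      intro l
      funext m
      ring
    obtain ⟨s, C, hC, hs⟩ := exists_sel 2 D.lam D.lam_lin D.lam_bdd D.lam_dl (by
      intro φ hφ hl
      obtain ⟨ψ, hψ, h⟩ := D.prim2 φ hφ
      refine ⟨ψ, hψ, fun m => ?_⟩
      rw [h m, hl]
      ring)
    obtain ⟨Ψ, hΨr, hΨi, hΨs, hΨ⟩ := sel_param 2 (q + 1) D.lam s C hC hs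
      (fun l m => Φ₃ l m - μ l * D.e m) K4.reg K4.inv
      (by
        intro l m h
        show Φ₃ l m - μ l * D.e m = 0
        rcases h with h | h
        · rw [s3 l m h, zμ l h]
          ring
        · rw [z3 l m h, D.he.1.supp m h]
          ring)
      (by
        intro l m
        show dl (fun m => Φ₃ l m - μ l * D.e m) m = 0
        rw [r4]
        exact (C4 l).2 m)
      (by
        intro l
        show D.lam (fun m => Φ₃ l m - μ l * D.e m) = 0
        rw [r4, D.lam_lin _ _ _ _ (C3 l) D.he]
        have h := lam_lam D (Φ₃ l) (C3 l)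
        rw [← eμ] at h ⊢
        linarith)
    have KΨ : Ko (q + 2 + 1) Ψ := by
      refine ⟨hΨr, hΨi, fun l m h => hΨs l m ?_⟩
      by_contra h'
      push Not at h'
      rcases h with h | h | h
      · rw [h] at h'
        simp at h'
      · rw [h] at h'
        simp at h'
      · omega
    refine ⟨fun l m => (-1) ^ (q + 1 + 1) * Ψ l m, μ, KΨ.smul _, ⟨Cμ, Dμ⟩, μ0,
      fun l m hm => ?_⟩
    have d1 : m.length ≠ 2 := by omega
    have d2 : DD (fun l m => (-1) ^ (q + 1 + 1) * Ψ l m) l m =
        if m.length = 3 then dl (Ψ l) m else 0 := by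
      rw [DD_smul]
      by_cases hl : l = []
      · have h1 : dl (Ψ l) m = 0 := dl_zero_of _ _ fun t _ => KΨ.supp l t (Or.inl hl)
        rw [h1, ite_self]
        unfold DD
        rw [if_pos (Or.inl hl), mul_zero]
      · have hm' : m ≠ [] := by
          rintro rfl
          simp at hm
        rw [DD_of_ne Ψ hl hm', dl_zero_of (fun a => Ψ a m) l
          (fun t _ => hΨs t m (Or.inr d1)), zero_add]
        by_cases h3 : m.length = 3
        · rw [if_pos h3]
          by_cases h4 : l.length = q + 1
          · rw [h4, ← mul_assoc, ← pow_add]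
            have h5 : (-1 : ℝ) ^ (q + 1 + 1 + (q + 1 + 1)) = 1 := Even.neg_one_pow ⟨_, rfl⟩
            rw [h5, one_mul]
          · rw [dl_zero_of (Ψ l) m (fun t _ => hΨs l t (Or.inl h4)), mul_zero, mul_zero]
        · rw [if_neg h3, dl_zero_of (Ψ l) m (fun t ht => hΨs l t (Or.inr (by omega))),
            mul_zero, mul_zero]
    rw [d2]
    by_cases h3 : m.length = 3
    · rw [if_pos h3, ← hΨ l m, ← e3 l m h3]
      ring
    · rw [if_neg h3, htop l m (by omega), D.he.1.supp m h3]
      ring

end Pool.Agent.Helper87.BK
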