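import Pool.Agent.Helper87.BK.Chase1
import Pool.Agent.Helper87.BK.Chase2

/-!
# Project BK: the normal form in the double complex (piece BK-CHASE3)

`chase_zero`: `Φ` is `Ko (n + 2)`, `DD Φ = 0`, `Φ l m = 0` for `2 < m.length`.
* For `m.length = 2`: `Φ₂ l` (cut to length `2`) is `Cy 2` (`Ko_row`; `dl (Φ₂ l) m = 0` for
  `m.length = 3` as `DD Φ l m = 0` and the first sum vanishes), so it is zero by `D.prim1`.
* For `m.length = 1`: `DD Φ l [γ, γ'] = 0` and `Φ a [γ, γ'] = 0`, so `dl (Φ l) [γ, γ'] = Φ l [γ'] - Φ l [γ]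
  = 0` (for `l ≠ []`; for `l = []` both are zero).  `μ₀ l = Φ l [1]`.  It is `Co (n + 1)`
  (`InK_PU_left`, boundedness from the support, invariance `hΦ.inv h 1`), and for nonempty `l`,
  `DD Φ l [1] = dl μ₀ l + (-1)^(|l|+1) Φ l [] = dl μ₀ l`.
`normal_form`: `chase_top` gives `Ψ₁`; `chase_two` for `Φ - DD Ψ₁` gives `Ψ₂`, `μ₂`; `chase_zero` for
`Φ - DD Ψ₁ - DD Ψ₂ - μ₂ ⊗ e` (`Ko_mul`, `DD_mul`: `DD (μ₂ ⊗ e) = 0`; `n - 1 + 3 = n + 2` for `1 ≤ n`).
At empty lists both sides of the formula are zero (`μ₀ [] = 0`, `μ₂ [] = 0`, `e [] = 0`).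
-/

open scoped Topology

namespace Pool.Agent.Helper87.BK
open Pool.Agent.Helper11.BC (dl)
open Pool.Agent.Helper87.BCR

variable {H G : Type} [Group H] [TopologicalSpace H] [Group G] [TopologicalSpace G]
  [IsTopologicalGroup G]

private theorem DD_sub' (Φ Ψ : List H → List G → ℝ) (l : List H) (m : List G) :
    DD (fun a b => Φ a b - Ψ a b) l m = DD Φ l m - DD Ψ l m := by
  have e1 : (fun a b => Φ a b - Ψ a b) = fun a b => Φ a b + (-1) * Ψ a b := by
    funext a b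
    ring
  rw [e1, DD_add Φ (fun a b => (-1) * Ψ a b) l m, DD_smul (-1) Ψ l m]
  ring

private theorem dl_zero' {X : Type} (l : List X) : dl (fun _ : List X => (0 : ℝ)) l = 0 := by
  have h := dl_smul (0 : ℝ) (fun _ : List X => (0 : ℝ)) l
  simpa using h

private theorem row_closed {n j : ℕ} {Φ : List H → List G → ℝ} (hΦ : Ko (n + 2) Φ)
    (hD : ∀ l m, DD Φ l m = 0) (htop : ∀ l m, m.length = j + 1 → Φ l m = 0) (l : List H)
    (m : List G) (hm : m.length = j + 1) : dl (Φ l) m = 0 := by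
  have hm0 : m ≠ [] := by
    rintro rfl
    simp at hm
  by_cases hl : l = []
  · subst hl
    rw [dl_congr (Φ []) (fun _ => 0) m (fun t _ => hΦ.supp [] t (Or.inl rfl)), dl_zero']
  · have h := hD l m
    rw [DD_of_ne Φ hl hm0] at h
    have h1 : (fun a => Φ a m) = fun _ => 0 := by
      funext a
      exact htop a m hm
    rw [h1, dl_zero', zero_add] at h
    rcases mul_eq_zero.1 h with h | h
    · exact absurd h (pow_ne_zero _ (by norm_num))
    · exact h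

private theorem two_zero (D : GData G) {n : ℕ} (Φ : List H → List G → ℝ)
    (hΦ : Ko (n + 2) Φ) (hD : ∀ l m, DD Φ l m = 0) (htop : ∀ l m, 2 < m.length → Φ l m = 0)
    (l : List H) (m : List G) (hm : m.length = 2) : Φ l m = 0 := by
  have hK := Ko_cut hΦ 2
  have hco : Co 2 (fun m : List G => if m.length = 2 then Φ l m else 0) :=
    Ko_row (Φ := fun l m => if m.length = 2 then Φ l m else 0) hK
      (fun l m h => if_neg h) l
  have hcy : Cy 2 (fun m : List G => if m.length = 2 then Φ l m else 0) := by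
    refine ⟨hco, fun m' => ?_⟩
    by_cases h3 : m'.length = 3
    · rw [dl_congr _ (Φ l) m' (fun t ht => if_pos (by omega))]
      exact row_closed hΦ hD (fun l m hm => htop l m (by omega)) l m' h3
    · rw [dl_congr _ (fun _ => 0) m' (fun t ht => if_neg (by omega)), dl_zero']
  have h := D.prim1 _ hcy m
  simpa only [if_pos hm] using h

theorem chase_zero (D : GData G) {n : ℕ} (Φ : List H → List G → ℝ)
    (hΦ : Ko (n + 2) Φ) (hD : ∀ l m, DD Φ l m = 0) (htop : ∀ l m, 2 < m.length → Φ l m = 0) :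
    ∃ μ₀ : List H → ℝ, Cy (n + 1) μ₀ ∧ ∀ l m, Φ l m = if m.length = 1 then μ₀ l else 0 := by
  have h2 := two_zero D Φ hΦ hD htop
  have h1 : ∀ l (γ γ' : G), Φ l [γ'] = Φ l [γ] := by
    intro l γ γ'
    have h := row_closed (j := 1) hΦ hD (fun l m hm => h2 l m hm) l [γ, γ'] rfl
    rw [dl_cons, dl_cons, dl_nil] at h
    linarith
  refine ⟨fun l => Φ l [1], ⟨⟨(InK_PU_left hΦ.reg [1]).1, ?_, ?_, ?_⟩, ?_⟩, ?_⟩
  · obtain ⟨M, hM⟩ := (InK_PU_left hΦ.reg [1]).2 (n + 1)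
    refine ⟨|M|, fun l => ?_⟩
    by_cases hl : l.length = n + 1
    · exact (hM l hl).trans (le_abs_self M)
    · show |Φ l [1]| ≤ |M|
      rw [hΦ.supp l [1] (Or.inr (Or.inr (by simpa using hl))), abs_zero]
      exact abs_nonneg M
  · intro h l
    have := hΦ.inv h 1 l [1]
    simpa using this
  · intro l hl
    exact hΦ.supp l [1] (Or.inr (Or.inr (by simpa using hl)))
  · intro l
    by_cases hl : l = []
    · subst hl
      exact dl_nil _
    · have h := hD l [1]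
      rw [DD_of_ne Φ hl (by simp)] at h
      rw [dl_cons (Φ l), dl_nil, hΦ.supp l [] (Or.inr (Or.inl rfl))] at h
      simpa using h
  · intro l m
    rcases lt_trichotomy m.length 1 with h | h | h
    · have h0 : m = [] := List.length_eq_zero_iff.1 (by omega)
      rw [if_neg (by omega)]
      exact hΦ.supp l m (Or.inr (Or.inl h0))
    · rw [if_pos h]
      obtain ⟨γ, rfl⟩ := List.length_eq_one_iff.1 h
      exact h1 l 1 γ
    · rw [if_neg (by omega)]
      rcases Nat.lt_or_ge 2 m.length with h' | h'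
      · exact htop l m h'
      · exact h2 l m (by omega)

private theorem DD_mul_zero {p j : ℕ} {μ : List H → ℝ} {ε : List G → ℝ} (hμ : Cy p μ)
    (hε : Cy j ε) (l : List H) (m : List G) : DD (fun a b => μ a * ε b) l m = 0 := by
  by_cases hl : l = []
  · exact if_pos (Or.inl hl)
  by_cases hm : m = []
  · exact if_pos (Or.inr hm)
  rw [DD_mul hl hm, hμ.2, hε.2]
  ring

theorem normal_form (D : GData G) {n : ℕ} (hn : 1 ≤ n) (Φ : List H → List G → ℝ)
    (hΦ : Ko (n + 2) Φ) (hD : ∀ l m, DD Φ l m = 0) :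
    ∃ (Ψ : List H → List G → ℝ) (μ₀ μ₂ : List H → ℝ), Ko (n + 1) Ψ ∧ Cy (n + 1) μ₀ ∧
      Cy (n - 1) μ₂ ∧ μ₂ [] = 0 ∧
      ∀ l m, Φ l m = DD Ψ l m + (if m.length = 1 then μ₀ l else 0) + μ₂ l * D.e m := by
  obtain ⟨Ψ₁, hK1, h1⟩ := chase_top D Φ hΦ hD
  have hDD1 : ∀ l m, DD (DD Ψ₁) l m = 0 :=
    DD_DD Ψ₁ (fun m => hK1.supp [] m (Or.inl rfl)) (fun l => hK1.supp l [] (Or.inr (Or.inl rfl)))
  have hΦ1 : Ko (n + 2) (fun a b => Φ a b - DD Ψ₁ a b) := hΦ.sub hK1.DD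
  have hD1 : ∀ l m, DD (fun a b => Φ a b - DD Ψ₁ a b) l m = 0 := by
    intro l m
    rw [DD_sub', hD, hDD1, sub_zero]
  obtain ⟨Ψ₂, μ₂, hK2, hμ2, hμ20, h2⟩ := chase_two D _ hΦ1 hD1
    (fun l m hm => by rw [h1 l m hm, sub_self])
  have hDD2 : ∀ l m, DD (DD Ψ₂) l m = 0 :=
    DD_DD Ψ₂ (fun m => hK2.supp [] m (Or.inl rfl)) (fun l => hK2.supp l [] (Or.inr (Or.inl rfl)))
  have hmul : Ko (n + 2) (fun (l : List H) (m : List G) => μ₂ l * D.e m) := by
    have h := Ko_mul (j := 2) hμ2.1 hμ20 D.he.1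
    have e : n - 1 + (2 + 1) = n + 2 := by omega
    rwa [e] at h
  have hΦ2 : Ko (n + 2) (fun a b => Φ a b - DD Ψ₁ a b - DD Ψ₂ a b - μ₂ a * D.e b) :=
    (hΦ1.sub hK2.DD).sub hmul
  have hD2 : ∀ l m, DD (fun a b => Φ a b - DD Ψ₁ a b - DD Ψ₂ a b - μ₂ a * D.e b) l m = 0 := by
    intro l m
    rw [DD_sub' (fun a b => Φ a b - DD Ψ₁ a b - DD Ψ₂ a b) (fun a b => μ₂ a * D.e b),
      DD_sub' (fun a b => Φ a b - DD Ψ₁ a b) (DD Ψ₂), hD1, hDD2, DD_mul_zero hμ2 D.he]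
    ring
  obtain ⟨μ₀, hμ0, h0⟩ := chase_zero D _ hΦ2 hD2 (fun l m hm => by
    have := h2 l m hm
    linarith)
  have hK3 : Ko (n + 1) (fun a b => Ψ₁ a b + Ψ₂ a b) := by
    have h := hK1.sub (hK2.smul (-1))
    have e : (fun a b => Ψ₁ a b - (-1) * Ψ₂ a b) = fun a b => Ψ₁ a b + Ψ₂ a b := by
      funext a b
      ring
    rwa [e] at h
  refine ⟨fun a b => Ψ₁ a b + Ψ₂ a b, μ₀, μ₂, hK3, hμ0, hμ2, hμ20, fun l m => ?_⟩
  have h := h0 l m
  rw [DD_add]
  linarith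

end Pool.Agent.Helper87.BK
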