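import Pool.Agent.Helper87.BK.Kun

/-!
# Project BK: vanishing and injectivity of the comparison map for a product (piece BK-CMP)

* `van_prod`: `kunneth`; `μ₀ = dl ν₀`, and `dl (fun l => ν₀ (l.map Prod.fst)) l = (dl ν₀) (l.map Prod.fst)`
  (`List.eraseIdx_map`); if `n = 1` then `μ₂` is supported on the empty list and `μ₂ [] = 0`, so
  `μ₂ = 0`; if `n ≥ 3` then `μ₂ = dl ν₂` with `Co (n - 2) ν₂`, `ν₂ [] = 0` (support), and
  `aw (μ₂ ⊗ e) = aw (DD (ν₂ ⊗ e)) = dl (aw (ν₂ ⊗ e))` (`DD_mul`, `D.he.2`, `aw_congr`, `aw_dl`), where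
  `aw (ν₂ ⊗ e)` is `Co n` (`Ko_mul`, `aw_Ko`; `n - 2 + 3 = n + 1`).
* `cinj_prod`: let `f = dl u` with `Uo n u`.  `to_double`: `f = f' + dl r`, `u' = u - r` is `Uo n` and
  `f' = dl u'`.  `normal_form` for `sh f'`: `sh f' = DD Ψ + μ₀ ⊗ 1 + μ₂ ⊗ e`.  Also
  `sh f' = sh (dl u') = DD (sh u')` (`sh_dl`, `u' [] = 0`).  So with `V = sh u' - Ψ` (`InK JCc`:
  `LC_InC_JC`, `InC.sh cls_JC`, `InK_PU_JC`; invariant; supported on `|l| + |m| = n + 1`, nonempty)
  `DD V l m = (if |m| = 1 then μ₀ l else 0) + μ₂ l * e m`.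
  If `e` is not zero, apply `cev v` in the variable `m` (all lists `[1, x, x * y]` are nonempty, of
  length `3`): for `l ≠ []`, `μ₂ l = μ₂ l * cev v e = dl (fun a => cev v (V a)) l + (-1)^(|l|+1) cev v (dl (V l))
  = dl κV l`, with `κV a = cev v (V a)`, because `V l` is invariant and `v` is a cycle.  `κV` is
  `Uo (n - 2)` (`LC`: finite sum of `InK_JC_left`; support: `|a| + 3 = n + 1` and `a ≠ []`).  If `n ≤ 2` then
  `κV = 0`, so `μ₂ = 0`; if `n ≥ 3`, `CInj H (n - 2)` gives `μ₂ = dl ν₂`, `Co (n - 2) ν₂`.  (If `e = 0` put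
  `ν₂ = 0`, only `μ₂ ⊗ e` is used.)  `V' = V - ν₂ ⊗ e` satisfies `DD V' l m = if |m| = 1 then μ₀ l else 0`;
  at `m = [1]`: `μ₀ l = dl (fun a => V' a [1]) l` (`V' l [] = 0`), with `fun a => V' a [1]` in `Uo n`; so
  `CInj H n` gives `μ₀ = dl ν₀` with `Co n ν₀`.  Now `f = f' + dl r`, `f' = aw (sh f') + dl r'`,
  `aw (sh f') = dl (aw Ψ) + μ₀ ∘ fst + aw (μ₂ ⊗ e)`, and the last two are coboundaries of bounded
  cochains as in `van_prod`.
-/

open scoped Topology

namespace Pool.Agent.Helper87.BK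
open Pool.Agent.Helper11.BC (dl)
open Pool.Agent.Helper87.BCR

/-- The bounded cohomology of `H` vanishes in degree `n`. -/
def Van (H : Type) [Group H] [TopologicalSpace H] (n : ℕ) : Prop :=
  ∀ μ : List H → ℝ, Cy (n + 1) μ → ∃ ν : List H → ℝ, Co n ν ∧ ∀ l, μ l = dl ν l

/-- The comparison map of `H` is injective in degree `n`. -/
def CInj (H : Type) [Group H] [TopologicalSpace H] (n : ℕ) : Prop :=
  ∀ μ : List H → ℝ, Cy (n + 1) μ → (∃ u : List H → ℝ, Uo n u ∧ ∀ l, μ l = dl u l) →
    ∃ ν : List H → ℝ, Co n ν ∧ ∀ l, μ l = dl ν l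

/-- Evaluation of a cochain on a real 2-chain (in bar form). -/
noncomputable def cev {G : Type} [Group G] (v : G × G →₀ ℝ) (φ : List G → ℝ) : ℝ :=
  v.sum fun p c => c * φ [1, p.1, p.1 * p.2]

/-- The chain is a cycle. -/
def IsCyc {G : Type} [Group G] (v : G × G →₀ ℝ) : Prop :=
  ∀ ψ : List G → ℝ, (∀ (g : G) l, ψ (l.map (g * ·)) = ψ l) → cev v (dl ψ) = 0

variable {H G : Type} [Group H] [TopologicalSpace H] [IsTopologicalGroup H]
  [FirstCountableTopology H] [Group G] [TopologicalSpace G]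
  [IsTopologicalGroup G] [FirstCountableTopology G]

omit [Group H] [TopologicalSpace H] [IsTopologicalGroup H] [FirstCountableTopology H] [Group G]
  [TopologicalSpace G] [IsTopologicalGroup G] [FirstCountableTopology G] in
private theorem Cmp_dl_map (φ : List H → ℝ) (l : List (H × G)) :
    dl (fun t : List (H × G) => φ (t.map Prod.fst)) l = dl φ (l.map Prod.fst) := by
  unfold Helper11.BC.dl
  rw [List.length_map]
  refine Finset.sum_congr rfl fun i _ => ?_
  rw [List.eraseIdx_map]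

omit [IsTopologicalGroup H] [FirstCountableTopology H] [IsTopologicalGroup G]
  [FirstCountableTopology G] in
private theorem Cmp_fst {n : ℕ} {ν : List H → ℝ} (h : Co n ν) :
    Co n (fun l : List (H × G) => ν (l.map Prod.fst)) where
  cont := by
    intro k
    have h1 : Continuous fun v : Fin k → H × G => fun i => (v i).1 :=
      continuous_pi fun i => continuous_fst.comp (continuous_apply i)
    refine ((h.cont k).comp h1).congr fun v => ?_
    show ν (List.ofFn fun i => (v i).1) = ν ((List.ofFn v).map Prod.fst)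
    rw [List.map_ofFn]
    rfl
  bdd := by
    obtain ⟨M, hM⟩ := h.bdd
    exact ⟨M, fun l => hM _⟩
  inv := by
    intro g l
    have h1 : (l.map (g * ·)).map Prod.fst = (l.map Prod.fst).map (g.1 * ·) := by
      rw [List.map_map, List.map_map]
      rfl
    show ν ((l.map (g * ·)).map Prod.fst) = _
    rw [h1, h.inv]
  supp := by
    intro l hl
    exact h.supp _ (by rwa [List.length_map])

omit [IsTopologicalGroup H] [FirstCountableTopology H] [IsTopologicalGroup G]
  [FirstCountableTopology G] in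
private theorem Cmp_add {n : ℕ} {A B : List (H × G) → ℝ} (hA : Co n A) (hB : Co n B) :
    Co n (fun l => A l + B l) where
  cont := fun k => (hA.cont k).add (hB.cont k)
  bdd := by
    obtain ⟨M, hM⟩ := hA.bdd
    obtain ⟨M', hM'⟩ := hB.bdd
    exact ⟨M + M', fun l => (abs_add_le _ _).trans (add_le_add (hM l) (hM' l))⟩
  inv := fun g l => by
    show A (l.map (g * ·)) + B (l.map (g * ·)) = _
    rw [hA.inv, hB.inv]
  supp := fun l h => by
    show A l + B l = 0
    rw [hA.supp l h, hB.supp l h, add_zero]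

/-- the last step -/
private theorem Cmp_last (D : GData G) {n : ℕ} {f h : List (H × G) → ℝ}
    {μ₀ μ₂ ν₀ ν₂ : List H → ℝ} (hh : Co n h) (hν₀ : Co n ν₀) (h0 : ∀ l, μ₀ l = dl ν₀ l)
    (hν₂ : Ko (n + 1) (fun a b => ν₂ a * D.e b)) (hν₂0 : ν₂ [] = 0)
    (h2 : ∀ a b, a ≠ [] → b ≠ [] → μ₂ a * D.e b = DD (fun a b => ν₂ a * D.e b) a b)
    (hf : ∀ l, f l = dl h l + μ₀ (l.map Prod.fst) + aw (fun a b => μ₂ a * D.e b) l) :
    ∃ ν : List (H × G) → ℝ, Co n ν ∧ ∀ l, f l = dl ν l := by
  refine ⟨fun l => (h l + ν₀ (l.map Prod.fst)) + aw (fun a b => ν₂ a * D.e b) l,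
    Cmp_add (Cmp_add hh (Cmp_fst hν₀)) (aw_Ko hν₂), fun l => ?_⟩
  have e1 : aw (fun a b => μ₂ a * D.e b) l = dl (aw (fun a b => ν₂ a * D.e b)) l := by
    rw [← aw_dl (fun a b => ν₂ a * D.e b) (fun m => by rw [hν₂0, zero_mul])
      (fun l => by rw [D.he.1.supp [] (by simp), mul_zero])]
    exact aw_congr _ _ l fun a b ha hb _ => h2 a b ha hb
  rw [hf, e1, dl_add (fun l => h l + ν₀ (l.map Prod.fst)), dl_add h, Cmp_dl_map, h0]

omit [IsTopologicalGroup H] [FirstCountableTopology H] [IsTopologicalGroup G]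
  [FirstCountableTopology G] in
private theorem Cmp_two (D : GData G) {n : ℕ} (hn : 3 ≤ n) {μ₂ ν₂ : List H → ℝ}
    (hν : Co (n - 2) ν₂) (h : ∀ l, μ₂ l = dl ν₂ l) :
    Ko (n + 1) (fun a b => ν₂ a * D.e b) ∧ ν₂ [] = 0 ∧
      ∀ a b, a ≠ [] → b ≠ [] → μ₂ a * D.e b = DD (fun a b => ν₂ a * D.e b) a b := by
  have h0 : ν₂ [] = 0 := hν.supp [] (by simp; omega)
  refine ⟨?_, h0, fun a b ha hb => ?_⟩
  · have h1 := Ko_mul (j := 2) hν h0 D.he.1
    have e : n - 2 + (2 + 1) = n + 1 := by omega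
    rwa [e] at h1
  · rw [DD_mul ha hb, D.he.2, h]
    ring

omit [IsTopologicalGroup H] [FirstCountableTopology H] [IsTopologicalGroup G]
  [FirstCountableTopology G] in
private theorem Cmp_two_zero (D : GData G) {n : ℕ} {μ₂ : List H → ℝ}
    (h : ∀ a b, μ₂ a * D.e b = 0) :
    Ko (n + 1) (fun (a : List H) b => (fun _ : List H => (0 : ℝ)) a * D.e b) ∧
      (fun _ : List H => (0 : ℝ)) [] = 0 ∧
      ∀ a b, a ≠ [] → b ≠ [] → μ₂ a * D.e b =
        DD (fun (a : List H) b => (fun _ : List H => (0 : ℝ)) a * D.e b) a b := by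
  refine ⟨⟨?_, fun _ _ _ _ => by simp, fun _ _ _ => by simp⟩, rfl, fun a b ha hb => ?_⟩
  · intro Z W _ _ l m _ _
    have h1 := cls_PU.zero Z W
    simpa using h1
  · rw [h]
    have h1 := DD_smul 0 (fun (_ : List H) (b : List G) => D.e b) a b
    rw [zero_mul] at h1
    exact h1.symm

theorem van_prod (D : GData G) {T : (H → ℝ) → H → ℝ} (hT : Smt T) {n : ℕ} (hn : 1 ≤ n)
    (hn2 : n ≠ 2) (h1 : Van H n) (h2 : 3 ≤ n → Van H (n - 2)) : Van (H × G) n := by
  intro f hf
  obtain ⟨h, μ₀, μ₂, hh, hμ₀, hμ₂, hμ0, hfl⟩ := kunneth D hT hn f hf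
  obtain ⟨ν₀, hν₀, hν₀'⟩ := h1 μ₀ hμ₀
  by_cases hn3 : 3 ≤ n
  · have e : n - 2 + 1 = n - 1 := by omega
    obtain ⟨ν₂, hν₂, hν₂'⟩ := h2 hn3 μ₂ (by rwa [e])
    obtain ⟨k1, k2, k3⟩ := Cmp_two D hn3 hν₂ hν₂'
    exact Cmp_last D hh hν₀ hν₀' k1 k2 k3 hfl
  · have hz : ∀ a, μ₂ a = 0 := by
      intro a
      by_cases ha : a = []
      · rw [ha, hμ0]
      · refine hμ₂.1.supp a ?_
        have := List.length_pos_iff.2 ha
        omega
    obtain ⟨k1, k2, k3⟩ := Cmp_two_zero (n := n) D (μ₂ := μ₂) fun a b => by rw [hz, zero_mul]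
    exact Cmp_last D hh hν₀ hν₀' k1 k2 k3 hfl

omit [Group H] [TopologicalSpace H] [IsTopologicalGroup H] [FirstCountableTopology H] [Group G]
  [TopologicalSpace G] [IsTopologicalGroup G] [FirstCountableTopology G] in
private theorem Cmp_DD_sub (Φ Ψ : List H → List G → ℝ) (l : List H) (m : List G) :
    DD (fun a b => Φ a b - Ψ a b) l m = DD Φ l m - DD Ψ l m := by
  have e1 : (fun a b => Φ a b - Ψ a b) = fun a b => Φ a b + (-1) * Ψ a b := by
    funext a b
    ring
  rw [e1, DD_add Φ (fun a b => (-1) * Ψ a b) l m, DD_smul (-1) Ψ l m]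
  ring

omit [Group H] [IsTopologicalGroup H] [FirstCountableTopology H] [Group G]
  [IsTopologicalGroup G] [FirstCountableTopology G] in
private theorem Cmp_JC_sub {Φ Ψ : List H → List G → ℝ} (h : InK JCc Φ) (h' : InK JCc Ψ) :
    InK JCc (fun a b => Φ a b - Ψ a b) := by
  intro Z W _ _ l m hl hm
  exact Continuous.sub (h Z W l m hl hm) (h' Z W l m hl hm)

omit [IsTopologicalGroup H] [FirstCountableTopology H] [IsTopologicalGroup G]
  [FirstCountableTopology G] in
private theorem Cmp_Vo_sub {k : ℕ} {Φ Ψ : List H → List G → ℝ} (h : Vo k Φ) (h' : Vo k Ψ) :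
    Vo k (fun a b => Φ a b - Ψ a b) where
  reg := Cmp_JC_sub h.reg h'.reg
  inv := fun a b l m => by
    show Φ _ _ - Ψ _ _ = Φ _ _ - Ψ _ _
    rw [h.inv, h'.inv]
  supp := fun l m hlm => by
    show Φ l m - Ψ l m = 0
    rw [h.supp l m hlm, h'.supp l m hlm, sub_zero]

omit [IsTopologicalGroup H] [FirstCountableTopology H] [IsTopologicalGroup G]
  [FirstCountableTopology G] in
private theorem Cmp_Ko_Vo {k : ℕ} {Φ : List H → List G → ℝ} (h : Ko k Φ) : Vo k Φ :=
  ⟨InK_PU_JC h.reg, h.inv, h.supp⟩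

omit [Group H] [TopologicalSpace H] [IsTopologicalGroup H] [FirstCountableTopology H] [Group G]
  [TopologicalSpace G] [IsTopologicalGroup G] [FirstCountableTopology G] in
private theorem Cmp_sh_zero (f : List (H × G) → ℝ) (l : List H) (m : List G)
    (h : ∀ t : List (H × G), t.length + 1 = l.length + m.length → f t = 0) :
    sh f l m = 0 := by
  have h1 : sh f l m = sh (fun t => 0 * f t) l m := by
    refine sh_congr _ _ l m fun t ht => ?_
    rw [h t ht, mul_zero]
  rw [h1, sh_smul, zero_mul]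

omit [IsTopologicalGroup H] [FirstCountableTopology H] [IsTopologicalGroup G]
  [FirstCountableTopology G] in
private theorem Cmp_sh_Vo {n : ℕ} {u : List (H × G) → ℝ} (hu : Uo n u) : Vo (n + 1) (sh u) where
  reg := (LC_InC_JC hu.cont).sh cls_JC
  inv := by
    intro h g l m
    have hi : (fun t : List (H × G) => u (t.map fun e => (h * e.1, g * e.2))) = u :=
      funext fun t => hu.inv (h, g) t
    rw [← sh_map, hi]
  supp := by
    rintro l m (h | h | h)
    · rw [h, sh_nil_left]
    · rw [h, sh_nil_right]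
    · exact Cmp_sh_zero _ _ _ fun t ht => hu.supp t (by omega)

omit [Group H] [TopologicalSpace H] [IsTopologicalGroup H] [FirstCountableTopology H]
  [TopologicalSpace G] [IsTopologicalGroup G] [FirstCountableTopology G] in
private theorem Cmp_cev_dl (v : G × G →₀ ℝ) (V : List H → List G → ℝ) (l : List H) :
    dl (fun a => cev v (V a)) l = cev v (fun m => dl (fun a => V a m) l) := by
  unfold cev Finsupp.sum Helper11.BC.dl
  simp only [smul_eq_mul, Finset.mul_sum]
  rw [Finset.sum_comm]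
  refine Finset.sum_congr rfl fun i _ => Finset.sum_congr rfl fun j _ => ?_
  ring

omit [IsTopologicalGroup H] [FirstCountableTopology H] [IsTopologicalGroup G]
  [FirstCountableTopology G] in
private theorem Cmp_cev_Uo {n : ℕ} {V : List H → List G → ℝ} (hV : Vo (n + 1) V)
    (v : G × G →₀ ℝ) : Uo (n - 2) (fun a => cev v (V a)) where
  cont := by
    intro k
    unfold cev Finsupp.sum
    exact continuous_finsetSum _ fun p _ =>
      continuous_const.mul (InK_JC_left hV.reg [1, p.1, p.1 * p.2] k)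
  inv := by
    intro h a
    unfold cev Finsupp.sum
    refine Finset.sum_congr rfl fun p _ => ?_
    have h1 := hV.inv h 1 a [1, p.1, p.1 * p.2]
    simp only [one_mul, List.map_id'] at h1
    beta_reduce
    rw [h1]
  supp := by
    intro a ha
    unfold cev Finsupp.sum
    refine Finset.sum_eq_zero fun p _ => ?_
    beta_reduce
    rw [hV.supp a [1, p.1, p.1 * p.2], mul_zero]
    right; right
    show a.length + 3 ≠ n + 1
    omega

omit [IsTopologicalGroup H] [FirstCountableTopology H] [IsTopologicalGroup G]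
  [FirstCountableTopology G] in
private theorem Cmp_one_Uo {n : ℕ} {V : List H → List G → ℝ} (hV : Vo (n + 1) V) :
    Uo n (fun a => V a [1]) where
  cont := InK_JC_left hV.reg [1]
  inv := by
    intro h a
    have h1 := hV.inv h 1 a [1]
    simpa using h1
  supp := by
    intro a ha
    refine hV.supp a [1] ?_
    right; right
    show a.length + 1 ≠ n + 1
    omega

theorem cinj_prod (D : GData G)
    (hκ : (∀ m, D.e m = 0) ∨ ∃ v : G × G →₀ ℝ, IsCyc v ∧ cev v D.e = 1)
    {T : (H → ℝ) → H → ℝ} (hT : Smt T) {n : ℕ} (hn : 1 ≤ n)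
    (h1 : CInj H n) (h2 : 3 ≤ n → CInj H (n - 2)) : CInj (H × G) n := by
  rintro f hf ⟨u, hu, hfu⟩
  obtain ⟨f', r, hf', hr, hKo, hDD, hfr, r', hr', hfr'⟩ := to_double hT hn f hf
  obtain ⟨Ψ, μ₀, μ₂, hΨ, hμ₀, hμ₂, hμ0, hnf⟩ := normal_form D hn (sh f') hKo hDD
  have hu' : Uo n (fun l => u l - r l) := by
    refine ⟨fun k => (hu.cont k).sub (hr.cont k), ?_, ?_⟩
    · intro g l
      rw [hu.inv, hr.inv]
    · intro l hl
      rw [hu.supp l hl, hr.supp l hl, sub_zero]
  have hfu' : f' = dl (fun l => u l - r l) := by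
    funext l
    have e1 := hfr l
    rw [dl_sub, ← hfu l]
    linarith
  have hV : Vo (n + 1) (fun a b => sh (fun l => u l - r l) a b - Ψ a b) :=
    Cmp_Vo_sub (Cmp_sh_Vo hu') (Cmp_Ko_Vo hΨ)
  set V : List H → List G → ℝ := fun a b => sh (fun l => u l - r l) a b - Ψ a b with hVdef
  have hDV : ∀ l m, DD V l m = (if m.length = 1 then μ₀ l else 0) + μ₂ l * D.e m := by
    intro l m
    have e1 := sh_dl (fun l => u l - r l) l m
    rw [← hfu', hu'.supp [] (by simp; omega), ite_self, add_zero] at e1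
    have e2 := hnf l m
    rw [hVdef, Cmp_DD_sub, ← e1, e2]
    ring
  obtain ⟨ν₂, k1, k2, k3⟩ : ∃ ν₂ : List H → ℝ, Ko (n + 1) (fun a b => ν₂ a * D.e b) ∧
      ν₂ [] = 0 ∧ ∀ a b, a ≠ [] → b ≠ [] → μ₂ a * D.e b =
        DD (fun a b => ν₂ a * D.e b) a b := by
    rcases hκ with he | ⟨v, hv, hve⟩
    · exact ⟨fun _ => 0, Cmp_two_zero D fun a b => by rw [he, mul_zero]⟩
    · have hU := Cmp_cev_Uo hV v
      have hμκ : ∀ l, μ₂ l = dl (fun a => cev v (V a)) l := by
        intro l
        by_cases hl : l = []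
        · rw [hl, hμ0, dl_nil]
        · have e1 : cev v (dl (V l)) = 0 := by
            refine hv _ fun g m => ?_
            have e2 := hV.inv 1 g l m
            simp only [one_mul, List.map_id'] at e2
            exact e2
          have e3 : ∀ p : G × G, μ₂ l * D.e [1, p.1, p.1 * p.2] =
              dl (fun a => V a [1, p.1, p.1 * p.2]) l +
                (-1) ^ (l.length + 1) * dl (V l) [1, p.1, p.1 * p.2] := by
            intro p
            rw [← DD_of_ne V hl (by simp), hDV]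
            simp
          have e4 : μ₂ l * cev v D.e = cev v (fun m => dl (fun a => V a m) l) +
              (-1) ^ (l.length + 1) * cev v (dl (V l)) := by
            unfold cev Finsupp.sum
            rw [Finset.mul_sum, Finset.mul_sum, ← Finset.sum_add_distrib]
            refine Finset.sum_congr rfl fun p _ => ?_
            have := e3 p
            linear_combination (v p) * this
          rw [Cmp_cev_dl]
          rw [hve, e1, mul_zero, mul_one, add_zero] at e4
          exact e4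
      by_cases hn3 : 3 ≤ n
      · have e : n - 2 + 1 = n - 1 := by omega
        obtain ⟨ν₂, hν₂, hν₂'⟩ := h2 hn3 μ₂ (by rwa [e]) ⟨_, hU, hμκ⟩
        exact ⟨ν₂, Cmp_two D hn3 hν₂ hν₂'⟩
      · have hκ0 : (fun a => cev v (V a)) = fun _ => 0 := by
          funext a
          unfold cev Finsupp.sum
          refine Finset.sum_eq_zero fun p _ => ?_
          beta_reduce
          rw [hV.supp a [1, p.1, p.1 * p.2], mul_zero]
          by_cases ha : a = []
          · exact Or.inl ha
          · right; right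
            have := List.length_pos_iff.2 ha
            show a.length + 3 ≠ n + 1
            omega
        have hz : ∀ a, μ₂ a = 0 := by
          intro a
          rw [hμκ, hκ0]
          have h := dl_smul 0 (fun _ : List H => (0 : ℝ)) a
          simpa using h
        exact ⟨fun _ => 0, Cmp_two_zero D fun a b => by rw [hz, zero_mul]⟩
  have hV' := Cmp_Vo_sub hV (Cmp_Ko_Vo k1)
  obtain ⟨ν₀, hν₀, hν₀'⟩ := h1 μ₀ hμ₀ ⟨_, Cmp_one_Uo hV', by
    intro l
    by_cases hl : l = []
    · rw [hl, dl_nil, hμ₀.1.supp [] (by simp)]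
    · have e1 := Cmp_DD_sub V (fun a b => ν₂ a * D.e b) l [1]
      rw [hDV, ← k3 l [1] hl (by simp), DD_of_ne _ hl (by simp), dl_cons, dl_nil] at e1
      rw [hV'.supp l [] (Or.inr (Or.inl rfl))] at e1
      simp only [List.length_singleton, if_true, sub_zero, mul_zero, add_zero] at e1
      linarith⟩
  have hfl : ∀ l, f l = dl (fun l => (aw Ψ l + r' l) + r l) l + μ₀ (l.map Prod.fst) +
      aw (fun a b => μ₂ a * D.e b) l := by
    intro l
    have e0 : aw (sh f') l = aw (DD Ψ) l + aw (fun a b => if b.length = 1 then μ₀ a else 0) l +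
        aw (fun a b => μ₂ a * D.e b) l := by
      rw [← aw_add, ← aw_add]
      refine aw_congr _ _ l fun a b _ _ _ => hnf a b
    have e1 : aw (DD Ψ) l = dl (aw Ψ) l :=
      aw_dl Ψ (fun m => hΨ.supp [] m (Or.inl rfl)) (fun l => hΨ.supp l [] (Or.inr (Or.inl rfl))) l
    have e2 : aw (fun (a : List H) (b : List G) => if b.length = 1 then μ₀ a else 0) l =
        μ₀ (l.map Prod.fst) := by
      rcases l with _ | ⟨w, l⟩
      · rw [List.map_nil, hμ₀.1.supp [] (by simp)]
        rfl
      · have h1 := aw_eq (fun (a : List H) (b : List G) => if b.length = 1 then μ₀ a else 0) 0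
          (fun l m hm => if_neg hm) (w :: l) (by simp)
        rw [h1, if_pos]
        · rw [Nat.sub_zero, List.take_length]
        · rw [List.length_map, List.length_drop, List.length_cons]
          omega
    rw [hfr, hfr', e0, e1, e2, dl_add, dl_add]
    ring
  exact Cmp_last D (Cmp_add (Cmp_add (aw_Ko hΨ) hr') hr) hν₀ hν₀' k1 k2 k3 hfl

end Pool.Agent.Helper87.BK
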