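import Pool.Agent.Helper87.BK.Cmp

/-!
# Project BK: a real 2-cycle which detects a class (piece BK-CYCD)

Linear algebra.  `∂ : (G × G →₀ ℝ) →ₗ[ℝ] (G →₀ ℝ)`, `∂ [x | y] = [y] - [x * y] + [x]` (`Finsupp.lsum` /
`Finsupp.linearCombination`), and the linear functional `E [x | y] = e [1, x, x * y]`, that is
`E v = cev v e`.
If `E` vanishes on `ker ∂`, then `E = F ∘ ∂` for a linear functional `F` on `G →₀ ℝ` (vector spaces:
`LinearMap.range_dualMap_eq_dualAnnihilator_ker`, or extend from the range).  Then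
`ψ l = F [g⁻¹ * h]` if `l = [g, h]`, `0` otherwise, is invariant, and
`dl ψ [1, x, x * y] = ψ [x, x * y] - ψ [1, x * y] + ψ [1, x] = F (∂ [x | y]) = e [1, x, x * y]`; every list
of length `3` is `[g, h, k] = ([1, g⁻¹ h, g⁻¹ k]).map (g * ·)`, and `g⁻¹ k = (g⁻¹ h) * (h⁻¹ k)`, so
`dl ψ m = e m` for all lists of length `3`, contradiction with `hne`.
So there is `v` in `ker ∂` with `cev v e ≠ 0`; divide.  `IsCyc v`: for an invariant `ψ` the same
computation gives `dl ψ [1, x, x * y] = F' (∂ [x | y])` with `F' [g] = ψ [1, g]`, so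
`cev v (dl ψ) = F' (∂ v) = 0`.
-/

namespace Pool.Agent.Helper87.BK
open Pool.Agent.Helper11.BC (dl)

/-- the boundary of real 2-chains -/
private noncomputable def cycDbd (G : Type) [Group G] : (G × G →₀ ℝ) →ₗ[ℝ] (G →₀ ℝ) :=
  Finsupp.linearCombination ℝ fun p : G × G =>
    Finsupp.single p.2 (1 : ℝ) - Finsupp.single (p.1 * p.2) 1 + Finsupp.single p.1 1

private noncomputable def cycDE {G : Type} [Group G] (e : List G → ℝ) : (G × G →₀ ℝ) →ₗ[ℝ] ℝ :=
  Finsupp.linearCombination ℝ fun p : G × G => e [1, p.1, p.1 * p.2]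

private theorem cycDE_apply {G : Type} [Group G] (e : List G → ℝ) (v : G × G →₀ ℝ) :
    cycDE e v = cev v e := by
  rw [cycDE, Finsupp.linearCombination_apply, cev]
  rfl

private theorem cycD_dl3 {G : Type} (ψ : List G → ℝ) (g h k : G) :
    dl ψ [g, h, k] = ψ [h, k] - ψ [g, k] + ψ [g, h] := by
  rw [BCR.dl_cons, BCR.dl_cons, BCR.dl_cons, BCR.dl_nil]
  ring

private theorem cycD_inv1 {G : Type} [Group G] (ψ : List G → ℝ)
    (hψ : ∀ (g : G) l, ψ (l.map (g * ·)) = ψ l) (x y : G) : ψ [x, x * y] = ψ [1, y] := by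
  have := hψ x [1, y]
  simpa using this

private theorem cycD_isCyc {G : Type} [Group G] {v : G × G →₀ ℝ} (hv : cycDbd G v = 0) :
    IsCyc v := by
  intro ψ hψ
  have h1 : Finsupp.linearCombination ℝ (fun g : G => ψ [1, g]) (cycDbd G v) = 0 := by
    rw [hv, map_zero]
  have h2 : (Finsupp.linearCombination ℝ (fun g : G => ψ [1, g])).comp (cycDbd G) =
      cycDE (dl ψ) := by
    apply Finsupp.lhom_ext
    intro p c
    rw [LinearMap.comp_apply, cycDbd, cycDE, Finsupp.linearCombination_single,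
      Finsupp.linearCombination_single, map_smul, map_add, map_sub,
      Finsupp.linearCombination_single, Finsupp.linearCombination_single,
      Finsupp.linearCombination_single, cycD_dl3, cycD_inv1 ψ hψ]
    simp
  rw [← cycDE_apply, ← h2]
  exact h1

theorem exists_cyc {G : Type} [Group G] (e : List G → ℝ)
    (hinv : ∀ (g : G) l, e (l.map (g * ·)) = e l)
    (hne : ¬ ∃ ψ : List G → ℝ, (∀ (g : G) l, ψ (l.map (g * ·)) = ψ l) ∧
      ∀ m : List G, m.length = 3 → e m = dl ψ m) :
    ∃ v : G × G →₀ ℝ, IsCyc v ∧ cev v e = 1 := by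
  by_cases hE : ∃ v, cycDbd G v = 0 ∧ cev v e ≠ 0
  · obtain ⟨v, hv, hve⟩ := hE
    refine ⟨(cev v e)⁻¹ • v, cycD_isCyc (by rw [map_smul, hv, smul_zero]), ?_⟩
    rw [← cycDE_apply, map_smul, cycDE_apply, smul_eq_mul]
    exact inv_mul_cancel₀ hve
  · exfalso
    push Not at hE
    have h1 : cycDE e ∈ (LinearMap.ker (cycDbd G)).dualAnnihilator := by
      rw [Submodule.mem_dualAnnihilator]
      intro w hw
      rw [cycDE_apply]
      exact hE w (LinearMap.mem_ker.1 hw)
    rw [← LinearMap.range_dualMap_eq_dualAnnihilator_ker] at h1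
    obtain ⟨F, hF⟩ := h1
    have hF2 : ∀ x y : G, F (Finsupp.single y (1 : ℝ)) - F (Finsupp.single (x * y) 1) +
        F (Finsupp.single x 1) = e [1, x, x * y] := by
      intro x y
      have h2 : (cycDbd G).dualMap F (Finsupp.single (x, y) 1) =
          cycDE e (Finsupp.single (x, y) 1) := by rw [hF]
      rw [LinearMap.dualMap_apply, cycDbd, cycDE, Finsupp.linearCombination_single,
        Finsupp.linearCombination_single, one_smul, one_smul, map_add, map_sub] at h2
      exact h2
    refine hne ⟨fun l => match l with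
      | [g, h] => F (Finsupp.single (g⁻¹ * h) 1)
      | _ => 0, ?_, ?_⟩
    · intro g l
      match l with
      | [] => rfl
      | [a] => rfl
      | [a, b] =>
        change F (Finsupp.single ((g * a)⁻¹ * (g * b)) 1) = F (Finsupp.single (a⁻¹ * b) 1)
        congr 2
        group
      | a :: b :: c :: t => rfl
    · intro m hm
      obtain ⟨g, h, k, rfl⟩ := List.length_eq_three.1 hm
      rw [cycD_dl3]
      change e [g, h, k] = F (Finsupp.single (h⁻¹ * k) 1) - F (Finsupp.single (g⁻¹ * k) 1) +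
        F (Finsupp.single (g⁻¹ * h) 1)
      have h3 := hF2 (g⁻¹ * h) (h⁻¹ * k)
      have h4 : g⁻¹ * h * (h⁻¹ * k) = g⁻¹ * k := by group
      rw [h4] at h3
      rw [h3, ← hinv g [1, g⁻¹ * h, g⁻¹ * k]]
      simp

end Pool.Agent.Helper87.BK
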