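import Pool.Agent.Helper87.BCR.Main
import Pool.Agent.Helper24.BC.P_Jas
import Pool.Agent.Helper34.BC.Eval
import Pool.Agent.Helper14.BC.Final
import Pool.Agent.Helper59.BC.Neck2
import Pool.Agent.Helper17.BC.Main

/-!
# Project BC / BK: the bounded cohomology of `SL(2, ℝ)` vanishes in all degrees `≥ 3`
-/

open scoped MatrixGroups UpperHalfPlane

namespace Pool.Agent.Helper87.BK
open Pool.Agent.Helper11.BC

theorem fin_G {N : ℕ} (hN : 2 ≤ N) (b : (Fin (N + 2) → G) → ℝ) (hc : Continuous b)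
    (hi : ∀ (g : G) (x : Fin (N + 2) → G), b (fun j => g * x j) = b x)
    (hb : ∃ C : ℝ, ∀ x, |b x| ≤ C)
    (hz : ∀ x : Fin (N + 3) → G,
      ∑ i : Fin (N + 3), (-1 : ℝ) ^ (i : ℕ) * b (fun j => x (Fin.succAbove i j)) = 0) :
    ∃ h : (Fin (N + 1) → G) → ℝ, Continuous h ∧
      (∀ (g : G) (x : Fin (N + 1) → G), h (fun j => g * x j) = h x) ∧
      (∃ C : ℝ, ∀ x, |h x| ≤ C) ∧
      ∀ x : Fin (N + 2) → G,
        b x = ∑ i : Fin (N + 2), (-1 : ℝ) ^ (i : ℕ) * h (fun j => x (Fin.succAbove i j)) := by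
  refine BCR.reduction_cont (fun b' M hb' => ?_) b hc hi hb hz
  obtain ⟨P, hP⟩ := Helper24.BC.exists_psys hN b' M hb'
  obtain ⟨S, hS⟩ := Helper34.BC.exists_sys P
  have hK : Nonempty (Neck S) := by
    rcases hN.eq_or_lt with h | h
    · subst h
      exact Helper59.BC.exists_neck2 S
    · exact Helper14.BC.exists_neck h S
  obtain ⟨K⟩ := hK
  obtain ⟨ψ, M', h1, h2, h3⟩ := Helper17.BC.main_of_neck hN S K
  exact ⟨ψ, M', h1, h2, fun W hW hl => by rw [h3 W hW hl, hS W hl, hP W hl]⟩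

end Pool.Agent.Helper87.BK
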