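import Pool.Agent.Helper87.BK.Pow
import Pool.Agent.Helper87.BK.Cnv
import Pool.Agent.Helper87.BK.VanG

/-!
# Project BK: the powers of `SL(2, ℝ)`
-/

open scoped MatrixGroups UpperHalfPlane Topology

namespace Pool.Agent.Helper87.BK
open Pool.Agent.Helper11.BC
open Pool.Agent.Helper87.BCR

theorem van_G (k : ℕ) (hk : 3 ≤ k) : Van G k := by
  obtain ⟨N, rfl⟩ : ∃ N, k = N + 1 := ⟨k - 1, by omega⟩
  refine van_of_fin fun f hc hi hb hz => ?_
  exact fin_G (N := N) (by omega) f hc hi hb hz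

theorem van_G_pow (k n : ℕ) (hn : 1 ≤ n) (h : Odd n ∨ 2 * k < n) : Van (Fin k → G) n :=
  van_pow van_G k n hn h

theorem cinj_G_pow (k n : ℕ) (hn : 1 ≤ n) : CInj (Fin k → G) n :=
  cinj_pow van_G k n hn

end Pool.Agent.Helper87.BK
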