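import Pool.Agent.Helper11.BC.Defs

/-!
# Project BK: quasimorphisms of `SL(2, ℝ)` are bounded (piece BK-QUASI)

`q g = ψ [1, g]`.  For `g`, `h`: `dl ψ [1, g, g * h] = ψ [g, g * h] - ψ [1, g * h] + ψ [1, g] =
q h - q (g * h) + q g` (invariance), so `|q (g * h) - q g - q h| ≤ M` (with `M ≥ 0`).  Hence
`|q 1| ≤ M`, `|q g + q g⁻¹| ≤ 2 M`, `|q (a * u * a⁻¹) - q u| ≤ 4 M`, `|q (u ^ 4) - 4 q u| ≤ 3 M`.
For `u t = !![1, t; 0, 1]` and `a = !![2, 0; 0, 1/2]`: `a * u t * a⁻¹ = u (4 t) = (u t) ^ 4`, so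
`3 |q (u t)| ≤ 7 M`; in the same way for `v t = !![1, 0; t, 1]` (`a⁻¹ * v t * a = v (4 t) = (v t) ^ 4`).
Every `g = !![a, b; c, d]` with `c ≠ 0` is `u ((a - 1) / c) * v c * u ((d - 1) / c)`; if `c = 0`, then
`g * v 1` has the entry `d ≠ 0` at the place `(1, 0)`, and `g = (g * v 1) * v (-1)`.  So
`|q g| ≤ 4 * (7 / 3) M + 3 M` for all `g`, and `ψ [g, h] = q (g⁻¹ * h)`.
-/

open scoped MatrixGroups UpperHalfPlane

namespace Pool.Agent.Helper87.BK
open Pool.Agent.Helper11.BC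

/-- The unipotent element with upper right entry `t`. -/
private noncomputable def quU (t : ℝ) : G := ⟨!![1, t; 0, 1], by simp⟩

/-- The unipotent element with lower left entry `t`. -/
private noncomputable def quV (t : ℝ) : G := ⟨!![1, 0; t, 1], by simp⟩

/-- The diagonal element with entries `2` and `1/2`. -/
private noncomputable def quA : G := ⟨!![2, 0; 0, 1 / 2], by simp⟩

private theorem quU_mul (s t : ℝ) : quU s * quU t = quU (s + t) := by
  apply Subtype.ext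
  show !![1, s; 0, 1] * !![1, t; 0, 1] = !![1, s + t; 0, 1]
  rw [Matrix.mul_fin_two]
  congr 1
  ext i j
  fin_cases i <;> fin_cases j <;> simp [add_comm]

private theorem quV_mul (s t : ℝ) : quV s * quV t = quV (s + t) := by
  apply Subtype.ext
  show !![1, 0; s, 1] * !![1, 0; t, 1] = !![1, 0; s + t, 1]
  rw [Matrix.mul_fin_two]
  ext i j
  fin_cases i <;> fin_cases j <;> simp

private theorem quA_U (t : ℝ) : quA * quU t * quA⁻¹ = quU (4 * t) := by
  rw [mul_inv_eq_iff_eq_mul]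
  apply Subtype.ext
  show !![2, 0; 0, 1 / 2] * !![1, t; 0, 1] = !![1, 4 * t; 0, 1] * !![2, 0; 0, 1 / 2]
  rw [Matrix.mul_fin_two, Matrix.mul_fin_two]
  ext i j
  fin_cases i <;> fin_cases j <;> simp
  ring

private theorem quA_V (t : ℝ) : quA⁻¹ * quV t * quA⁻¹⁻¹ = quV (4 * t) := by
  rw [inv_inv, mul_assoc, inv_mul_eq_iff_eq_mul]
  apply Subtype.ext
  show !![1, 0; t, 1] * !![2, 0; 0, 1 / 2] = !![2, 0; 0, 1 / 2] * !![1, 0; 4 * t, 1]
  rw [Matrix.mul_fin_two, Matrix.mul_fin_two]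
  ext i j
  fin_cases i <;> fin_cases j <;> simp
  ring

private theorem qu_dec (g : G) (hc : g 1 0 ≠ 0) :
    g = quU ((g 0 0 - 1) / g 1 0) * quV (g 1 0) * quU ((g 1 1 - 1) / g 1 0) := by
  have hdet : g 0 0 * g 1 1 - g 0 1 * g 1 0 = 1 := by
    have := g.2
    rw [Matrix.det_fin_two] at this
    exact this
  apply Subtype.ext
  show (g : Matrix (Fin 2) (Fin 2) ℝ) = !![1, (g 0 0 - 1) / g 1 0; 0, 1] * !![1, 0; g 1 0, 1] *
    !![1, (g 1 1 - 1) / g 1 0; 0, 1]
  rw [Matrix.mul_fin_two, Matrix.mul_fin_two]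
  have e0 : (g 0 0 - 1) / g 1 0 * g 1 0 = g 0 0 - 1 := div_mul_cancel₀ _ hc
  have e1 : g 1 0 * ((g 1 1 - 1) / g 1 0) = g 1 1 - 1 := mul_div_cancel₀ _ hc
  ext i j
  fin_cases i <;> fin_cases j
  · show g 0 0 = _
    simp [e0]
  · show g 0 1 = _
    simp [e0]
    field_simp
    linarith
  · show g 1 0 = _
    simp
  · show g 1 1 = _
    simp [e1]

theorem quasi_bdd (ψ : List G → ℝ) (hψ : ∀ (g : G) l, ψ (l.map (g * ·)) = ψ l) (M : ℝ)
    (hM : ∀ m : List G, m.length = 3 → |dl ψ m| ≤ M) :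
    ∃ M' : ℝ, ∀ m : List G, m.length = 2 → |ψ m| ≤ M' := by
  obtain ⟨q, hq⟩ : ∃ q : G → ℝ, ∀ g, q g = ψ [1, g] := ⟨fun g => ψ [1, g], fun _ => rfl⟩
  have h1 : ∀ g h : G, |q (g * h) - q g - q h| ≤ M := by
    intro g h
    have e1 : dl ψ [1, g, g * h] = q h - q (g * h) + q g := by
      have e2 : ψ [g, g * h] = q h := by
        rw [hq, ← hψ g [1, h]]
        simp
      simp only [dl, List.length_cons, List.length_nil, Finset.sum_range_succ,
        Finset.sum_range_zero, List.eraseIdx_cons_zero, List.eraseIdx_cons_succ, pow_zero,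
        smul_eq_mul, hq]
      rw [e2, hq]
      ring
    have e3 := hM [1, g, g * h] rfl
    rw [e1] at e3
    rw [abs_le] at e3 ⊢
    constructor <;> linarith [e3.1, e3.2]
  have hM0 : 0 ≤ M := (abs_nonneg _).trans (h1 1 1)
  have h2 : |q 1| ≤ M := by
    have := h1 1 1
    rw [mul_one, sub_self, zero_sub, abs_neg] at this
    exact this
  have h3 : ∀ g : G, |q g + q g⁻¹| ≤ 2 * M := by
    intro g
    have e := h1 g g⁻¹
    rw [mul_inv_cancel] at e
    rw [abs_le] at e h2 ⊢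
    constructor <;> linarith [e.1, e.2, h2.1, h2.2]
  have h4 : ∀ a u : G, |q (a * u * a⁻¹) - q u| ≤ 4 * M := by
    intro a u
    have e1 := h1 (a * u) a⁻¹
    have e2 := h1 a u
    have e3 := h3 a
    rw [abs_le] at e1 e2 e3 ⊢
    constructor <;> linarith [e1.1, e1.2, e2.1, e2.2, e3.1, e3.2]
  have h5 : ∀ a u : G, a * u * a⁻¹ = u * u * (u * u) → 3 * |q u| ≤ 7 * M := by
    intro a u hau
    have e1 := h4 a u
    rw [hau] at e1
    have e2 := h1 (u * u) (u * u)
    have e3 := h1 u u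
    rw [abs_le] at e1 e2 e3
    rcases abs_cases (q u) with h | h <;> linarith [e1.1, e1.2, e2.1, e2.2, e3.1, e3.2]
  have hU : ∀ t, 3 * |q (quU t)| ≤ 7 * M := by
    intro t
    apply h5 quA
    rw [quA_U, quU_mul, quU_mul]
    congr 1
    ring
  have hV : ∀ t, 3 * |q (quV t)| ≤ 7 * M := by
    intro t
    apply h5 quA⁻¹
    rw [quA_V, quV_mul, quV_mul]
    congr 1
    ring
  have h6 : ∀ g : G, g 1 0 ≠ 0 → |q g| ≤ 9 * M := by
    intro g hg
    have e1 := h1 (quU ((g 0 0 - 1) / g 1 0) * quV (g 1 0)) (quU ((g 1 1 - 1) / g 1 0))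
    rw [← qu_dec g hg] at e1
    have e2 := h1 (quU ((g 0 0 - 1) / g 1 0)) (quV (g 1 0))
    have e3 := hU ((g 0 0 - 1) / g 1 0)
    have e4 := hV (g 1 0)
    have e5 := hU ((g 1 1 - 1) / g 1 0)
    have e6 := abs_le.1 e1
    have e7 := abs_le.1 e2
    have e8 := le_abs_self (q (quU ((g 0 0 - 1) / g 1 0)))
    have e9 := neg_abs_le (q (quU ((g 0 0 - 1) / g 1 0)))
    have e10 := le_abs_self (q (quV (g 1 0)))
    have e11 := neg_abs_le (q (quV (g 1 0)))
    have e12 := le_abs_self (q (quU ((g 1 1 - 1) / g 1 0)))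
    have e13 := neg_abs_le (q (quU ((g 1 1 - 1) / g 1 0)))
    rw [abs_le]
    constructor <;> linarith [e6.1, e6.2, e7.1, e7.2]
  have h7 : ∀ g : G, |q g| ≤ 13 * M := by
    intro g
    by_cases hg : g 1 0 = 0
    · have hd : (g * quV 1) 1 0 ≠ 0 := by
        have e1 : (g * quV 1) 1 0 = g 1 0 * 1 + g 1 1 * 1 := by
          show ((g : Matrix (Fin 2) (Fin 2) ℝ) * (!![1, 0; 1, 1] : Matrix (Fin 2) (Fin 2) ℝ)) 1 0 = _
          rw [Matrix.mul_apply, Fin.sum_univ_two]
          rfl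
        have hdet : g 0 0 * g 1 1 - g 0 1 * g 1 0 = 1 := by
          have := g.2
          rw [Matrix.det_fin_two] at this
          exact this
        rw [e1, hg]
        intro h0
        have h00 : g 1 1 = 0 := by linarith
        rw [h00, hg] at hdet
        norm_num at hdet
      have e1 := h6 _ hd
      have e2 := h1 (g * quV 1) (quV (-1))
      have e3 : g * quV 1 * quV (-1) = g := by
        rw [mul_assoc, quV_mul, add_neg_cancel]
        have : quV 0 = 1 := by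
          apply Subtype.ext
          show !![1, 0; 0, 1] = (1 : Matrix (Fin 2) (Fin 2) ℝ)
          exact Matrix.one_fin_two.symm
        rw [this, mul_one]
      rw [e3] at e2
      have e4 := hV (-1)
      have e5 := le_abs_self (q (quV (-1)))
      have e6 := neg_abs_le (q (quV (-1)))
      rw [abs_le] at e1 e2 ⊢
      constructor <;> linarith [e1.1, e1.2, e2.1, e2.2]
    · exact (h6 g hg).trans (by linarith)
  refine ⟨13 * M, ?_⟩
  intro m hm
  obtain ⟨g, h, rfl⟩ := List.length_eq_two.1 hm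
  have e1 : ψ [g, h] = q (g⁻¹ * h) := by
    rw [hq, ← hψ g [1, g⁻¹ * h]]
    simp
  rw [e1]
  exact h7 _

end Pool.Agent.Helper87.BK
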