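import Pool.Agent.Helper87.BK.Lam
import Pool.Agent.Helper87.BK.Cmp
import Pool.Agent.Helper87.BK.CycD
import Pool.Agent.Helper87.BK.Quasi

/-!
# Project BK: the data of `SL(2, ℝ)` (piece BK-GDAT)

`lam` from `exists_lam`.  If `lam φ = 0` for all `φ` in `Cy 3` take `e = 0`; otherwise
`e = (lam φ₀)⁻¹ * φ₀`, so `lam e = 1`.
* `prim1`: `φ` in `Cy 2`: `f g = φ [1, g]` satisfies `f (g * h) = f g + f h` (`dl φ [1, g, g * h] = 0` and
  invariance), and it is bounded, so `f = 0` (`|f g| = |f (g ^ n)| / n`), and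
  `φ [g, h] = φ [1, g⁻¹ * h] = 0`.
* `prim2`: `lam (φ - lam φ * e) = lam φ - lam φ * lam e = 0` in both cases.
* `prim`: the hypothesis `hBC`.
* second part: let `e ≠ 0`, so `lam e = 1`.  If `e m = dl ψ m` for all `m` of length `3`, with `ψ`
  invariant, then `ψ` is bounded on the lists of length `2` (`quasi_bdd`); put `ψ' m = ψ m` for
  `m.length = 2`, `0` otherwise, and apply `transfer` (`BCR/Transfer.lean`) with `N = 1`, `c = e`,
  `h₁ = ψ'`: there is a continuous bounded invariant `h` with `dl h m = e m` for `m.length = 3`; cut it to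
  length `2`: `Co 2`, and `lam e = lam (dl h) = 0`, contradiction.  Now `exists_cyc`.
-/

open scoped MatrixGroups UpperHalfPlane Topology
open MeasureTheory

namespace Pool.Agent.Helper87.BK
open Pool.Agent.Helper11.BC
open Pool.Agent.Helper87.BCR

private theorem GDat_Cy_lin {k : ℕ} {φ ψ : List G → ℝ} (a b : ℝ) (hφ : Cy k φ) (hψ : Cy k ψ) :
    Cy k (fun m => a * φ m + b * ψ m) := by
  refine ⟨⟨fun r => ?_, ?_, fun g l => ?_, fun l hl => ?_⟩, fun l => ?_⟩
  · exact (continuous_const.mul (hφ.1.cont r)).add (continuous_const.mul (hψ.1.cont r))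
  · obtain ⟨M, hM⟩ := hφ.1.bdd
    obtain ⟨N, hN⟩ := hψ.1.bdd
    refine ⟨|a| * M + |b| * N, fun l => ?_⟩
    calc |a * φ l + b * ψ l| ≤ |a * φ l| + |b * ψ l| := abs_add_le _ _
      _ = |a| * |φ l| + |b| * |ψ l| := by rw [abs_mul, abs_mul]
      _ ≤ |a| * M + |b| * N := add_le_add
          (mul_le_mul_of_nonneg_left (hM l) (abs_nonneg _))
          (mul_le_mul_of_nonneg_left (hN l) (abs_nonneg _))
  · show a * φ (l.map (g * ·)) + b * ψ (l.map (g * ·)) = a * φ l + b * ψ l
    rw [hφ.1.inv, hψ.1.inv]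
  · show a * φ l + b * ψ l = 0
    rw [hφ.1.supp l hl, hψ.1.supp l hl]
    ring
  · rw [dl_add (fun m => a * φ m) (fun m => b * ψ m) l, dl_smul, dl_smul, hφ.2, hψ.2]
    ring

private theorem GDat_dl3 (φ : List G → ℝ) (a b c : G) :
    dl φ [a, b, c] = φ [b, c] - φ [a, c] + φ [a, b] := by
  rw [dl_cons, dl_cons, dl_cons, dl_nil]
  ring

private theorem GDat_prim1 (φ : List G → ℝ) (hφ : Cy 2 φ) (m : List G) : φ m = 0 := by
  by_cases hm : m.length = 2
  swap
  · exact hφ.1.supp m hm
  obtain ⟨M, hM⟩ := hφ.1.bdd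
  have hadd : ∀ x y : G, φ [1, x * y] = φ [1, x] + φ [1, y] := by
    intro x y
    have h1 := hφ.2 [1, x, x * y]
    rw [GDat_dl3] at h1
    have h2 : φ [x, x * y] = φ [1, y] := by
      have := hφ.1.inv x [1, y]
      simpa using this
    rw [h2] at h1
    linarith
  have hone : φ [1, (1 : G)] = 0 := by
    have := hadd 1 1
    rw [mul_one] at this
    linarith
  have hpow : ∀ (x : G) (n : ℕ), φ [1, x ^ n] = n * φ [1, x] := by
    intro x n
    induction n with
    | zero => rw [pow_zero, hone, Nat.cast_zero, zero_mul]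
    | succ n ih =>
      rw [pow_succ, hadd, ih, Nat.cast_succ]
      ring
  have hzero : ∀ x : G, φ [1, x] = 0 := by
    intro x
    by_contra hne
    have hpos : 0 < |φ [1, x]| := abs_pos.2 hne
    obtain ⟨n, hn⟩ := exists_nat_gt (M / |φ [1, x]|)
    rw [div_lt_iff₀ hpos] at hn
    have h1 := hM [1, x ^ n]
    rw [hpow, abs_mul, Nat.abs_cast] at h1
    linarith
  obtain ⟨g, h, rfl⟩ : ∃ g h, m = [g, h] := List.length_eq_two.1 hm
  have h1 := hφ.1.inv g [1, g⁻¹ * h]
  rw [hzero] at h1
  simpa using h1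

private theorem GDat_cut {h : List G → ℝ} (hc : LC h) (hb : LB h)
    (hi : ∀ (g : G) l, h (l.map (g * ·)) = h l) :
    Co 2 (fun m => if m.length = 2 then h m else 0) := by
  refine ⟨fun k => ?_, ?_, fun g l => ?_, fun l hl => ?_⟩
  · by_cases hk : k = 2
    · refine (hc k).congr fun v => ?_
      rw [if_pos (by rw [List.length_ofFn]; exact hk)]
    · refine (continuous_const (y := (0 : ℝ))).congr fun v => ?_
      rw [if_neg (by rw [List.length_ofFn]; exact hk)]
  · obtain ⟨M, hM⟩ := hb 2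
    refine ⟨max M 0, fun l => ?_⟩
    by_cases hl : l.length = 2
    · simp only [if_pos hl]
      exact (hM l hl).trans (le_max_left _ _)
    · simp only [if_neg hl, abs_zero]
      exact le_max_right _ _
  · simp only [List.length_map, hi]
  · exact if_neg hl

private theorem GDat_cut_dl (h : List G → ℝ) (m : List G) (hm : m.length = 3) :
    dl (fun m => if m.length = 2 then h m else 0) m = dl h m := by
  refine dl_congr _ _ _ fun t ht => ?_
  exact if_pos (by omega)

private theorem GDat_cut_dl' (h : List G → ℝ) (m : List G) (hm : m.length ≠ 3) :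
    dl (fun m => if m.length = 2 then h m else 0) m = 0 := by
  rw [dl_congr _ (fun _ => 0) m fun t ht => if_neg (by omega)]
  simp [dl]

theorem exists_gdata (hBC : ∀ k, 3 ≤ k → Van G k) :
    ∃ D : GData G, (∀ m, D.e m = 0) ∨ ∃ v : G × G →₀ ℝ, IsCyc v ∧ cev v D.e = 1 := by
  obtain ⟨lam, hlin, hbdd, hdl, hker⟩ := exists_lam
  by_cases hz : ∀ φ : List G → ℝ, Cy 3 φ → lam φ = 0
  · refine ⟨{ e := fun _ => 0, lam := lam, he := ?_, lam_lin := hlin, lam_bdd := hbdd,
              lam_dl := hdl, prim1 := GDat_prim1, prim2 := ?_, prim := hBC }, Or.inl fun _ => rfl⟩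
    · exact ⟨⟨fun r => continuous_const, ⟨0, fun l => by simp⟩, fun g l => rfl, fun l hl => rfl⟩,
        fun l => by simp [dl]⟩
    · intro φ hφ
      obtain ⟨ψ, hψ, h⟩ := hker φ hφ (hz φ hφ)
      exact ⟨ψ, hψ, fun m => by rw [h m, mul_zero, add_zero]⟩
  · push Not at hz
    obtain ⟨φ₀, hφ₀, hne⟩ := hz
    have he : Cy 3 (fun m => (lam φ₀)⁻¹ * φ₀ m + 0 * φ₀ m) := GDat_Cy_lin _ _ hφ₀ hφ₀
    have hlam : lam (fun m => (lam φ₀)⁻¹ * φ₀ m + 0 * φ₀ m) = 1 := by
      rw [hlin φ₀ φ₀ _ _ hφ₀ hφ₀, inv_mul_cancel₀ hne, zero_mul, add_zero]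
    set e : List G → ℝ := fun m => (lam φ₀)⁻¹ * φ₀ m + 0 * φ₀ m with hedef
    refine ⟨{ e := e, lam := lam, he := he, lam_lin := hlin, lam_bdd := hbdd,
              lam_dl := hdl, prim1 := GDat_prim1, prim2 := ?_, prim := hBC }, Or.inr ?_⟩
    · intro φ hφ
      have h1 : lam (fun m => 1 * φ m + (-lam φ) * e m) = 0 := by
        rw [hlin φ e _ _ hφ he, hlam]
        ring
      obtain ⟨ψ, hψ, h⟩ := hker _ (GDat_Cy_lin 1 (-lam φ) hφ he) h1
      refine ⟨ψ, hψ, fun m => ?_⟩
      rw [← h m]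
      ring
    · show ∃ v : G × G →₀ ℝ, IsCyc v ∧ cev v e = 1
      refine exists_cyc e he.1.inv ?_
      rintro ⟨ψ, hψ, hψe⟩
      obtain ⟨M, hM⟩ := he.1.bdd
      obtain ⟨M', hM'⟩ := quasi_bdd ψ hψ M fun m hm => by
        rw [← hψe m hm]
        exact hM m
      obtain ⟨h, hc, hb, hi, hd⟩ := transfer (N := 1) e
        (fun m => if m.length = 2 then ψ m else 0) (max M (max M' 0)) he.1.cont
        (fun l => (hM l).trans (le_max_left _ _)) he.1.inv he.2
        (fun l => by
          by_cases hl : l.length = 2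
          · simp only [if_pos hl]
            exact (hM' l hl).trans ((le_max_left _ _).trans (le_max_right _ _))
          · simp only [if_neg hl, abs_zero]
            exact (le_max_right _ _).trans (le_max_right _ _))
        (fun g l => by simp only [List.length_map, hψ])
        (fun W hW => by rw [GDat_cut_dl ψ W hW, hψe W hW])
      have h2 : e = dl (fun m => if m.length = 2 then h m else 0) := by
        funext m
        by_cases hm : m.length = 3
        · rw [GDat_cut_dl h m hm, hd m hm]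
        · rw [GDat_cut_dl' h m hm]
          exact he.1.supp m hm
      have h3 := hdl _ (GDat_cut hc hb hi)
      rw [← h2, hlam] at h3
      exact one_ne_zero h3

end Pool.Agent.Helper87.BK
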