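import Pool.Agent.Helper87.BK.Basic

/-!
# Project BK: the classes `PU` and `JC` (piece BK-REG3)

* `cls_PU`: elementary (`smul`: if `c = 0` trivial, otherwise use `ε / |c|`; `add`: `ε / 2`).
* `cls_JC`: sums and products of continuous functions.
* `PU_joint`: `|F z w - F z₀ w₀| ≤ |F z w - F z₀ w| + |F z₀ w - F z₀ w₀|`.
* `InC_PU_LC`, `InC_JC_LC`: take `Z = (Fin k → X)`, `W = (Fin k → Y)` and the list
  `List.ofFn fun i => (fun z => z i, fun w => w i)`; compose the (joint) continuity with
  `v ↦ (fun i => (v i).1, fun i => (v i).2)` from `Fin k → X × Y` (`List.map_ofFn`).  The bound is the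
  first part of `PU`.
* `LC_InC_JC`: a list `l : List ((Z → X) × (W → Y))` of length `k` gives the continuous map
  `(z, w) ↦ (fun i => (l[i].1 z, l[i].2 w))` from `Z × W` to `Fin k → X × Y`.
* `InK_PU_right`: `Z = Unit`, constant functions in the first list, `W = Fin k → Y`.
* `InK_PU_left`: `W = Unit`.
* `InK_PU_JC`: `PU_joint`.
-/

open scoped Topology

namespace Pool.Agent.Helper87.BK
open Pool.Agent.Helper11.BC (dl)
open Pool.Agent.Helper87.BCR

variable {X Y : Type} [TopologicalSpace X] [TopologicalSpace Y]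

theorem cls_PU : Cls PUc where
  zero Z W _ _ := by
    refine ⟨⟨0, fun _ _ => by simp⟩, fun _ => continuous_const, fun z₀ ε hε => ?_⟩
    exact Filter.Eventually.of_forall fun z w => by simpa using hε.le
  add Z W _ _ F F' hF hF' := by
    obtain ⟨⟨M, hM⟩, hc, hu⟩ := hF
    obtain ⟨⟨M', hM'⟩, hc', hu'⟩ := hF'
    refine ⟨⟨M + M', fun z w => (abs_add_le _ _).trans (add_le_add (hM z w) (hM' z w))⟩,
      fun z => (hc z).add (hc' z), fun z₀ ε hε => ?_⟩
    filter_upwards [hu z₀ (ε / 2) (half_pos hε), hu' z₀ (ε / 2) (half_pos hε)] with z h1 h2 w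
    calc |F z w + F' z w - (F z₀ w + F' z₀ w)| = |(F z w - F z₀ w) + (F' z w - F' z₀ w)| := by
          congr 1; ring
      _ ≤ |F z w - F z₀ w| + |F' z w - F' z₀ w| := abs_add_le _ _
      _ ≤ ε / 2 + ε / 2 := add_le_add (h1 w) (h2 w)
      _ = ε := add_halves ε
  smul Z W _ _ c F hF := by
    obtain ⟨⟨M, hM⟩, hc, hu⟩ := hF
    refine ⟨⟨|c| * M, fun z w => ?_⟩, fun z => continuous_const.mul (hc z), fun z₀ ε hε => ?_⟩
    · rw [abs_mul]
      exact mul_le_mul_of_nonneg_left (hM z w) (abs_nonneg c)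
    · by_cases h0 : c = 0
      · exact Filter.Eventually.of_forall fun z w => by simpa [h0] using hε.le
      · have hc0 : 0 < |c| := abs_pos.2 h0
        filter_upwards [hu z₀ (ε / |c|) (div_pos hε hc0)] with z h1 w
        rw [← mul_sub, abs_mul]
        calc |c| * |F z w - F z₀ w| ≤ |c| * (ε / |c|) :=
              mul_le_mul_of_nonneg_left (h1 w) (abs_nonneg c)
          _ = ε := mul_div_cancel₀ ε hc0.ne'

theorem cls_JC : Cls JCc where
  zero _ _ _ _ := continuous_const
  add _ _ _ _ _ _ hF hF' := Continuous.add hF hF'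
  smul _ _ _ _ _ _ hF := Continuous.mul continuous_const hF

theorem PU_joint {Z W : Type} [TopologicalSpace Z] [TopologicalSpace W] {F : Z → W → ℝ}
    (hF : PU F) : Continuous fun p : Z × W => F p.1 p.2 := by
  obtain ⟨-, hc, hu⟩ := hF
  rw [continuous_iff_continuousAt]
  rintro ⟨z₀, w₀⟩
  rw [ContinuousAt, Metric.tendsto_nhds]
  intro ε hε
  have h1 : ∀ᶠ p : Z × W in 𝓝 (z₀, w₀), ∀ w, |F p.1 w - F z₀ w| ≤ ε / 2 := by
    rw [nhds_prod_eq]
    exact Filter.Eventually.prod_inl (hu z₀ (ε / 2) (half_pos hε)) _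
  have h2 : ∀ᶠ p : Z × W in 𝓝 (z₀, w₀), |F z₀ p.2 - F z₀ w₀| < ε / 2 := by
    have h := (Metric.tendsto_nhds.1 ((hc z₀).continuousAt (x := w₀))) (ε / 2) (half_pos hε)
    rw [nhds_prod_eq]
    exact Filter.Eventually.prod_inr h _
  filter_upwards [h1, h2] with p hp1 hp2
  rw [Real.dist_eq]
  calc |F p.1 p.2 - F z₀ w₀| = |(F p.1 p.2 - F z₀ p.2) + (F z₀ p.2 - F z₀ w₀)| := by
        congr 1; ring
    _ ≤ |F p.1 p.2 - F z₀ p.2| + |F z₀ p.2 - F z₀ w₀| := abs_add_le _ _
    _ < ε / 2 + ε / 2 := add_lt_add_of_le_of_lt (hp1 p.2) hp2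
    _ = ε := add_halves ε

/-- a list is given by its entries -/
private theorem reg3_map {A B : Type} (g : A → B) (l : List A) :
    l.map g = List.ofFn fun i : Fin l.length => g (l.get i) := by
  conv_lhs => rw [← List.ofFn_get l, List.map_ofFn]
  rfl

/-- the coordinates form a list of pairs -/
private theorem reg3_pair (k : ℕ) (z : Fin k → X) (w : Fin k → Y) :
    (List.ofFn fun i : Fin k => ((fun z : Fin k → X => z i), fun w : Fin k → Y => w i)).map
      (fun e => (e.1 z, e.2 w)) = List.ofFn fun i => (z i, w i) := by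
  rw [List.map_ofFn]
  rfl

/-- the coordinates form a list -/
private theorem reg3_one (k : ℕ) (z : Fin k → X) :
    (List.ofFn fun i : Fin k => fun z : Fin k → X => z i).map (fun e => e z) = List.ofFn z := by
  rw [List.map_ofFn]
  rfl

/-- lists of constant functions -/
private theorem reg3_const {Z : Type} (l : List X) (z : Z) :
    (l.map fun x => fun _ : Z => x).map (fun e => e z) = l := by
  rw [List.map_map]
  exact List.map_id l

private theorem reg3_constc {Z : Type} [TopologicalSpace Z] (l : List X) :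
    ∀ e ∈ (l.map fun x => fun _ : Z => x), Continuous e := by
  intro e he
  obtain ⟨x, -, rfl⟩ := List.mem_map.1 he
  exact continuous_const

private theorem reg3_onec (k : ℕ) :
    ∀ e ∈ (List.ofFn fun i : Fin k => fun z : Fin k → X => z i), Continuous e := by
  intro e he
  obtain ⟨i, rfl⟩ := (List.mem_ofFn' _ _).1 he
  exact continuous_apply i

private theorem reg3_pairc (k : ℕ) :
    ∀ e ∈ (List.ofFn fun i : Fin k => ((fun z : Fin k → X => z i), fun w : Fin k → Y => w i)),
      Continuous e.1 ∧ Continuous e.2 := by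
  intro e he
  obtain ⟨i, rfl⟩ := (List.mem_ofFn' _ _).1 he
  exact ⟨continuous_apply i, continuous_apply i⟩

/-- every list of length `k` is a list of values -/
private theorem reg3_exists {A : Type} {k : ℕ} (l : List A) (hl : l.length = k) :
    ∃ v : Fin k → A, List.ofFn v = l := by
  subst hl
  exact ⟨l.get, List.ofFn_get l⟩

private theorem reg3_JC_LC {f : List (X × Y) → ℝ} (hf : InC JCc f) : LC f := by
  intro k
  have h := hf (Fin k → X) (Fin k → Y) _ (reg3_pairc k)
  have h2 : Continuous fun p : (Fin k → X) × (Fin k → Y) => f (List.ofFn fun i => (p.1 i, p.2 i)) := by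
    refine (show Continuous _ from h).congr fun p => ?_
    beta_reduce
    rw [reg3_pair]
  exact h2.comp ((continuous_pi fun i => continuous_fst.comp (continuous_apply i)).prodMk
    (continuous_pi fun i => continuous_snd.comp (continuous_apply i)))

theorem InC_PU_LC {f : List (X × Y) → ℝ} (hf : InC PUc f) : LC f ∧ LB f := by
  refine ⟨reg3_JC_LC fun Z W _ _ l hl => PU_joint (hf Z W l hl), fun k => ?_⟩
  obtain ⟨⟨M, hM⟩, -⟩ := hf (Fin k → X) (Fin k → Y) _ (reg3_pairc k)
  refine ⟨M, fun l hl => ?_⟩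
  obtain ⟨v, rfl⟩ := reg3_exists l hl
  have h := hM (fun i => (v i).1) fun i => (v i).2
  beta_reduce at h
  rwa [reg3_pair] at h

theorem InC_JC_LC {f : List (X × Y) → ℝ} (hf : InC JCc f) : LC f := reg3_JC_LC hf

theorem LC_InC_JC {f : List (X × Y) → ℝ} (hf : LC f) : InC JCc f := by
  intro Z W _ _ l hl
  have h := hf l.length
  have h2 : Continuous fun p : Z × W => fun i : Fin l.length => ((l.get i).1 p.1, (l.get i).2 p.2) :=
    continuous_pi fun i => (((hl _ (List.get_mem l i)).1).comp continuous_fst).prodMk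
      (((hl _ (List.get_mem l i)).2).comp continuous_snd)
  refine (show Continuous _ from h.comp h2).congr fun p => ?_
  change f (List.ofFn _) = f (l.map _)
  rw [reg3_map]

private theorem reg3_JC_right {Φ : List X → List Y → ℝ} (h : InK JCc Φ) (l : List X) :
    LC (Φ l) := by
  intro k
  have h1 := h Unit (Fin k → Y) (l.map fun x => fun _ : Unit => x) _ (reg3_constc l) (reg3_onec k)
  have h2 : Continuous fun p : Unit × (Fin k → Y) => Φ l (List.ofFn p.2) := by
    refine (show Continuous _ from h1).congr fun p => ?_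
    beta_reduce
    rw [reg3_one, reg3_const]
  exact h2.comp (Continuous.prodMk_right ())

private theorem reg3_JC_left {Φ : List X → List Y → ℝ} (h : InK JCc Φ) (m : List Y) :
    LC (fun l => Φ l m) := by
  intro k
  have h1 := h (Fin k → X) Unit _ (m.map fun x => fun _ : Unit => x) (reg3_onec k) (reg3_constc m)
  have h2 : Continuous fun p : (Fin k → X) × Unit => Φ (List.ofFn p.1) m := by
    refine (show Continuous _ from h1).congr fun p => ?_
    beta_reduce
    rw [reg3_one, reg3_const]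
  exact h2.comp (Continuous.prodMk_left ())

private theorem reg3_PU_JC {Φ : List X → List Y → ℝ} (h : InK PUc Φ) : InK JCc Φ :=
  fun Z W _ _ l m hl hm => PU_joint (h Z W l m hl hm)

theorem InK_PU_right {Φ : List X → List Y → ℝ} (h : InK PUc Φ) (l : List X) :
    LC (Φ l) ∧ LB (Φ l) := by
  refine ⟨reg3_JC_right (reg3_PU_JC h) l, fun k => ?_⟩
  obtain ⟨⟨M, hM⟩, -⟩ :=
    h Unit (Fin k → Y) (l.map fun x => fun _ : Unit => x) _ (reg3_constc l) (reg3_onec k)
  refine ⟨M, fun m hm => ?_⟩
  obtain ⟨v, rfl⟩ := reg3_exists m hm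
  have h1 := hM () v
  beta_reduce at h1
  rwa [reg3_one, reg3_const] at h1

theorem InK_PU_left {Φ : List X → List Y → ℝ} (h : InK PUc Φ) (m : List Y) :
    LC (fun l => Φ l m) ∧ LB (fun l => Φ l m) := by
  refine ⟨reg3_JC_left (reg3_PU_JC h) m, fun k => ?_⟩
  obtain ⟨⟨M, hM⟩, -⟩ :=
    h (Fin k → X) Unit _ (m.map fun x => fun _ : Unit => x) (reg3_onec k) (reg3_constc m)
  refine ⟨M, fun l hl => ?_⟩
  obtain ⟨v, rfl⟩ := reg3_exists l hl
  have h1 := hM v ()
  beta_reduce at h1
  rwa [reg3_one, reg3_const] at h1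

theorem InK_JC_left {Φ : List X → List Y → ℝ} (h : InK JCc Φ) (m : List Y) :
    LC (fun l => Φ l m) := reg3_JC_left h m

theorem InK_PU_JC {Φ : List X → List Y → ℝ} (h : InK PUc Φ) : InK JCc Φ := reg3_PU_JC h

end Pool.Agent.Helper87.BK
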