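import Pool.Agent.Helper87.BK.Reg1
import Pool.Agent.Helper87.BK.Reg3
import Pool.Agent.Helper87.BK.HM

/-!
# Project BK: the double complex (piece BK-KO)

From `Reg1.lean` (`InK.DD`), `Reg3.lean` (`cls_PU`, `InK_PU_right`, ...), `HM.lean` (`dl_dl`, `dl_add`, ...).
* `DD_of_ne`: unfold.  `DD_add`, `DD_smul`, `DD_sub`: `dl_add`, `dl_smul`.
* `DD_DD`: if `Φ` vanishes at empty lists then for ALL `l`, `m`
  `DD Φ l m = dl (fun a => Φ a m) l + (-1)^(|l|+1) * dl (Φ l) m`; apply this twice, the faces `a` of `l`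
  have length `|l| - 1`, `dl` in the first and in the second variable commute (finite sums), and
  `dl (dl _) = 0`.
* `Ko.DD`: regularity `InK.DD cls_PU`; invariance: `dl` commutes with maps (`List.eraseIdx_map`);
  support: for nonempty `l`, `m` with `|l| + |m| ≠ k + 1` all faces have total length `≠ k`.
* `Ko_row`: `Φ l` is in `Co` for a fixed `l` (`InK_PU_right`); the bound is uniform because the support
  is in the lists `m` of length `j`.
* `Ko_cut`: the restriction of `Φ` to `m.length = j` (`InK`: if the length of the list `m` of functions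
  is `j` nothing changes, otherwise the family is `0`).
* `Ko_mul`: `DD (μ ⊗ ε) = (dl μ) ⊗ ε + (-1)^(|l|+1) μ ⊗ dl ε`, and `PU` for `μ l * ε m`: bounded; for
  fixed `z` continuous in `w`; `|μ (l z) - μ (l z₀)| * sup |ε|` is small for `z` near `z₀` (`LC μ` gives
  continuity of `z ↦ μ (l.map (· z))`).  If `p = 0` then `μ` is supported on the empty list and the
  hypothesis `μ [] = 0` makes everything zero.
-/

open scoped Topology

namespace Pool.Agent.Helper87.BK
open Pool.Agent.Helper11.BC (dl)
open Pool.Agent.Helper87.BCR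

section

variable {X Y : Type}

theorem DD_of_ne (Φ : List X → List Y → ℝ) {l : List X} {m : List Y} (hl : l ≠ []) (hm : m ≠ []) :
    DD Φ l m = dl (fun a => Φ a m) l + (-1) ^ (l.length + 1) * dl (Φ l) m := by
  unfold DD
  rw [if_neg]
  rintro (h | h)
  · exact hl h
  · exact hm h

theorem DD_add (Φ Ψ : List X → List Y → ℝ) (l : List X) (m : List Y) :
    DD (fun a b => Φ a b + Ψ a b) l m = DD Φ l m + DD Ψ l m := by
  unfold DD
  split_ifs
  · rw [add_zero]
  · rw [dl_add (fun a => Φ a m) (fun a => Ψ a m) l, dl_add (Φ l) (Ψ l) m]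
    ring

theorem DD_smul (c : ℝ) (Φ : List X → List Y → ℝ) (l : List X) (m : List Y) :
    DD (fun a b => c * Φ a b) l m = c * DD Φ l m := by
  unfold DD
  split_ifs
  · rw [mul_zero]
  · rw [dl_smul c (fun a => Φ a m) l, dl_smul c (Φ l) m]
    ring

private theorem Ko_full (Φ : List X → List Y → ℝ) (h1 : ∀ m, Φ [] m = 0) (h2 : ∀ l, Φ l [] = 0)
    (l : List X) (m : List Y) :
    DD Φ l m = dl (fun a => Φ a m) l + (-1) ^ (l.length + 1) * dl (Φ l) m := by
  unfold DD
  split_ifs with h
  · rcases h with h | h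
    · subst h
      have e : dl (Φ []) m = 0 := by
        unfold Helper11.BC.dl
        exact Finset.sum_eq_zero fun i _ => by rw [h1, smul_zero]
      rw [dl_nil, e, mul_zero, add_zero]
    · subst h
      have e : dl (fun a => Φ a []) l = 0 := by
        unfold Helper11.BC.dl
        exact Finset.sum_eq_zero fun i _ => by
          beta_reduce
          rw [h2, smul_zero]
      rw [dl_nil, e, mul_zero, add_zero]
  · rfl

private theorem Ko_comm (Φ : List X → List Y → ℝ) (l : List X) (m : List Y) :
    dl (fun a => dl (Φ a) m) l = dl (fun b => dl (fun a => Φ a b) l) m := by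
  unfold Helper11.BC.dl
  simp only [smul_eq_mul, Finset.mul_sum]
  rw [Finset.sum_comm]
  refine Finset.sum_congr rfl fun i _ => Finset.sum_congr rfl fun j _ => ?_
  ring

theorem DD_DD (Φ : List X → List Y → ℝ) (h1 : ∀ m, Φ [] m = 0) (h2 : ∀ l, Φ l [] = 0)
    (l : List X) (m : List Y) : DD (DD Φ) l m = 0 := by
  have h3 : ∀ m, DD Φ [] m = 0 := fun m => by
    unfold DD
    rw [if_pos (Or.inl rfl)]
  have h4 : ∀ l, DD Φ l [] = 0 := fun l => by
    unfold DD
    rw [if_pos (Or.inr rfl)]
  rw [Ko_full (DD Φ) h3 h4 l m]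
  have e1 : dl (fun a => DD Φ a m) l = (-1) ^ l.length * dl (fun a => dl (Φ a) m) l := by
    have e2 : dl (fun a => DD Φ a m) l =
        dl (fun a => dl (fun c => Φ c m) a + (-1) ^ l.length * dl (Φ a) m) l := by
      apply dl_congr
      intro t ht
      rw [Ko_full Φ h1 h2 t m, ht]
    rw [e2, dl_add (dl fun c => Φ c m) (fun a => (-1) ^ l.length * dl (Φ a) m) l, dl_dl,
      dl_smul ((-1) ^ l.length) (fun a => dl (Φ a) m) l, zero_add]
  have e3 : dl (DD Φ l) m = dl (fun b => dl (fun a => Φ a b) l) m := by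
    have e4 : DD Φ l = fun b => dl (fun a => Φ a b) l + (-1) ^ (l.length + 1) * dl (Φ l) b := by
      funext b
      exact Ko_full Φ h1 h2 l b
    rw [e4, dl_add (fun b => dl (fun a => Φ a b) l) (fun b => (-1) ^ (l.length + 1) * dl (Φ l) b) m,
      dl_smul ((-1) ^ (l.length + 1)) (dl (Φ l)) m, dl_dl, mul_zero, add_zero]
  rw [e1, e3, Ko_comm, pow_succ]
  ring

end

variable {H G : Type} [Group H] [TopologicalSpace H] [Group G] [TopologicalSpace G]

theorem Ko.sub {k : ℕ} {Φ Ψ : List H → List G → ℝ} (h : Ko k Φ) (h' : Ko k Ψ) :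
    Ko k (fun a b => Φ a b - Ψ a b) := by
  refine ⟨?_, ?_, ?_⟩
  · intro Z W _ _ l m hl hm
    have h1 := cls_PU.add Z W _ _ (h.reg Z W l m hl hm)
      (cls_PU.smul Z W (-1) _ (h'.reg Z W l m hl hm))
    convert h1 using 3
    ring
  · intro a b l m
    show Φ _ _ - Ψ _ _ = Φ _ _ - Ψ _ _
    rw [h.inv, h'.inv]
  · intro l m hlm
    show Φ _ _ - Ψ _ _ = 0
    rw [h.supp l m hlm, h'.supp l m hlm, sub_zero]

theorem Ko.smul {k : ℕ} {Φ : List H → List G → ℝ} (c : ℝ) (h : Ko k Φ) :
    Ko k (fun a b => c * Φ a b) := by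
  refine ⟨?_, ?_, ?_⟩
  · intro Z W _ _ l m hl hm
    exact cls_PU.smul Z W c _ (h.reg Z W l m hl hm)
  · intro a b l m
    show c * Φ _ _ = c * Φ _ _
    rw [h.inv]
  · intro l m hlm
    show c * Φ _ _ = 0
    rw [h.supp l m hlm, mul_zero]

private theorem Ko_dl_map {A B : Type} (φ : List B → ℝ) (f : A → B) (l : List A) :
    dl φ (l.map f) = dl (fun t => φ (t.map f)) l := by
  unfold Helper11.BC.dl
  rw [List.length_map]
  refine Finset.sum_congr rfl fun i _ => ?_
  rw [List.eraseIdx_map]

theorem Ko.DD {k : ℕ} {Φ : List H → List G → ℝ} (h : Ko k Φ) : Ko (k + 1) (BK.DD Φ) := by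
  refine ⟨InK.DD cls_PU h.reg, ?_, ?_⟩
  · intro a b l m
    by_cases hlm : l = [] ∨ m = []
    · unfold BK.DD
      rw [if_pos hlm, if_pos (by simpa using hlm)]
    · unfold BK.DD
      rw [if_neg hlm, if_neg (by simpa using hlm), Ko_dl_map, Ko_dl_map, List.length_map]
      congr 2
      · funext t
        exact h.inv a b t m
      · congr 1
        funext t
        exact h.inv a b l t
  · intro l m hlm
    by_cases hlm' : l = [] ∨ m = []
    · unfold BK.DD
      rw [if_pos hlm']
    · have hl : l ≠ [] := fun h => hlm' (Or.inl h)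
      have hm : m ≠ [] := fun h => hlm' (Or.inr h)
      have hne : l.length + m.length ≠ k + 1 := by
        rcases hlm with h | h | h
        · exact absurd h hl
        · exact absurd h hm
        · exact h
      have e1 : dl (fun a => Φ a m) l = 0 := by
        unfold Helper11.BC.dl
        refine Finset.sum_eq_zero fun i hi => ?_
        beta_reduce
        rw [h.supp (l.eraseIdx i) m, smul_zero]
        right; right
        rw [List.length_eraseIdx_of_lt (Finset.mem_range.1 hi)]
        have := List.length_pos_iff.2 hl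
        omega
      have e2 : dl (Φ l) m = 0 := by
        unfold Helper11.BC.dl
        refine Finset.sum_eq_zero fun i hi => ?_
        rw [h.supp l (m.eraseIdx i), smul_zero]
        right; right
        rw [List.length_eraseIdx_of_lt (Finset.mem_range.1 hi)]
        have := List.length_pos_iff.2 hm
        omega
      rw [DD_of_ne Φ hl hm, e1, e2, mul_zero, add_zero]

theorem Ko_row {k j : ℕ} {Φ : List H → List G → ℝ} (h : Ko k Φ)
    (hj : ∀ l m, m.length ≠ j → Φ l m = 0) (l : List H) : Co j (Φ l) := by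
  obtain ⟨h1, h2⟩ := InK_PU_right h.reg l
  refine ⟨h1, ?_, ?_, fun m hm => hj l m hm⟩
  · obtain ⟨M, hM⟩ := h2 j
    refine ⟨max M 0, fun m => ?_⟩
    by_cases hm : m.length = j
    · exact (hM m hm).trans (le_max_left _ _)
    · rw [hj l m hm, abs_zero]
      exact le_max_right _ _
  · intro g m
    have h3 := h.inv 1 g l m
    simp only [one_mul] at h3
    rw [List.map_id'] at h3
    exact h3

theorem Ko_cut {k : ℕ} {Φ : List H → List G → ℝ} (h : Ko k Φ) (j : ℕ) :
    Ko k (fun l m => if m.length = j then Φ l m else 0) := by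
  refine ⟨?_, ?_, ?_⟩
  · intro Z W _ _ l m hl hm
    by_cases hj : m.length = j
    · have h1 := h.reg Z W l m hl hm
      convert h1 using 3
      beta_reduce
      rw [List.length_map, if_pos hj]
    · have h1 := cls_PU.zero Z W
      convert h1 using 3
      beta_reduce
      rw [List.length_map, if_neg hj]
  · intro a b l m
    show (if (m.map _).length = j then _ else _) = _
    rw [List.length_map]
    split_ifs
    · exact h.inv a b l m
    · rfl
  · intro l m hlm
    show (if m.length = j then _ else _) = _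
    rw [h.supp l m hlm]
    split_ifs <;> rfl

theorem DD_mul {μ : List H → ℝ} {ε : List G → ℝ} {l : List H} {m : List G} (hl : l ≠ [])
    (hm : m ≠ []) : DD (fun a b => μ a * ε b) l m =
      dl μ l * ε m + (-1) ^ (l.length + 1) * (μ l * dl ε m) := by
  rw [DD_of_ne _ hl hm]
  have e1 : (fun a => μ a * ε m) = fun a => ε m * μ a := by
    funext a
    ring
  have e2 := dl_smul (μ l) ε m
  rw [e1, dl_smul (ε m) μ l, e2]
  ring

private theorem Ko_cont {A V : Type} [TopologicalSpace A] [TopologicalSpace V] {φ : List A → ℝ}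
    (h : LC φ) (l : List (V → A)) (hl : ∀ e ∈ l, Continuous e) :
    Continuous fun v => φ (l.map fun e => e v) := by
  have h1 : (fun v => φ (l.map fun e => e v)) =
      fun v => (fun u : Fin l.length → A => φ (List.ofFn u)) (fun i => l.get i v) := by
    funext v
    show φ _ = φ _
    congr 1
    apply List.ext_getElem
    · simp
    · intro i hi1 hi2
      simp
  rw [h1]
  exact (h l.length).comp (continuous_pi fun i => hl _ (List.get_mem l i))

theorem Ko_mul {p j : ℕ} {μ : List H → ℝ} {ε : List G → ℝ} (hμ : Co p μ) (hμ0 : μ [] = 0)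
    (hε : Co (j + 1) ε) : Ko (p + (j + 1)) (fun l m => μ l * ε m) := by
  obtain ⟨M1, hM1⟩ := hμ.bdd
  obtain ⟨M2, hM2⟩ := hε.bdd
  have hM1' : 0 ≤ M1 := (abs_nonneg _).trans (hM1 [])
  have hM2' : 0 ≤ M2 := (abs_nonneg _).trans (hM2 [])
  refine ⟨?_, ?_, ?_⟩
  · intro Z W _ _ l m hl hm
    refine ⟨⟨M1 * M2, fun z w => ?_⟩, fun z => ?_, fun z₀ δ hδ => ?_⟩
    · rw [abs_mul]
      exact mul_le_mul (hM1 _) (hM2 _) (abs_nonneg _) hM1'
    · exact continuous_const.mul (Ko_cont hε.cont m hm)
    · have hc := (Ko_cont hμ.cont l hl).continuousAt (x := z₀)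
      have h1 : 0 < δ / (M2 + 1) := by positivity
      have h2 := Metric.continuousAt_iff'.1 hc (δ / (M2 + 1)) h1
      filter_upwards [h2] with z hz
      intro w
      rw [Real.dist_eq] at hz
      show |μ _ * ε _ - μ _ * ε _| ≤ δ
      rw [← sub_mul, abs_mul]
      calc |μ (l.map fun e => e z) - μ (l.map fun e => e z₀)| * |ε (m.map fun e => e w)| ≤
          δ / (M2 + 1) * M2 := mul_le_mul hz.le (hM2 _) (abs_nonneg _) h1.le
        _ ≤ δ / (M2 + 1) * (M2 + 1) := by
            apply mul_le_mul_of_nonneg_left _ h1.le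
            linarith
        _ = δ := div_mul_cancel₀ _ (by positivity)
  · intro a b l m
    show μ _ * ε _ = μ _ * ε _
    rw [hμ.inv, hε.inv]
  · intro l m hlm
    show μ l * ε m = 0
    by_cases h1 : l.length = p
    · by_cases h2 : m.length = j + 1
      · rcases hlm with h | h | h
        · rw [h, hμ0, zero_mul]
        · rw [h] at h2
          simp at h2
        · exact absurd (by rw [h1, h2]) h
      · rw [hε.supp m h2, mul_zero]
    · rw [hμ.supp l h1, zero_mul]

end Pool.Agent.Helper87.BK
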