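import Pool.Agent.Helper87.BK.Reg1
import Pool.Agent.Helper87.BK.AS

/-!
# Project BK: regularity of the homotopy (piece BK-REG2)

* `FC_awsh`: `FC_sh`, `FK_aw` (Reg1), and for the empty list the value of `F` (`hP.add`, `hP.zero`).
* `InC.hm`: for all `n` and all families with `FC P F`: for all `Z`, `W`, `p`, `q`, `l` as in `FC` the
  family `fun z w => hmn awsh n (F (p z) (q w)) (l.map fun e => (e.1 z, e.2 w))` is in `P`.
  Induction on `n`, generalizing everything.  Step for the list `e :: l`: the family
  `F' (z, x) (w, y) t = F z w ((x, y) :: t)` satisfies `FC P F'` (`FC_cons`); the three terms are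
  `awsh (F' (p z, e.1 z) (q w, e.2 w)) (e :: l)` (by `FC_awsh`), the value
  `F (p z) (q w) (e :: e :: l)`, and the finite sum `dl` of the values of `hmn awsh n (F' ..)` at the
  lists `(e :: l).eraseIdx i` (`List.eraseIdx_map`, induction hypothesis).
-/

open scoped Topology

namespace Pool.Agent.Helper87.BK
open Pool.Agent.Helper11.BC (dl)
open Pool.Agent.Helper87.BCR

variable {X Y : Type} [TopologicalSpace X] [TopologicalSpace Y]
variable {P : ∀ (Z W : Type) [TopologicalSpace Z] [TopologicalSpace W], (Z → W → ℝ) → Prop}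

private theorem reg2_sum (hP : Cls P) (Z W : Type) [TopologicalSpace Z] [TopologicalSpace W]
    (s : Finset ℕ) (F : ℕ → Z → W → ℝ) (h : ∀ i ∈ s, P Z W (F i)) :
    P Z W fun z w => ∑ i ∈ s, F i z w := by
  classical
  induction s using Finset.induction_on with
  | empty =>
    simp only [Finset.sum_empty]
    exact hP.zero Z W
  | insert a s ha ih =>
    have e : (fun (z : Z) (w : W) => ∑ i ∈ insert a s, F i z w) =
        fun z w => F a z w + ∑ i ∈ s, F i z w := by
      funext z w
      exact Finset.sum_insert ha
    rw [e]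
    exact hP.add Z W _ _ (h a (Finset.mem_insert_self a s))
      (ih fun i hi => h i (Finset.mem_insert_of_mem hi))

theorem FC_awsh (hP : Cls P) {Z₀ W₀ : Type} [TopologicalSpace Z₀] [TopologicalSpace W₀]
    {F : Z₀ → W₀ → List (X × Y) → ℝ} (hF : FC P F) : FC P (fun z w => awsh (F z w)) := by
  intro Z W _ _ p q hp hq l hl
  have h2 := FK_aw hP (FC_sh hP hF) Z W p q hp hq l hl
  have h1 : P Z W fun z w =>
      (if (l.map fun e => (e.1 z, e.2 w)) = [] then F (p z) (q w) [] else 0) := by
    cases l with
    | nil =>
      have h3 := hF Z W p q hp hq [] (by simp)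
      simpa using h3
    | cons e l =>
      have h3 := hP.zero Z W
      simpa using h3
  exact hP.add Z W _ _ h1 h2

private theorem reg2_hmn (hP : Cls P) : ∀ (n : ℕ) (Z₀ W₀ : Type) [TopologicalSpace Z₀]
    [TopologicalSpace W₀] (F : Z₀ → W₀ → List (X × Y) → ℝ), FC P F →
    FC P (fun z w => hmn awsh n (F z w)) := by
  intro n
  induction n with
  | zero =>
    intro Z₀ W₀ _ _ F hF Z W _ _ p q hp hq l hl
    exact hP.zero Z W
  | succ n ih =>
    intro Z₀ W₀ _ _ F hF Z W _ _ p q hp hq l hl
    cases l with
    | nil => exact hP.zero Z W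
    | cons e l =>
      have he := hl e List.mem_cons_self
      have hp' : Continuous fun z : Z => (p z, e.1 z) := hp.prodMk he.1
      have hq' : Continuous fun w : W => (q w, e.2 w) := hq.prodMk he.2
      have hF' := FC_cons hF
      have h1 := FC_awsh hP hF' Z W _ _ hp' hq' (e :: l) hl
      have h2 := hF Z W p q hp hq (e :: e :: l) (by
        intro a ha
        rcases List.mem_cons.1 ha with rfl | ha
        · exact he
        · exact hl a ha)
      have h3 : P Z W fun z w => dl (hmn awsh n fun t => F (p z) (q w) ((e.1 z, e.2 w) :: t))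
          ((e :: l).map fun e => (e.1 z, e.2 w)) := by
        have h4 : (fun (z : Z) (w : W) =>
            dl (hmn awsh n fun t => F (p z) (q w) ((e.1 z, e.2 w) :: t))
              ((e :: l).map fun e => (e.1 z, e.2 w))) =
            fun z w => ∑ i ∈ Finset.range (e :: l).length, (-1 : ℝ) ^ i *
              hmn awsh n (fun t => F (p z) (q w) ((e.1 z, e.2 w) :: t))
                (((e :: l).eraseIdx i).map fun e => (e.1 z, e.2 w)) := by
          funext z w
          rw [dl, List.length_map]
          refine Finset.sum_congr rfl fun i _ => ?_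
          rw [smul_eq_mul, List.eraseIdx_map]
        rw [h4]
        refine reg2_sum hP Z W _ _ fun i _ => ?_
        refine hP.smul Z W _ _ ?_
        exact ih (Z₀ × X) (W₀ × Y) _ hF' Z W _ _ hp' hq' ((e :: l).eraseIdx i)
          fun a ha => hl a (List.mem_of_mem_eraseIdx ha)
      have h5 : (fun (z : Z) (w : W) => hmn awsh (n + 1) (F (p z) (q w))
          ((e :: l).map fun e => (e.1 z, e.2 w))) = fun z w =>
          (awsh (fun t => F (p z) (q w) ((e.1 z, e.2 w) :: t))
            ((e :: l).map fun e => (e.1 z, e.2 w)) +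
            (-1 : ℝ) * F (p z) (q w) ((e :: e :: l).map fun e => (e.1 z, e.2 w))) +
          (-1 : ℝ) * dl (hmn awsh n fun t => F (p z) (q w) ((e.1 z, e.2 w) :: t))
            ((e :: l).map fun e => (e.1 z, e.2 w)) := by
        funext z w
        simp only [List.map_cons, hmn]
        ring
      rw [h5]
      exact hP.add Z W _ _ (hP.add Z W _ _ h1 (hP.smul Z W _ _ h2)) (hP.smul Z W _ _ h3)

theorem InC.hm (hP : Cls P) {f : List (X × Y) → ℝ} (hf : InC P f) :
    InC P (BK.hm awsh f) := by
  intro Z W _ _ l hl
  have hF : FC P (fun (_ : Unit) (_ : Unit) => f) := by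
    intro Z W _ _ p q _ _ l hl
    exact hf Z W l hl
  have h := reg2_hmn hP l.length Unit Unit (fun (_ : Unit) (_ : Unit) => f) hF Z W
    (fun _ => ()) (fun _ => ()) continuous_const continuous_const l hl
  have e : (fun (z : Z) (w : W) => BK.hm awsh f (l.map fun e => (e.1 z, e.2 w))) =
      fun z w => hmn awsh l.length f (l.map fun e => (e.1 z, e.2 w)) := by
    funext z w
    rw [BK.hm, List.length_map]
  rw [e]
  exact h

end Pool.Agent.Helper87.BK
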