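import Pool.Agent.Helper87.BK.Basic

/-!
# Project BK: smoothing in the first factor (piece BK-SMOOTH)

`T1st T φ (h, g) = T (fun x => φ (x, g)) h`.
* `T1st_mk`: `const`, `add`, `smul`, `bdd` from `Mk H T` for the functions `fun x => φ (x, g)`; `cont`:
  apply `Mk.cont` with the parameter space `Z × G` and `fun (z, g) x => f z (x, g)`.
* `T1st_left`.
* `smooth_reg`: let `|f t| ≤ M` for the lists of length `k` (`M ≥ 0`).  For `l : List ((Z → H) × (W → G))`
  write `L z w = l.map fun e => (e.1 z, e.2 w)`.  Bound: `tens_abs_le`.  Continuity in `w`: `f` is `LC`,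
  so `tens (T1st T) f` is `LC` (`BCR.LC.tens`; `LC_to_list`: a list of continuous functions of `w`
  gives a continuous map to `Fin k → H × G`).  Uniform continuity in `z`: for every function `f` which
  is `LC` and bounded by `M` on lists of length `k = |l|`, every `z₀` and `ε`, induction on `l`: for
  `e :: l` put `A z w y = tens (T1st T) (fun t => f (y :: t)) (L z w)`; then
  `tens (T1st T) f (e z w :: L z w) - tens (T1st T) f (e z₀ w :: L z₀ w)
   = [T1st T (A z w) (e z w) - T1st T (A z w) (e z₀ w)] + T1st T (A z w - A z₀ w) (e z₀ w)`.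
  The first term is `≤ ε / 2` for `z` near `z₀`, by `equi` for the point `e.1 z₀` (pull back the
  neighbourhood along `e.1`) applied to `φ = (M + 1)⁻¹ * A z w (·, e.2 w)`.  The second one is
  `≤ sup_y |A z w y - A z₀ w y|`: prove the induction claim uniformly for the whole family: for all `l`
  and `ε > 0` there is a neighbourhood of `z₀` such that for all `z` in it, all `w` and ALL `f` with
  `LC f` and `|f| ≤ M` on lists of length `|l|`, `|tens (T1st T) f (L z w) - tens (T1st T) f (L z₀ w)| ≤ ε`.
-/

open scoped Topology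

namespace Pool.Agent.Helper87.BK
open Pool.Agent.Helper11.BC (dl)
open Pool.Agent.Helper87.BCR

variable {H G : Type} [Group H] [TopologicalSpace H] [Group G] [TopologicalSpace G]

/-- The operator `T` in the first factor. -/
def T1st (T : (H → ℝ) → H → ℝ) (φ : H × G → ℝ) (p : H × G) : ℝ :=
  T (fun x => φ (x, p.2)) p.1

theorem T1st_mk {T : (H → ℝ) → H → ℝ} (hT : Mk H T) [FirstCountableTopology G] :
    Mk (H × G) (T1st T) where
  const := fun c x => hT.const c x.1
  add := fun f g M hf hg hfM hgM x =>
    hT.add (fun y => f (y, x.2)) (fun y => g (y, x.2)) M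
      (hf.comp (continuous_id.prodMk continuous_const))
      (hg.comp (continuous_id.prodMk continuous_const)) (fun y => hfM _) (fun y => hgM _) x.1
  smul := fun c f M hf hfM x =>
    hT.smul c (fun y => f (y, x.2)) M (hf.comp (continuous_id.prodMk continuous_const))
      (fun y => hfM _) x.1
  bdd := fun f M hf hfM x =>
    hT.bdd (fun y => f (y, x.2)) M (hf.comp (continuous_id.prodMk continuous_const))
      (fun y => hfM _) x.1
  cont := by
    intro Z _ _ f M hf hfM
    have h1 : Continuous fun p : (Z × G) × H => f p.1.1 (p.2, p.1.2) := by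
      have h2 : Continuous fun p : (Z × G) × H => ((p.1.1, (p.2, p.1.2)) : Z × (H × G)) := by
        fun_prop
      exact hf.comp h2
    have h3 := hT.cont (Z × G) (fun q x => f q.1 (x, q.2)) M h1 fun q x => hfM _ _
    have h4 : Continuous fun p : Z × (H × G) => (((p.1, p.2.2), p.2.1) : (Z × G) × H) := by
      fun_prop
    exact h3.comp h4

theorem T1st_left {T : (H → ℝ) → H → ℝ} (hT : Smt T) (φ : H × G → ℝ) (M : ℝ) (a p : H × G)
    (hc : Continuous φ) (hb : ∀ x, |φ x| ≤ M) (hm : Continuous fun q : G => a.2 * q) :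
    T1st T (fun x => φ (a * x)) p = T1st T φ (a * p) := by
  have _ := hm
  exact hT.left (fun x => φ (x, a.2 * p.2)) M a.1 p.1
    (hc.comp (continuous_id.prodMk continuous_const)) fun x => hb _

private theorem smooth_cont [FirstCountableTopology H] [FirstCountableTopology G]
    {T : (H → ℝ) → H → ℝ} (hT : Smt T) {f : List (H × G) → ℝ} (hc : LC f) {M : ℝ}
    (l : List (H × G)) (hM : ∀ m : List (H × G), m.length = l.length + 1 → |f m| ≤ M) :
    (Continuous fun y : H × G => tens (T1st (G := G) T) (fun t => f (y :: t)) l) ∧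
      ∀ y : H × G, |tens (T1st (G := G) T) (fun t => f (y :: t)) l| ≤ M := by
  obtain ⟨v, hv⟩ := exists_ofFn l rfl
  have h1 := tens_joint (T1st_mk (G := G) hT.op) l.length (Unit × (H × G)) _ hc.JC.cons M
    (fun z m hm => hM _ (by rw [List.length_cons, hm]))
  refine ⟨?_, fun y => h1.2 ((), y) l rfl⟩
  have h2 := h1.1.comp (f := fun y : H × G => (((), y), v))
    ((continuous_const.prodMk continuous_id).prodMk continuous_const)
  refine h2.congr fun y => ?_
  simp only [Function.comp]
  rw [hv]

private theorem smooth_equi [FirstCountableTopology H] [FirstCountableTopology G]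
    {T : (H → ℝ) → H → ℝ} (hT : Smt T) {Z W : Type} [TopologicalSpace Z] [TopologicalSpace W]
    (z₀ : Z) (M : ℝ) (l : List ((Z → H) × (W → G))) :
    (∀ e ∈ l, Continuous e.1 ∧ Continuous e.2) → ∀ ε > 0, ∀ᶠ z in 𝓝 z₀, ∀ w : W,
      ∀ f : List (H × G) → ℝ, LC f → (∀ m : List (H × G), m.length = l.length → |f m| ≤ M) →
      |tens (T1st (G := G) T) f (l.map fun e => (e.1 z, e.2 w)) -
        tens (T1st (G := G) T) f (l.map fun e => (e.1 z₀, e.2 w))| ≤ ε := by
  induction l with
  | nil =>
    intro _ ε hε
    refine Filter.Eventually.of_forall fun z w f _ _ => ?_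
    simp only [List.map_nil, sub_self, abs_zero]
    exact hε.le
  | cons e l ih =>
    intro hl ε hε
    have hc0 : 0 < |M| + 1 := by positivity
    have h1 := ih (fun e' he' => hl e' (List.mem_cons_of_mem _ he')) (ε / 2) (by positivity)
    have h2 := hT.equi (e.1 z₀) (ε / 2 / (|M| + 1)) (by positivity)
    have h3 := ((hl e List.mem_cons_self).1.tendsto z₀).eventually h2
    filter_upwards [h1, h3] with z hz1 hz2 w f hf hfM
    have hlen : ∀ z' : Z, (l.map fun e => ((e.1 z', e.2 w) : H × G)).length = l.length :=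
      fun z' => List.length_map _
    obtain ⟨ca, ba⟩ := smooth_cont hT hf (l.map fun e => (e.1 z, e.2 w)) (M := M)
      (fun m hm => hfM m (by rw [hm, hlen, List.length_cons]))
    obtain ⟨cb, bb⟩ := smooth_cont hT hf (l.map fun e => (e.1 z₀, e.2 w)) (M := M)
      (fun m hm => hfM m (by rw [hm, hlen, List.length_cons]))
    set A : H → ℝ := fun x =>
      tens (T1st (G := G) T) (fun t => f ((x, e.2 w) :: t)) (l.map fun e => (e.1 z, e.2 w))
      with hA
    set B : H → ℝ := fun x =>
      tens (T1st (G := G) T) (fun t => f ((x, e.2 w) :: t)) (l.map fun e => (e.1 z₀, e.2 w))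
      with hB
    have cA : Continuous A := ca.comp (continuous_id.prodMk continuous_const)
    have cB : Continuous B := cb.comp (continuous_id.prodMk continuous_const)
    have bA : ∀ x, |A x| ≤ M := fun x => ba _
    have bB : ∀ x, |B x| ≤ M := fun x => bb _
    have eA : tens (T1st (G := G) T) f ((e :: l).map fun e => (e.1 z, e.2 w)) =
        T A (e.1 z) := rfl
    have eB : tens (T1st (G := G) T) f ((e :: l).map fun e => (e.1 z₀, e.2 w)) =
        T B (e.1 z₀) := rfl
    rw [eA, eB]
    have s1 : |T A (e.1 z) - T A (e.1 z₀)| ≤ ε / 2 := by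
      have hA2 : A = fun x => (|M| + 1) * ((|M| + 1)⁻¹ * A x) := by
        funext x
        field_simp
      have cA' : Continuous fun x => (|M| + 1)⁻¹ * A x := continuous_const.mul cA
      have bA' : ∀ x, |(|M| + 1)⁻¹ * A x| ≤ 1 := by
        intro x
        rw [abs_mul, abs_of_pos (inv_pos.mpr hc0), inv_mul_le_iff₀ hc0, mul_one]
        exact (bA x).trans ((le_abs_self M).trans (by linarith))
      have h5 : ∀ h : H, T A h = (|M| + 1) * T (fun x => (|M| + 1)⁻¹ * A x) h := by
        intro h
        conv_lhs => rw [hA2]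
        exact hT.op.smul _ _ 1 cA' bA' h
      rw [h5, h5, ← mul_sub, abs_mul, abs_of_pos hc0]
      have h6 := hz2 _ cA' bA'
      calc (|M| + 1) * |T (fun x => (|M| + 1)⁻¹ * A x) (e.1 z) -
            T (fun x => (|M| + 1)⁻¹ * A x) (e.1 z₀)|
          ≤ (|M| + 1) * (ε / 2 / (|M| + 1)) := mul_le_mul_of_nonneg_left h6 hc0.le
        _ = ε / 2 := by field_simp
    have s2 : |T A (e.1 z₀) - T B (e.1 z₀)| ≤ ε / 2 := by
      have h5 : T (fun x => A x + (-1) * B x) (e.1 z₀) = T A (e.1 z₀) - T B (e.1 z₀) := by
        rw [hT.op.add A (fun x => (-1) * B x) M cA (continuous_const.mul cB) bA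
          (fun x => by rw [abs_mul, abs_neg, abs_one, one_mul]; exact bB x),
          hT.op.smul (-1) B M cB bB]
        ring
      rw [← h5]
      refine hT.op.bdd (fun x => A x + (-1) * B x) (ε / 2) (cA.add (continuous_const.mul cB))
        (fun x => ?_) (e.1 z₀)
      have h6 := hz1 w (fun t => f ((x, e.2 w) :: t)) (hf.cons _)
        (fun m hm => hfM _ (by rw [List.length_cons, hm, List.length_cons]))
      have h7 : A x + (-1) * B x = A x - B x := by ring
      rw [h7]
      exact h6
    have h8 : T A (e.1 z) - T B (e.1 z₀) =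
        (T A (e.1 z) - T A (e.1 z₀)) + (T A (e.1 z₀) - T B (e.1 z₀)) := by ring
    rw [h8]
    refine (abs_add_le _ _).trans ?_
    linarith

theorem smooth_reg [FirstCountableTopology H] [FirstCountableTopology G]
    {T : (H → ℝ) → H → ℝ} (hT : Smt T) {f : List (H × G) → ℝ} (hc : LC f) (hb : LB f) :
    InC PUc (tens (T1st (G := G) T) f) := by
  intro Z W _ _ l hl
  obtain ⟨M, hM⟩ := hb l.length
  refine ⟨⟨M, fun z w => ?_⟩, fun z => ?_, fun z₀ ε hε => ?_⟩
  · refine tens_abs_le (T1st_mk hT.op) hc fun m hm => hM m ?_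
    rw [hm, List.length_map]
  · have h1 := (hc.tens (T1st_mk (G := G) hT.op) hb) l.length
    have h2 : Continuous fun w : W => fun i : Fin l.length =>
        (((l.get i).1 z, (l.get i).2 w) : H × G) := by
      refine continuous_pi fun i => continuous_const.prodMk ?_
      exact (hl _ (List.get_mem l i)).2
    refine (h1.comp h2).congr fun w => ?_
    simp only [Function.comp]
    congr 1
    have h3 : (fun i : Fin l.length => (((l.get i).1 z, (l.get i).2 w) : H × G)) =
        (fun e : (Z → H) × (W → G) => ((e.1 z, e.2 w) : H × G)) ∘ l.get := rfl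
    rw [h3, ← List.map_ofFn, List.ofFn_get]
  · filter_upwards [smooth_equi hT z₀ M l hl ε hε] with z hz w
    exact hz w f hc hM

end Pool.Agent.Helper87.BK
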