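import Pool.Agent.Helper87.BK.Chase3
import Pool.Agent.Helper87.BK.Smooth
import Pool.Agent.Helper87.BK.Reg2

/-!
# Project BK: the Kuenneth formula on lists (piece BK-KUN)

Let `T' = T1st T` (`Smooth.lean`), `f' = tens T' f`.
1. `f'` is `Co (n + 1)`: `LC.tens`, `tens_abs_le`, `tens_map` with `T1st_left`, support
   (`tens_congr_length` with the zero function, `T'` of the zero function is zero); `dl f' = 0`
   (`Lin.tens_dl` for `Mk.lin (T1st_mk hT.op)`), `InC PUc f'` (`smooth_reg`), and
   `f' l - f l = dl (pri T' f) l` (`prism_of_dl_eq_zero`).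
2. `Φ = sh f'` is `Ko (n + 2)` (`InC.sh cls_PU`, `sh_map`, `sh_nil_left`, `sh_nil_right`, `sh_congr` for
   the support) and `DD Φ = 0`: `sh_dl` with `f' [] = 0` and `dl f' = 0`.
3. `normal_form`: `Φ = DD Ψ + μ₀ ⊗ 1 + μ₂ ⊗ e`.  Apply `aw`: `aw (DD Ψ) = dl (aw Ψ)` (`aw_dl`),
   `aw (μ₀ ⊗ 1) l = μ₀ (l.map Prod.fst)` (`aw_eq` with `j = 0`, for `l ≠ []`).
4. `f' l = awsh f' l - dl (hm awsh f') l - hm awsh (dl f') l` (`hm_homotopy` with `awsh_sub`,
   `awsh_dl`, `awsh_nil`), `hm awsh (dl f') = hm awsh 0 = 0`, and `awsh f' l = aw (sh f') l`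
   (`f' [] = 0`).
5. `h = aw Ψ - hm awsh f' - pri T' f`, cut to lists of length `n`; `Co n`: regularity `InK.aw`,
   `InC.hm`, `InC_PU_LC`, `LC.pri`; invariance `aw_map`, `hm_map` with `awsh_map`, `pri_map`; only lists
   of length `n` matter in `dl h l` for `l.length = n + 1`, and for other `l` all terms vanish
   (`aw Ψ l = 0` unless `l.length = n`: `aw_congr`).
-/

open scoped Topology

namespace Pool.Agent.Helper87.BK
open Pool.Agent.Helper11.BC (dl)
open Pool.Agent.Helper87.BCR

variable {H G : Type} [Group H] [TopologicalSpace H] [IsTopologicalGroup H]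
  [FirstCountableTopology H] [Group G] [TopologicalSpace G]
  [IsTopologicalGroup G] [FirstCountableTopology G]

omit [IsTopologicalGroup H] [FirstCountableTopology H] [IsTopologicalGroup G]
  [FirstCountableTopology G] in
private theorem Kun_cut {A : List (H × G) → ℝ} (n : ℕ) (hc : LC A)
    (hb : ∃ M : ℝ, ∀ l, l.length = n → |A l| ≤ M) (hi : ∀ g l, A (l.map (g * ·)) = A l) :
    Co n (fun l => if l.length = n then A l else 0) where
  cont := by
    intro k
    by_cases h : k = n
    · refine (hc k).congr fun v => ?_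
      show _ = if (List.ofFn v).length = n then A (List.ofFn v) else 0
      rw [if_pos (by rw [List.length_ofFn, h])]
    · refine (continuous_const (y := (0 : ℝ))).congr fun v => ?_
      show _ = if (List.ofFn v).length = n then A (List.ofFn v) else 0
      rw [if_neg (by rw [List.length_ofFn]; exact h)]
  bdd := by
    obtain ⟨M, hM⟩ := hb
    refine ⟨max M 0, fun l => ?_⟩
    show |if l.length = n then A l else 0| ≤ max M 0
    split_ifs with h
    · exact (hM l h).trans (le_max_left _ _)
    · rw [abs_zero]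
      exact le_max_right _ _
  inv := by
    intro g l
    show (if (l.map (g * ·)).length = n then A (l.map (g * ·)) else 0) = _
    rw [hi, List.length_map]
  supp := fun l h => if_neg h

omit [Group H] [TopologicalSpace H] [IsTopologicalGroup H] [FirstCountableTopology H] [Group G]
  [TopologicalSpace G] [IsTopologicalGroup G] [FirstCountableTopology G] in
private theorem Kun_zero (l : List (H × G)) : dl (fun _ : List (H × G) => (0 : ℝ)) l = 0 := by
  have h := dl_smul 0 (fun _ : List (H × G) => (0 : ℝ)) l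
  simpa using h

omit [Group H] [TopologicalSpace H] [IsTopologicalGroup H] [FirstCountableTopology H] [Group G]
  [TopologicalSpace G] [IsTopologicalGroup G] [FirstCountableTopology G] in
private theorem Kun_dl_cut (A : List (H × G) → ℝ) (n : ℕ) (l : List (H × G)) :
    dl (fun l => if l.length = n then A l else 0) l = if l.length = n + 1 then dl A l else 0 := by
  split_ifs with h
  · refine dl_congr _ _ l fun t ht => ?_
    rw [if_pos (by omega)]
  · refine Eq.trans (dl_congr _ _ l fun t ht => ?_) (Kun_zero l)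
    rw [if_neg (by omega)]

omit [Group H] [TopologicalSpace H] [IsTopologicalGroup H] [FirstCountableTopology H] [Group G]
  [TopologicalSpace G] [IsTopologicalGroup G] [FirstCountableTopology G] in
private theorem Kun_aw_zero (Φ : List H → List G → ℝ) (l : List (H × G))
    (h : ∀ a b, a ≠ [] → b ≠ [] → a.length + b.length = l.length + 1 → Φ a b = 0) :
    aw Φ l = 0 := by
  have h1 : aw Φ l = aw (fun a b => 0 * Φ a b) l := by
    refine aw_congr _ _ l fun a b ha hb hab => ?_
    rw [h a b ha hb hab, mul_zero]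
  rw [h1, aw_smul, zero_mul]

omit [Group H] [TopologicalSpace H] [IsTopologicalGroup H] [FirstCountableTopology H] [Group G]
  [TopologicalSpace G] [IsTopologicalGroup G] [FirstCountableTopology G] in
private theorem Kun_sh_zero (f : List (H × G) → ℝ) (l : List H) (m : List G)
    (h : ∀ t : List (H × G), t.length + 1 = l.length + m.length → f t = 0) :
    sh f l m = 0 := by
  have h1 : sh f l m = sh (fun t => 0 * f t) l m := by
    refine sh_congr _ _ l m fun t ht => ?_
    rw [h t ht, mul_zero]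
  rw [h1, sh_smul, zero_mul]

omit [IsTopologicalGroup H] [FirstCountableTopology H] [IsTopologicalGroup G]
  [FirstCountableTopology G] in
private theorem Kun_add {n : ℕ} {A B : List (H × G) → ℝ} (hA : Co n A) (hB : Co n B) :
    Co n (fun l => A l + B l) where
  cont := fun k => (hA.cont k).add (hB.cont k)
  bdd := by
    obtain ⟨M, hM⟩ := hA.bdd
    obtain ⟨M', hM'⟩ := hB.bdd
    exact ⟨M + M', fun l => (abs_add_le _ _).trans (add_le_add (hM l) (hM' l))⟩
  inv := fun g l => by
    show A (l.map (g * ·)) + B (l.map (g * ·)) = _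
    rw [hA.inv, hB.inv]
  supp := fun l h => by
    show A l + B l = 0
    rw [hA.supp l h, hB.supp l h, add_zero]

private theorem Kun_smooth {T : (H → ℝ) → H → ℝ} (hT : Smt T) {n : ℕ}
    (f : List (H × G) → ℝ) (hf : Cy (n + 1) f) :
    Cy (n + 1) (tens (T1st (G := G) T) f) ∧ InC PUc (tens (T1st (G := G) T) f) ∧
      ∃ r : List (H × G) → ℝ, Co n r ∧ ∀ l, f l = tens (T1st (G := G) T) f l + dl r l := by
  obtain ⟨hco, hdl⟩ := hf
  obtain ⟨M, hM⟩ := hco.bdd
  have hb : LB f := LB.of_bdd hM
  have hc := hco.cont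
  have hMk : Mk (H × G) (T1st (G := G) T) := T1st_mk hT.op
  have ha : ∀ g : H × G, ∀ (φ : H × G → ℝ) (M : ℝ), Continuous φ → (∀ x, |φ x| ≤ M) →
      ∀ x, T1st (G := G) T (fun y => φ (g * y)) x = T1st (G := G) T φ (g * x) := by
    intro g φ M hφ hφb x
    exact T1st_left hT φ M g x hφ hφb (continuous_const_mul g.2)
  have hz : ∀ l, tens (T1st (G := G) T) (fun _ => (0 : ℝ)) l = 0 := by
    intro l
    induction l with
    | nil => rfl
    | cons x l ih =>
      simp only [BCR.tens]
      simp only [ih]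
      exact hMk.const 0 x
  have hinvf : ∀ g : H × G, (fun m : List (H × G) => f (m.map (g * ·))) = f := fun g =>
    funext fun m => hco.inv g m
  have hCo : Co (n + 1) (tens (T1st (G := G) T) f) := by
    refine ⟨hc.tens hMk hb, ⟨M, fun l => tens_abs_le hMk hc fun m _ => hM m⟩, ?_, ?_⟩
    · intro g l
      rw [← tens_map hMk (g * ·) (ha g) l f hc hb, hinvf]
    · intro l hl
      rw [← hz l]
      exact tens_congr_length l _ _ fun m hm => hco.supp m (by rw [hm]; exact hl)
  have hdl0 : (dl f) = fun _ => 0 := funext hdl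
  have hCy : Cy (n + 1) (tens (T1st (G := G) T) f) := by
    refine ⟨hCo, fun l => ?_⟩
    rw [← (Mk.lin hMk).tens_dl l f ⟨hc, hb⟩, hdl0, hz]
  refine ⟨hCy, smooth_reg hT hc hb,
    fun l => if l.length = n then - pri (T1st (G := G) T) f l else 0, ?_, ?_⟩
  · apply Kun_cut
    · intro k
      exact ((hc.pri hMk hb) k).neg
    · refine ⟨n * M, fun l hl => ?_⟩
      rw [abs_neg, ← hl]
      exact pri_abs_le hMk hc hM
    · intro g l
      rw [← pri_map hMk (g * ·) (ha g) l f hc hb, hinvf]
  · intro l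
    rw [Kun_dl_cut]
    split_ifs with h
    · have e1 : dl (fun l => - pri (T1st (G := G) T) f l) l =
          - dl (pri (T1st (G := G) T) f) l := by
        have := dl_smul (-1) (pri (T1st (G := G) T) f) l
        simpa using this
      rw [e1, prism_of_dl_eq_zero hMk hc hb hdl]
      ring
    · rw [hco.supp l h, hCo.supp l h, add_zero]

/-- The passage to the double complex. -/
theorem to_double {T : (H → ℝ) → H → ℝ} (hT : Smt T) {n : ℕ} (hn : 1 ≤ n)
    (f : List (H × G) → ℝ) (hf : Cy (n + 1) f) :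
    ∃ (f' : List (H × G) → ℝ) (r : List (H × G) → ℝ), Cy (n + 1) f' ∧ Co n r ∧
      Ko (n + 2) (sh f') ∧ (∀ l m, DD (sh f') l m = 0) ∧
      (∀ l, f l = f' l + dl r l) ∧ ∃ r' : List (H × G) → ℝ, Co n r' ∧
      ∀ l, f' l = aw (sh f') l + dl r' l := by
  obtain ⟨hCy, hIn, r, hr, hfr⟩ := Kun_smooth hT f hf
  set f' := tens (T1st (G := G) T) f with hf'
  obtain ⟨hco, hdl⟩ := hCy
  have hnil : f' [] = 0 := hco.supp [] (by simp)
  have hdl0 : (dl f') = fun _ => 0 := funext hdl
  have hinvf : ∀ g : H × G, (fun m : List (H × G) => f' (m.map (g * ·))) = f' := fun g =>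
    funext fun m => hco.inv g m
  have hsupp : ∀ (l : List H) (m : List G), l = [] ∨ m = [] ∨ l.length + m.length ≠ n + 2 →
      sh f' l m = 0 := by
    rintro l m (h | h | h)
    · rw [h, sh_nil_left]
    · rw [h, sh_nil_right]
    · exact Kun_sh_zero _ _ _ fun t ht => hco.supp t (by omega)
  have hKo : Ko (n + 2) (sh f') := by
    refine ⟨hIn.sh cls_PU, ?_, hsupp⟩
    intro h g l m
    rw [← sh_map]
    exact congrArg (fun u => sh u l m) (hinvf (h, g))
  have hhm : Co n (fun l => if l.length = n then - hm awsh f' l else 0) := by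
    obtain ⟨h1, h2⟩ := InC_PU_LC (hIn.hm cls_PU)
    apply Kun_cut
    · intro k
      exact (h1 k).neg
    · obtain ⟨M, hM⟩ := h2 n
      exact ⟨M, fun l hl => by rw [abs_neg]; exact hM l hl⟩
    · intro g l
      have h3 := hm_map awsh (g * ·) (fun u t => awsh_map u (g.1 * ·) (g.2 * ·) t) f' l
      rw [← h3, hinvf]
  refine ⟨f', r, ⟨hco, hdl⟩, hr, hKo, ?_, hfr, _, hhm, ?_⟩
  · intro l m
    have h1 := sh_dl f' l m
    rw [hnil, ite_self, add_zero] at h1
    rw [← h1, hdl0]
    exact Kun_sh_zero _ _ _ fun _ _ => rfl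
  · intro l
    rw [Kun_dl_cut]
    split_ifs with h
    · have e1 : dl (fun l => - hm awsh f' l) l = - dl (hm awsh f') l := by
        have := dl_smul (-1) (hm awsh f') l
        simpa using this
      have e2 := hm_homotopy awsh awsh_sub awsh_dl awsh_nil f' l
      have e3 : hm awsh (dl f') l = 0 := by
        have h3 := hm_sub awsh awsh_sub f' f' l
        have h4 : (fun t => f' t - f' t) = fun _ => (0 : ℝ) := funext fun t => sub_self _
        rw [sub_self, h4] at h3
        rw [hdl0]
        exact h3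
      have e4 : awsh f' l = aw (sh f') l := by
        unfold awsh
        rw [hnil, ite_self, zero_add]
      rw [e1]
      rw [e3, e4, add_zero] at e2
      linarith
    · rw [hco.supp l h, Kun_aw_zero, add_zero]
      intro a b _ _ hab
      exact hsupp a b (Or.inr (Or.inr (by omega)))

theorem aw_Ko {k : ℕ} {Ψ : List H → List G → ℝ} (h : Ko (k + 1) Ψ) : Co k (aw Ψ) := by
  obtain ⟨h1, h2⟩ := InC_PU_LC (h.reg.aw cls_PU)
  have hs : ∀ l : List (H × G), l.length ≠ k → aw Ψ l = 0 := by
    intro l hl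
    apply Kun_aw_zero
    intro a b _ _ hab
    exact h.supp a b (Or.inr (Or.inr (by omega)))
  refine ⟨h1, ?_, ?_, hs⟩
  · obtain ⟨M, hM⟩ := h2 k
    refine ⟨max M 0, fun l => ?_⟩
    by_cases hl : l.length = k
    · exact (hM l hl).trans (le_max_left _ _)
    · rw [hs l hl, abs_zero]
      exact le_max_right _ _
  · intro g l
    have h3 := aw_map Ψ (g.1 * ·) (g.2 * ·) l
    have h4 : (fun (s : List H) (t : List G) => Ψ (s.map (g.1 * ·)) (t.map (g.2 * ·))) = Ψ := by
      funext s t
      exact h.inv g.1 g.2 s t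
    rw [h4] at h3
    exact h3.symm

/-- The Kuenneth formula. -/
theorem kunneth (D : GData G) {T : (H → ℝ) → H → ℝ} (hT : Smt T) {n : ℕ} (hn : 1 ≤ n)
    (f : List (H × G) → ℝ) (hf : Cy (n + 1) f) :
    ∃ (h : List (H × G) → ℝ) (μ₀ μ₂ : List H → ℝ), Co n h ∧ Cy (n + 1) μ₀ ∧ Cy (n - 1) μ₂ ∧
      μ₂ [] = 0 ∧
      ∀ l, f l = dl h l + μ₀ (l.map Prod.fst) + aw (fun a b => μ₂ a * D.e b) l := by
  obtain ⟨f', r, hf', hr, hKo, hDD, hfr, r', hr', hfr'⟩ := to_double hT hn f hf
  obtain ⟨Ψ, μ₀, μ₂, hΨ, hμ₀, hμ₂, hμ0, hnf⟩ := normal_form D hn (sh f') hKo hDD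
  refine ⟨fun l => (aw Ψ l + r' l) + r l, μ₀, μ₂, Kun_add (Kun_add (aw_Ko hΨ) hr') hr, hμ₀, hμ₂,
    hμ0, fun l => ?_⟩
  have e0 : aw (sh f') l = aw (DD Ψ) l + aw (fun a b => if b.length = 1 then μ₀ a else 0) l +
      aw (fun a b => μ₂ a * D.e b) l := by
    rw [← aw_add, ← aw_add]
    refine aw_congr _ _ l fun a b _ _ _ => hnf a b
  have e1 : aw (DD Ψ) l = dl (aw Ψ) l :=
    aw_dl Ψ (fun m => hΨ.supp [] m (Or.inl rfl)) (fun l => hΨ.supp l [] (Or.inr (Or.inl rfl))) l
  have e2 : aw (fun (a : List H) (b : List G) => if b.length = 1 then μ₀ a else 0) l =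
      μ₀ (l.map Prod.fst) := by
    rcases l with _ | ⟨w, l⟩
    · rw [List.map_nil, hμ₀.1.supp [] (by simp)]
      rfl
    · have h1 := aw_eq (fun (a : List H) (b : List G) => if b.length = 1 then μ₀ a else 0) 0
        (fun l m hm => if_neg hm) (w :: l) (by simp)
      rw [h1, if_pos]
      · rw [Nat.sub_zero, List.take_length]
      · rw [List.length_map, List.length_drop, List.length_cons]
        omega
  rw [hfr, hfr', e0, e1, e2, dl_add, dl_add]
  ring

end Pool.Agent.Helper87.BK
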