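import Pool.Agent.Helper11.BC.Defs

/-!
# Project BK: orbits of `SL(2, ℝ)` on pairs and triples of boundary points (piece BK-ORB)

`flip = !![0, -1; 1, 0]`, `aa = !![1, 1; 0, 1] * flip = !![1, -1; 1, 0]` (it maps `∞` to `1`, the first
column is `(1, 1)`); `SameEnd g h` says that the first columns of `g` and `h` are proportional:
`(g⁻¹ * h) 1 0 = g 0 0 * h 1 0 - g 1 0 * h 0 0`.
* `orb_pair`: let `(a, c)`, `(a', c')` be the first columns of `g`, `g'`, `δ = a c' - a' c ≠ 0`.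
  `h = !![a, a' / δ; c, c' / δ]` has determinant `1`, `h⁻¹ * g` has first column `(1, 0)` and
  `flip⁻¹ * h⁻¹ * g'`: `h⁻¹ * g'` has first column `(0, δ)`, so `(flip⁻¹ * (h⁻¹ * g')) 1 0 = 0`.
  Put `p = h⁻¹ * g`, `p' = flip⁻¹ * h⁻¹ * g'`.
* `orb_triple`: let `h` be as before for `g₀`, `g₁`, and let `(x, y)` be the first column of `h⁻¹ * g₂`;
  `x ≠ 0` (it is not the end of `g₁`), `y ≠ 0` (it is not the end of `g₀`).  If `x / y > 0` let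
  `s = √(x / y)`, `h' = h * !![s, 0; 0, 1/s]`: then `h'⁻¹ * g₂` has first column `(x / s, y s)`, with
  `x / s = y s`, proportional to `(1, 1)`, the column of `aa`; the first two conditions are not changed
  by the diagonal matrix.  If `x / y < 0`: exchange the roles of the last two points: we look for `h''`
  with `h''⁻¹ g₀ ∼ (1, 0)`, `h''⁻¹ g₁ ∼ (1, 1)`, `h''⁻¹ g₂ ∼ (0, 1)`; with `h` for the pair `g₀`, `g₂`
  the first column of `h⁻¹ g₁` has positive quotient.  (One computes: for the first columns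
  `c₀, c₁, c₂` and `[i j] = det (cᵢ, cⱼ)` the quotient in the first case is, up to a positive factor,
  `[2 1] [0 1] [0 2]`-like, it changes sign when `g₁` and `g₂` are exchanged.)
-/

open scoped MatrixGroups UpperHalfPlane

namespace Pool.Agent.Helper87.BK
open Pool.Agent.Helper11.BC

/-- An element which maps `∞` to `1`. -/
def aa : G := ⟨!![1, -1; 1, 0], by simp⟩

private theorem orb_inv_mul (g h : G) (i j : Fin 2) :
    (g⁻¹ * h) i j = (!![g 1 1, -g 0 1; -g 1 0, g 0 0] * (h : Matrix (Fin 2) (Fin 2) ℝ)) i j := by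
  rw [Matrix.SpecialLinearGroup.coe_mul, Matrix.SpecialLinearGroup.SL2_inv_expl]
  rfl

private theorem orb_inv00 (g h : G) : (g⁻¹ * h) 0 0 = g 1 1 * h 0 0 - g 0 1 * h 1 0 := by
  rw [orb_inv_mul]
  simp [Matrix.mul_apply, Fin.sum_univ_two]
  ring

private theorem orb_inv10 (g h : G) : (g⁻¹ * h) 1 0 = g 0 0 * h 1 0 - g 1 0 * h 0 0 := by
  rw [orb_inv_mul]
  simp [Matrix.mul_apply, Fin.sum_univ_two]
  ring

private theorem orb_flip_inv (h : G) : (Helper11.BC.flip⁻¹ * h) 1 0 = - h 0 0 := by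
  rw [orb_inv10]
  simp [Helper11.BC.flip]

private theorem orb_aa_inv (h : G) : (aa⁻¹ * h) 1 0 = h 1 0 - h 0 0 := by
  rw [orb_inv10]
  simp [aa]

theorem not_sameEnd_one_flip : ¬ SameEnd 1 Helper11.BC.flip := by
  unfold SameEnd
  rw [orb_inv10]
  simp [Helper11.BC.flip]

theorem not_sameEnd_one_aa : ¬ SameEnd 1 aa := by
  unfold SameEnd
  rw [orb_inv10]
  simp [aa]

theorem not_sameEnd_flip_aa : ¬ SameEnd Helper11.BC.flip aa := by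
  unfold SameEnd
  rw [orb_inv10]
  simp [aa, Helper11.BC.flip]

theorem orb_pair (g g' : G) (h : ¬ SameEnd g g') :
    ∃ k p p' : G, p 1 0 = 0 ∧ p' 1 0 = 0 ∧ g = k * 1 * p ∧ g' = k * Helper11.BC.flip * p' := by
  unfold SameEnd at h
  rw [orb_inv10] at h
  have hd : g 0 0 * g' 1 0 - g' 0 0 * g 1 0 ≠ 0 := by
    intro h0; apply h; linarith
  set δ : ℝ := g 0 0 * g' 1 0 - g' 0 0 * g 1 0 with hδ
  let k : G := ⟨!![g 0 0, g' 0 0 / δ; g 1 0, g' 1 0 / δ], by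
    rw [Matrix.det_fin_two_of]
    field_simp
    rw [hδ]⟩
  have k00 : k 0 0 = g 0 0 := rfl
  have k01 : k 0 1 = g' 0 0 / δ := rfl
  have k10 : k 1 0 = g 1 0 := rfl
  have k11 : k 1 1 = g' 1 0 / δ := rfl
  refine ⟨k, k⁻¹ * g, Helper11.BC.flip⁻¹ * (k⁻¹ * g'), ?_, ?_, by group, by group⟩
  · rw [orb_inv10, k00, k10]; ring
  · rw [orb_flip_inv, orb_inv00, k11, k01]; field_simp; ring

private theorem orb_triple_aux (g₀ g₁ g₂ : G)
    (hT : 0 < (g₀ 0 0 * g₁ 1 0 - g₁ 0 0 * g₀ 1 0) * (g₀ 0 0 * g₂ 1 0 - g₂ 0 0 * g₀ 1 0) *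
      (g₂ 0 0 * g₁ 1 0 - g₁ 0 0 * g₂ 1 0)) :
    ∃ k p₀ p₁ p₂ : G, p₀ 1 0 = 0 ∧ p₁ 1 0 = 0 ∧ p₂ 1 0 = 0 ∧
      (g₀ = k * 1 * p₀ ∧ g₁ = k * Helper11.BC.flip * p₁ ∧ g₂ = k * aa * p₂) := by
  set A : ℝ := g₀ 0 0 * g₁ 1 0 - g₁ 0 0 * g₀ 1 0 with hA
  set B : ℝ := g₀ 0 0 * g₂ 1 0 - g₂ 0 0 * g₀ 1 0 with hB
  set C : ℝ := g₂ 0 0 * g₁ 1 0 - g₁ 0 0 * g₂ 1 0 with hC
  have hA0 : A ≠ 0 := by rintro h; rw [h] at hT; simp at hT
  have hB0 : B ≠ 0 := by rintro h; rw [h] at hT; simp at hT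
  have hAB : 0 < C / (A * B) := by
    have : C / (A * B) = (A * B * C) / (A * B) ^ 2 := by field_simp
    rw [this]; positivity
  set x : ℝ := Real.sqrt (C / (A * B)) with hx
  have hx0 : 0 < x := Real.sqrt_pos.mpr hAB
  have hxx : x * x = C / (A * B) := Real.mul_self_sqrt hAB.le
  have hxC : x * x * (A * B) = C := by rw [hxx]; field_simp
  let k : G := ⟨!![x * g₀ 0 0, g₁ 0 0 / (x * A); x * g₀ 1 0, g₁ 1 0 / (x * A)], by
    rw [Matrix.det_fin_two_of]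
    field_simp
    rw [hA]⟩
  have k00 : k 0 0 = x * g₀ 0 0 := rfl
  have k01 : k 0 1 = g₁ 0 0 / (x * A) := rfl
  have k10 : k 1 0 = x * g₀ 1 0 := rfl
  have k11 : k 1 1 = g₁ 1 0 / (x * A) := rfl
  refine ⟨k, k⁻¹ * g₀, Helper11.BC.flip⁻¹ * (k⁻¹ * g₁), aa⁻¹ * (k⁻¹ * g₂), ?_, ?_, ?_,
    by group, by group, by group⟩
  · rw [orb_inv10, k00, k10]; ring
  · rw [orb_flip_inv, orb_inv00, k11, k01]; field_simp; ring
  · rw [orb_aa_inv, orb_inv00, orb_inv10, k00, k10, k11, k01]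
    have h1 : x * g₀ 0 0 * g₂ 1 0 - x * g₀ 1 0 * g₂ 0 0 = x * B := by rw [hB]; ring
    have h2 : g₁ 1 0 / (x * A) * g₂ 0 0 - g₁ 0 0 / (x * A) * g₂ 1 0 = C / (x * A) := by
      rw [hC]; ring
    rw [h1, h2, ← hxC]
    field_simp
    ring

theorem orb_triple (g₀ g₁ g₂ : G) (h : Generic [g₀, g₁, g₂]) :
    ∃ k p₀ p₁ p₂ : G, p₀ 1 0 = 0 ∧ p₁ 1 0 = 0 ∧ p₂ 1 0 = 0 ∧
      ((g₀ = k * 1 * p₀ ∧ g₁ = k * Helper11.BC.flip * p₁ ∧ g₂ = k * aa * p₂) ∨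
        (g₀ = k * 1 * p₀ ∧ g₁ = k * aa * p₁ ∧ g₂ = k * Helper11.BC.flip * p₂)) := by
  unfold Generic at h
  simp only [List.pairwise_cons, List.mem_cons, List.not_mem_nil, or_false, forall_eq_or_imp,
    forall_eq, List.Pairwise.nil, and_true, IsEmpty.forall_iff, implies_true, SameEnd,
    orb_inv10] at h
  obtain ⟨⟨h01, h02⟩, h12⟩ := h
  have hA : g₀ 0 0 * g₁ 1 0 - g₁ 0 0 * g₀ 1 0 ≠ 0 := by intro h0; apply h01; linarith
  have hB : g₀ 0 0 * g₂ 1 0 - g₂ 0 0 * g₀ 1 0 ≠ 0 := by intro h0; apply h02; linarith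
  have hC : g₂ 0 0 * g₁ 1 0 - g₁ 0 0 * g₂ 1 0 ≠ 0 := by intro h0; apply h12; linarith
  have hT := mul_ne_zero (mul_ne_zero hA hB) hC
  rcases lt_or_gt_of_ne hT with hneg | hpos
  · obtain ⟨k, p₀, p₁, p₂, q₀, q₁, q₂, e₀, e₁, e₂⟩ := orb_triple_aux g₀ g₂ g₁ (by nlinarith)
    exact ⟨k, p₀, p₂, p₁, q₀, q₂, q₁, Or.inr ⟨e₀, e₂, e₁⟩⟩
  · obtain ⟨k, p₀, p₁, p₂, q₀, q₁, q₂, e₀, e₁, e₂⟩ := orb_triple_aux g₀ g₁ g₂ hpos
    exact ⟨k, p₀, p₁, p₂, q₀, q₁, q₂, Or.inl ⟨e₀, e₁, e₂⟩⟩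

end Pool.Agent.Helper87.BK
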