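import Pool.Agent.Helper87.BK.SS
import Pool.Agent.Helper87.BK.Orb
import Pool.Agent.Helper87.BCR.Transfer
import Pool.Agent.Helper87.BCR.Ultra
import Pool.Agent.Helper34.BC.Eval

/-!
# Project BK: the second bounded cohomology of `SL(2, ℝ)` (piece BK-LAM)

For `φ` in `Co k` the function `SS φ` is bounded, invariant and Lipschitz in every variable; let
`E φ X = ev X (SS φ)` (`ev` is the iterated mean of `Pool/Agent/Helper34/BC/Eval.lean`; `ev_map`, `ev_par`,
`ev_dl`, `ev_add`, `ev_const_mul`, `abs_ev_le`, `ev_map_int`).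
`lam φ = (E φ [bdp 1, bdp flip, bdp aa] - E φ [bdp 1, bdp aa, bdp flip]) / 2`.
1. Linear (`SS_lin`, `ev_add`, `ev_const_mul`), bounded (`SS_bdd`, `abs_ev_le`).
2. If `g = k * a * p`, ... as in `orb_pair`, `orb_triple`, then
   `E φ [bdp g₀, bdp g₁, bdp g₂] = E φ [bdp a₀, bdp a₁, bdp a₂]` (`ev_par` in each variable with the
   Lipschitz constant `8 * M` of `SS_lip`, `ev_map` with the invariance of `SS φ`; note
   `GP.bdp (k * a * p) = k • GP.bdp (a * p)`).  The same for pairs.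
3. `lam (dl ψ) = 0` for `Co 2 ψ`: `E (dl ψ) X = ev X (dl (SS ψ)) = dl (E ψ) X` (`SS_dl`, `ev_dl`); for the
   lists `X` of the three points `bdp 1`, `bdp flip`, `bdp aa` in any order, the pairs of different points
   all have the same value `κ` (2. for pairs), so `dl (E ψ) X = κ - κ + κ` for both lists.
4. Let `φ` be in `Cy 3` with `lam φ = 0`, `a` the common value.  By `orb_triple` and 2.,
   `E φ [bdp g₀, bdp g₁, bdp g₂] = a` for every generic list.  On lists of `GP` let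
   `α (int g) = bdp g`, `α (bdp g) = bdp g`, `T u x = u (α x)`: `tens T Φ X = Φ (X.map α)`, and `Lin T` holds
   for the classes of all functions, so `Lin.prism` (`BCR/Alg.lean`) for `Φ = E φ` gives, for
   `X = [int g₀, int g₁, int g₂]`, `dl (pri T Φ) X + pri T (dl Φ) X = Φ (X.map α) - Φ X`, and `dl Φ Y = 0`
   for the lists `Y` of length `4` (`ev_dl`, `SS_dl`, `dl φ = 0`), the only ones which matter in
   `pri T (dl Φ) X`.  With `ψ Y = a - pri T Φ (Y.map int)` for `Y.length = 2` this is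
   `dl ψ W = a - (a - SS φ W) = SS φ W` for generic `W` of length `3` (`dl` of the constant function `a` at a
   list of length `3` is `a`; the faces of `W.map int` are the images of the faces of `W`).  `ψ` is
   invariant, and bounded by `|a| + 2 M` on lists of length `2`
   (`pri T Φ [x, y] = Φ [x, α x, α y] - Φ [x, y, α y]`).
   `ultra` with `N = 1` and `c = SS φ`, then `transfer` with `N = 1` (`LC`, bounds, invariance,
   `dl (SS φ) = 0`) give `h` with `LC h`, `LB h`, invariant and `dl h W = SS φ W` for `W.length = 3`.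
   Cut `h` to the lists of length `2`: `Co 2`.  Finally `φ = SS φ - dl ψ'` (`SS_prim`), so `φ = dl (h - ψ')`;
   at the lists of length `≠ 3` both sides are `0`.
-/

open scoped MatrixGroups UpperHalfPlane Topology
open MeasureTheory

namespace Pool.Agent.Helper87.BK
open Pool.Agent.Helper11.BC
open Pool.Agent.Helper87.BCR
open Pool.Agent.Helper34.BC

private theorem lam_symm {a b : G} (h : SameEnd a b) : SameEnd b a := by
  unfold SameEnd at *
  have h1 : b⁻¹ * a = (a⁻¹ * b)⁻¹ := by rw [mul_inv_rev, inv_inv]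
  rw [h1, Matrix.SpecialLinearGroup.SL2_inv_expl]
  show -(a⁻¹ * b) 1 0 = 0
  rw [h, neg_zero]

/-- A bounded invariant function on lists, Lipschitz in every variable. -/
private structure LamNice (S : List G → ℝ) (B D : ℝ) : Prop where
  bdd : ∀ l, |S l| ≤ B
  inv : ∀ (g : G) l, S (l.map (g * ·)) = S l
  lip : ∀ (l₁ l₂ : List G) (g g' : G),
    |S (l₁ ++ g :: l₂) - S (l₁ ++ g' :: l₂)| ≤ D * dist (pos g) (pos g')

private theorem lam_par {S : List G → ℝ} {B D : ℝ} (hS : LamNice S B D) (k : G)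
    (L : List (G × G)) : (∀ e ∈ L, e.2 1 0 = 0) → ∀ l₁ : List GP,
    ev (l₁ ++ L.map fun e => GP.bdp (k * e.1 * e.2)) S =
      ev (l₁ ++ L.map fun e => GP.bdp (k * e.1)) S := by
  induction L with
  | nil => intro _ l₁; rfl
  | cons e L ih =>
    intro hL l₁
    rw [List.map_cons, List.map_cons,
      ev_par (hL e List.mem_cons_self) (fun Z _ => hS.bdd Z) (D := D)
        (fun k₁ k₂ z w _ _ => hS.lip k₁ k₂ z w)]
    have h1 := ih (fun e' he' => hL e' (List.mem_cons_of_mem _ he')) (l₁ ++ [GP.bdp (k * e.1)])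
    rw [List.append_assoc, List.append_assoc] at h1
    exact h1

private theorem lam_inv {S : List G → ℝ} {B D : ℝ} (hS : LamNice S B D) (k : G) (X : List GP) :
    ev (X.map (k • ·)) S = ev X S := by
  rw [ev_map]
  congr 1
  funext Z
  exact hS.inv k Z

private theorem lam_orb {S : List G → ℝ} {B D : ℝ} (hS : LamNice S B D) (k : G)
    (L : List (G × G)) (hL : ∀ e ∈ L, e.2 1 0 = 0) :
    ev (L.map fun e => GP.bdp (k * e.1 * e.2)) S = ev (L.map fun e => GP.bdp e.1) S := by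
  have h1 := lam_par hS k L hL []
  rw [List.nil_append, List.nil_append] at h1
  rw [h1, ← lam_inv hS k (L.map fun e => GP.bdp e.1), List.map_map]
  rfl

private theorem lam_pair {S : List G → ℝ} {B D : ℝ} (hS : LamNice S B D) {g g' : G}
    (h : ¬ SameEnd g g') :
    ev [GP.bdp g, GP.bdp g'] S = ev [GP.bdp 1, GP.bdp Helper11.BC.flip] S := by
  obtain ⟨k, p, p', hp, hp', rfl, rfl⟩ := orb_pair g g' h
  refine lam_orb hS k [(1, p), (Helper11.BC.flip, p')] ?_
  intro e he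
  simp only [List.mem_cons, List.not_mem_nil, or_false] at he
  rcases he with rfl | rfl
  · exact hp
  · exact hp'

private theorem lam_triple {S : List G → ℝ} {B D : ℝ} (hS : LamNice S B D) {a : ℝ}
    (h1 : ev [GP.bdp 1, GP.bdp Helper11.BC.flip, GP.bdp aa] S = a)
    (h2 : ev [GP.bdp 1, GP.bdp aa, GP.bdp Helper11.BC.flip] S = a) {g₀ g₁ g₂ : G}
    (h : Generic [g₀, g₁, g₂]) : ev [GP.bdp g₀, GP.bdp g₁, GP.bdp g₂] S = a := by
  obtain ⟨k, p₀, p₁, p₂, h₀, h₁, h₂, h3⟩ := orb_triple g₀ g₁ g₂ h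
  rcases h3 with ⟨rfl, rfl, rfl⟩ | ⟨rfl, rfl, rfl⟩
  · rw [← h1]
    refine lam_orb hS k [(1, p₀), (Helper11.BC.flip, p₁), (aa, p₂)] ?_
    intro e he
    simp only [List.mem_cons, List.not_mem_nil, or_false] at he
    rcases he with rfl | rfl | rfl
    · exact h₀
    · exact h₁
    · exact h₂
  · rw [← h2]
    refine lam_orb hS k [(1, p₀), (aa, p₁), (Helper11.BC.flip, p₂)] ?_
    intro e he
    simp only [List.mem_cons, List.not_mem_nil, or_false] at he
    rcases he with rfl | rfl | rfl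
    · exact h₀
    · exact h₁
    · exact h₂

private theorem lam_dl2 {X : Type} (F : List X → ℝ) (x y z : X) :
    dl F [x, y, z] = F [y, z] - F [x, z] + F [x, y] := by
  rw [dl_cons, dl_cons, dl_cons, dl_nil]
  ring

private theorem lam_dl3 {X : Type} (F : List X → ℝ) (x y z w : X) :
    dl F [x, y, z, w] = F [y, z, w] - F [x, z, w] + F [x, y, w] - F [x, y, z] := by
  rw [dl_cons, dl_cons, dl_cons, dl_cons, dl_nil]
  ring

private theorem lam_nice {k : ℕ} {φ : List G → ℝ} (h : Co k φ) {M : ℝ} (hM : ∀ m, |φ m| ≤ M) :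
    LamNice (SS φ) M (8 * M) :=
  ⟨SS_bdd h hM, (SS_Co h).inv, SS_lip h hM⟩

private theorem lam_co_zero (k : ℕ) : Co k (fun _ : List G => (0 : ℝ)) :=
  ⟨fun _ => continuous_const, ⟨0, fun _ => by rw [abs_zero]⟩, fun _ _ => rfl, fun _ _ => rfl⟩

private theorem lam_dl_SS {k : ℕ} {φ : List G → ℝ} (h : Cy k φ) (l : List G) :
    dl (SS φ) l = 0 := by
  rw [← SS_dl h.1]
  have h1 : dl φ = fun _ => 0 := funext h.2
  rw [h1]
  have h2 := SS_bdd (lam_co_zero k) (M := 0) (fun _ => by rw [abs_zero]) l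
  exact abs_eq_zero.mp (le_antisymm h2 (abs_nonneg _))

/-- the invariant on the bounded cocycles -/
private noncomputable def lamF (φ : List G → ℝ) : ℝ :=
  (ev [GP.bdp 1, GP.bdp Helper11.BC.flip, GP.bdp aa] (SS φ) -
    ev [GP.bdp 1, GP.bdp aa, GP.bdp Helper11.BC.flip] (SS φ)) / 2

private theorem lam_lin (φ ψ : List G → ℝ) (a b : ℝ) (h : Cy 3 φ) (h' : Cy 3 ψ) (X : List GP) :
    ev X (SS fun m => a * φ m + b * ψ m) = a * ev X (SS φ) + b * ev X (SS ψ) := by
  obtain ⟨M, hM⟩ := h.1.bdd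
  obtain ⟨M', hM'⟩ := h'.1.bdd
  have h1 : (SS fun m => a * φ m + b * ψ m) = fun l => a * SS φ l + b * SS ψ l :=
    funext fun l => SS_lin h.1 h'.1 a b l
  have b1 : ∀ Z : List G, Z.length = X.length → |SS φ Z| ≤ M := fun Z _ => SS_bdd h.1 hM Z
  have b2 : ∀ Z : List G, Z.length = X.length → |SS ψ Z| ≤ M' := fun Z _ => SS_bdd h'.1 hM' Z
  rw [h1, ev_add (B := |a| * M) (D := |b| * M'), ev_const_mul b1, ev_const_mul b2]
  · intro Z hZ
    rw [abs_mul]
    exact mul_le_mul_of_nonneg_left (b1 Z hZ) (abs_nonneg a)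
  · intro Z hZ
    rw [abs_mul]
    exact mul_le_mul_of_nonneg_left (b2 Z hZ) (abs_nonneg b)

private theorem lam_dl_zero (ψ : List G → ℝ) (h : Co 2 ψ) : lamF (dl ψ) = 0 := by
  obtain ⟨M, hM⟩ := h.bdd
  have hS := lam_nice h hM
  have h1 : SS (dl ψ) = dl (SS ψ) := funext fun l => SS_dl h l
  have key : ∀ x y z : G, ¬ SameEnd x y → ¬ SameEnd x z → ¬ SameEnd y z →
      ev [GP.bdp x, GP.bdp y, GP.bdp z] (SS (dl ψ)) =
        ev [GP.bdp 1, GP.bdp Helper11.BC.flip] (SS ψ) := by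
    intro x y z hxy hxz hyz
    rw [h1, ← ev_dl (n := 2) (B := M) rfl (fun Z _ => hS.bdd Z), lam_dl2, lam_pair hS hxy,
      lam_pair hS hxz, lam_pair hS hyz]
    ring
  unfold lamF
  rw [key _ _ _ not_sameEnd_one_flip not_sameEnd_one_aa not_sameEnd_flip_aa,
    key _ _ _ not_sameEnd_one_aa not_sameEnd_one_flip (fun h => not_sameEnd_flip_aa (lam_symm h)),
    sub_self, zero_div]

/-- the primitive on lists of length two -/
private noncomputable def lamPsi (S : List G → ℝ) (a : ℝ) : List G → ℝ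
  | [g₀, g₁] => a - ev [GP.int g₀, GP.bdp g₀, GP.bdp g₁] S + ev [GP.int g₀, GP.int g₁, GP.bdp g₁] S
  | _ => 0

private theorem lam_psi_inv {S : List G → ℝ} {B D : ℝ} (hS : LamNice S B D) (a : ℝ) (g : G)
    (Y : List G) : lamPsi S a (Y.map (g * ·)) = lamPsi S a Y := by
  match Y with
  | [] => rfl
  | [_] => rfl
  | [g₀, g₁] =>
    show a - ev ([GP.int g₀, GP.bdp g₀, GP.bdp g₁].map (g • ·)) S +
      ev ([GP.int g₀, GP.int g₁, GP.bdp g₁].map (g • ·)) S = _
    rw [lam_inv hS, lam_inv hS]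
    rfl
  | _ :: _ :: _ :: _ => rfl

private theorem lam_psi_dl {S : List G → ℝ} {B D : ℝ} (hS : LamNice S B D) (a : ℝ)
    (hd : ∀ l, dl S l = 0) (h1 : ∀ g₀ g₁ g₂ : G, Generic [g₀, g₁, g₂] →
      ev [GP.bdp g₀, GP.bdp g₁, GP.bdp g₂] S = a) (g₀ g₁ g₂ : G) (hg : Generic [g₀, g₁, g₂]) :
    dl (lamPsi S a) [g₀, g₁, g₂] = S [g₀, g₁, g₂] := by
  have hz : ∀ X : List GP, X.length = 3 + 1 → dl (fun Y => ev Y S) X = 0 := by
    intro X hX
    have h2 : dl S = fun _ => 0 := funext hd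
    rw [ev_dl (n := 3) hX (B := B) (fun Z _ => hS.bdd Z), h2, ev_zero]
  have e1 := hz [GP.int g₀, GP.bdp g₀, GP.bdp g₁, GP.bdp g₂] rfl
  have e2 := hz [GP.int g₀, GP.int g₁, GP.bdp g₁, GP.bdp g₂] rfl
  have e3 := hz [GP.int g₀, GP.int g₁, GP.int g₂, GP.bdp g₂] rfl
  rw [lam_dl3] at e1 e2 e3
  have e4 : ev [GP.int g₀, GP.int g₁, GP.int g₂] S = S [g₀, g₁, g₂] := ev_map_int [g₀, g₁, g₂] S
  rw [lam_dl2]
  show (a - ev [GP.int g₁, GP.bdp g₁, GP.bdp g₂] S + ev [GP.int g₁, GP.int g₂, GP.bdp g₂] S) -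
    (a - ev [GP.int g₀, GP.bdp g₀, GP.bdp g₂] S + ev [GP.int g₀, GP.int g₂, GP.bdp g₂] S) +
    (a - ev [GP.int g₀, GP.bdp g₀, GP.bdp g₁] S + ev [GP.int g₀, GP.int g₁, GP.bdp g₁] S) = _
  have e5 := h1 g₀ g₁ g₂ hg
  linarith

private theorem lam_psi_bdd {S : List G → ℝ} {B D : ℝ} (hS : LamNice S B D) (a : ℝ)
    (Y : List G) (hY : Y.length = 1 + 1) : |lamPsi S a Y| ≤ |a| + 2 * B := by
  match Y, hY with
  | [g₀, g₁], _ =>
    show |a - ev [GP.int g₀, GP.bdp g₀, GP.bdp g₁] S +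
      ev [GP.int g₀, GP.int g₁, GP.bdp g₁] S| ≤ _
    have e1 : |ev [GP.int g₀, GP.bdp g₀, GP.bdp g₁] S| ≤ B := abs_ev_le fun Z _ => hS.bdd Z
    have e2 : |ev [GP.int g₀, GP.int g₁, GP.bdp g₁] S| ≤ B := abs_ev_le fun Z _ => hS.bdd Z
    refine (abs_add_le _ _).trans ?_
    have e3 := abs_sub a (ev [GP.int g₀, GP.bdp g₀, GP.bdp g₁] S)
    linarith

private theorem lam_prim {φ : List G → ℝ} (h : Cy 3 φ) (h0 : lamF φ = 0) :
    ∃ ψ, Co 2 ψ ∧ ∀ m, φ m = dl ψ m := by
  obtain ⟨M, hM⟩ := h.1.bdd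
  have hS := lam_nice h.1 hM
  have hd := lam_dl_SS h
  set a : ℝ := ev [GP.bdp 1, GP.bdp Helper11.BC.flip, GP.bdp aa] (SS φ) with ha
  have ha2 : ev [GP.bdp 1, GP.bdp aa, GP.bdp Helper11.BC.flip] (SS φ) = a := by
    unfold lamF at h0
    rw [← ha] at h0
    linarith
  have hgen : ∀ g₀ g₁ g₂ : G, Generic [g₀, g₁, g₂] →
      ev [GP.bdp g₀, GP.bdp g₁, GP.bdp g₂] (SS φ) = a := fun g₀ g₁ g₂ hg =>
    lam_triple hS ha.symm ha2 hg
  obtain ⟨h₁, h₁b, h₁i, h₁d⟩ := ultra (N := 1) (lamPsi (SS φ) a) (SS φ) (|a| + 2 * M)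
    (SS_Co h.1).cont (fun Y _ hY => lam_psi_bdd hS a Y hY) (fun g Y => lam_psi_inv hS a g Y)
    (by
      intro W hW hlen
      match W, hlen with
      | [g₀, g₁, g₂], _ => exact lam_psi_dl hS a hd hgen g₀ g₁ g₂ hW)
  obtain ⟨u, uc, ub, ui, ud⟩ := transfer (N := 1) (SS φ) h₁ (max M |(|a| + 2 * M)|)
    (SS_Co h.1).cont (fun l => (hS.bdd l).trans (le_max_left _ _)) (SS_Co h.1).inv hd
    (fun l => (h₁b l).trans (le_max_right _ _)) h₁i h₁d
  obtain ⟨ψ', hψ', hψd⟩ := SS_prim h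
  obtain ⟨M1, hM1⟩ := ub 2
  obtain ⟨M2, hM2⟩ := hψ'.bdd
  have hu : ∀ l : List G, |(if l.length = 2 then u l else 0)| ≤ |M1| := by
    intro l
    split_ifs with hl
    · exact (hM1 l hl).trans (le_abs_self _)
    · rw [abs_zero]
      exact abs_nonneg _
  have hdl : ∀ (F : List G → ℝ), (∀ l : List G, l.length ≠ 2 → F l = 0) →
      ∀ l : List G, l.length ≠ 3 → dl F l = 0 := by
    intro F hF l hl
    unfold dl
    refine Finset.sum_eq_zero fun i hi => ?_
    rw [hF, smul_zero]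
    have hi' := Finset.mem_range.mp hi
    rw [List.length_eraseIdx_of_lt hi']
    omega
  refine ⟨fun l => (if l.length = 2 then u l else 0) - ψ' l, ⟨?_, ?_, ?_, ?_⟩, ?_⟩
  · intro k
    by_cases hk : k = 2
    · subst hk
      refine ((uc 2).sub (hψ'.cont 2)).congr fun v => ?_
      show u (List.ofFn v) - ψ' (List.ofFn v) =
        (if (List.ofFn v).length = 2 then u (List.ofFn v) else 0) - ψ' (List.ofFn v)
      rw [if_pos (List.length_ofFn)]
    · refine ((continuous_const (y := (0 : ℝ))).sub (hψ'.cont k)).congr fun v => ?_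
      show (0 : ℝ) - ψ' (List.ofFn v) =
        (if (List.ofFn v).length = 2 then u (List.ofFn v) else 0) - ψ' (List.ofFn v)
      rw [if_neg (by rw [List.length_ofFn]; exact hk)]
  · exact ⟨|M1| + M2, fun l => (abs_sub _ _).trans (add_le_add (hu l) (hM2 l))⟩
  · intro g l
    rw [List.length_map, ui, hψ'.inv]
  · intro l hl
    rw [if_neg hl, hψ'.supp l hl, sub_zero]
  · intro m
    have e1 : dl (fun l => (if l.length = 2 then u l else 0) - ψ' l) m =
        dl (fun l => if l.length = 2 then u l else 0) m - dl ψ' m := dl_sub _ _ _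
    rw [e1]
    by_cases hm : m.length = 3
    · have e2 : dl (fun l => if l.length = 2 then u l else 0) m = dl u m := by
        unfold dl
        refine Finset.sum_congr rfl fun i hi => ?_
        have hi' := Finset.mem_range.mp hi
        have e3 : (m.eraseIdx i).length = 2 := by
          rw [List.length_eraseIdx_of_lt hi', hm]
        show (-1 : ℝ) ^ i • (if (m.eraseIdx i).length = 2 then u (m.eraseIdx i) else 0) = _
        rw [if_pos e3]
      rw [e2, ud m hm, hψd m]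
      ring
    · rw [hdl _ (fun l hl => if_neg hl) m hm, hdl ψ' hψ'.supp m hm, h.1.supp m hm, sub_zero]

theorem exists_lam : ∃ lam : (List G → ℝ) → ℝ,
    (∀ (φ ψ : List G → ℝ) (a b : ℝ), Cy 3 φ → Cy 3 ψ →
      lam (fun m => a * φ m + b * ψ m) = a * lam φ + b * lam ψ) ∧
    (∀ (φ : List G → ℝ) (M : ℝ), Cy 3 φ → (∀ m, |φ m| ≤ M) → |lam φ| ≤ M) ∧
    (∀ ψ : List G → ℝ, Co 2 ψ → lam (dl ψ) = 0) ∧
    ∀ φ : List G → ℝ, Cy 3 φ → lam φ = 0 → ∃ ψ, Co 2 ψ ∧ ∀ m, φ m = dl ψ m := by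
  refine ⟨lamF, ?_, ?_, lam_dl_zero, fun φ h h0 => lam_prim h h0⟩
  · intro φ ψ a b h h'
    unfold lamF
    rw [lam_lin φ ψ a b h h', lam_lin φ ψ a b h h']
    ring
  · intro φ M h hM
    unfold lamF
    have e1 : |ev [GP.bdp 1, GP.bdp Helper11.BC.flip, GP.bdp aa] (SS φ)| ≤ M :=
      abs_ev_le fun Z _ => SS_bdd h.1 hM Z
    have e2 : |ev [GP.bdp 1, GP.bdp aa, GP.bdp Helper11.BC.flip] (SS φ)| ≤ M :=
      abs_ev_le fun Z _ => SS_bdd h.1 hM Z
    rw [abs_div, abs_two, div_le_iff₀ (by norm_num)]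
    refine (abs_sub _ _).trans ?_
    linarith

end Pool.Agent.Helper87.BK
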