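import Pool.Agent.Helper87.BK.Ko

/-!
# Project BK: continuous primitives with parameters (piece BK-PARAM)

`Ψ l m = s (Φ l) m` if `l.length = p`, and `0` otherwise.  For every `l` the function `Φ l` is in
`Cy (k + 1)` (`InK_PU_right` for continuity and boundedness (only lists of length `k + 1` matter),
invariance from `hinv` with `h = 1`, support, `hcoc`), and `lam (Φ l) = 0`.
* `Φ l m = dl (Ψ l) m`: from `hs`; for `l.length ≠ p` both sides are zero.
* Invariance: `Φ (l.map (h * ·)) = Φ l` as functions (`hinv` with `g = 1`), so the values of `s` agree; in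
  `m` the functions `s (Φ l)` are invariant (`Co`).
* `InK PUc Ψ`: let `l : List (Z → H)`, `m : List (W → G)` with continuous entries; if `l.length ≠ p` the
  family is zero; otherwise let `W' = (Fin (k + 1) → G)` and `m' = List.ofFn fun i w' => w' i`: the family
  `fun z w' => Φ (l.map (· z)) (List.ofFn w')` is `PU` by `hreg`.  Its bound `M` bounds `Φ (l.map (· z))`
  on all lists of length `k + 1`, so everywhere (support), so `|Ψ| ≤ C * (M + 1)` (take `M ≥ 0`).
  Continuity in `w`: `s (Φ ..)` is `LC` (if `m` has length `r`, compose with the continuous map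
  `w ↦ (fun i => m[i] w)` to `Fin r → G`, `List.ofFn`).  Continuity in `z` at `z₀`, uniformly in `w`: given
  `ε`, take `δ` from `hs` for `φ = Φ (l.map (· z₀))`, and the neighbourhood of `z₀` from `PU` with `δ`.
-/

open scoped Topology

namespace Pool.Agent.Helper87.BK
open Pool.Agent.Helper11.BC (dl)
open Pool.Agent.Helper87.BCR

variable {H G : Type} [Group H] [TopologicalSpace H] [Group G] [TopologicalSpace G]

private lemma param_ofFn {W X : Type} (m : List (W → X)) (w : W) :
    List.ofFn (fun i : Fin m.length => m.get i w) = m.map fun e => e w := by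
  have h : List.ofFn (fun i : Fin m.length => m.get i w) =
      (List.ofFn m.get).map fun e => e w := by
    rw [List.map_ofFn]
    rfl
  rw [h, List.ofFn_get]

private lemma param_cy (k p : ℕ) (Φ : List H → List G → ℝ) (hreg : InK PUc Φ)
    (hinv : ∀ (h : H) (g : G) l m, Φ (l.map (h * ·)) (m.map (g * ·)) = Φ l m)
    (hsupp : ∀ (l : List H) (m : List G), l.length ≠ p ∨ m.length ≠ k + 1 → Φ l m = 0)
    (hcoc : ∀ l m, dl (Φ l) m = 0) (l : List H) : Cy (k + 1) (Φ l) := by
  obtain ⟨h1, h2⟩ := InK_PU_right hreg l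
  refine ⟨⟨h1, ?_, ?_, ?_⟩, hcoc l⟩
  · obtain ⟨M, hM⟩ := h2 (k + 1)
    refine ⟨|M|, fun m => ?_⟩
    by_cases hm : m.length = k + 1
    · exact (hM m hm).trans (le_abs_self M)
    · rw [hsupp l m (Or.inr hm), abs_zero]
      exact abs_nonneg M
  · intro g m
    have h3 := hinv 1 g l m
    have h4 : l.map ((1 : H) * ·) = l := by simp
    rwa [h4] at h3
  · intro m hm
    exact hsupp l m (Or.inr hm)

theorem sel_param (k p : ℕ) (lam : (List G → ℝ) → ℝ) (s : (List G → ℝ) → List G → ℝ) (C : ℝ)
    (hC : 0 ≤ C)
    (hs : ∀ φ, Cy (k + 1) φ → lam φ = 0 → Co k (s φ) ∧ (∀ m, φ m = dl (s φ) m) ∧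
      (∀ M : ℝ, (∀ m, |φ m| ≤ M) → ∀ m, |s φ m| ≤ C * (M + 1)) ∧
      ∀ ε > 0, ∃ δ > 0, ∀ φ', Cy (k + 1) φ' → lam φ' = 0 → (∀ m, |φ m - φ' m| ≤ δ) →
        ∀ m, |s φ m - s φ' m| ≤ ε)
    (Φ : List H → List G → ℝ) (hreg : InK PUc Φ)
    (hinv : ∀ (h : H) (g : G) l m, Φ (l.map (h * ·)) (m.map (g * ·)) = Φ l m)
    (hsupp : ∀ (l : List H) (m : List G), l.length ≠ p ∨ m.length ≠ k + 1 → Φ l m = 0)
    (hcoc : ∀ l m, dl (Φ l) m = 0) (hlam : ∀ l, lam (Φ l) = 0) :
    ∃ Ψ : List H → List G → ℝ, InK PUc Ψ ∧
      (∀ (h : H) (g : G) l m, Ψ (l.map (h * ·)) (m.map (g * ·)) = Ψ l m) ∧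
      (∀ (l : List H) (m : List G), l.length ≠ p ∨ m.length ≠ k → Ψ l m = 0) ∧
      ∀ l m, Φ l m = dl (Ψ l) m := by
  have hcy : ∀ l, Cy (k + 1) (Φ l) := param_cy k p Φ hreg hinv hsupp hcoc
  refine ⟨fun l m => if l.length = p then s (Φ l) m else 0, ?_, ?_, ?_, ?_⟩
  · intro Z W _ _ l m hl hm
    by_cases hp : l.length = p
    · obtain ⟨F, hF⟩ : ∃ F : Z → List G → ℝ, F = fun z => Φ (l.map fun e => e z) := ⟨_, rfl⟩
      have hFcy : ∀ z, Cy (k + 1) (F z) := fun z => by rw [hF]; exact hcy _
      have hFlam : ∀ z, lam (F z) = 0 := fun z => by rw [hF]; exact hlam _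
      have hPU := hreg Z (Fin (k + 1) → G) l (List.ofFn fun i w' => w' i) hl (by
        intro e he
        obtain ⟨i, rfl⟩ := List.mem_ofFn.mp he
        exact continuous_apply i)
      have e1 : ∀ w' : Fin (k + 1) → G,
          ((List.ofFn fun (i : Fin (k + 1)) (w' : Fin (k + 1) → G) => w' i).map fun e => e w') =
            List.ofFn w' := by
        intro w'
        rw [List.map_ofFn]
        rfl
      obtain ⟨⟨M, hM⟩, -, hU⟩ := hPU
      simp only [e1] at hM hU
      have hFM : ∀ z m', |F z m'| ≤ |M| := by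
        intro z m'
        by_cases hm' : m'.length = k + 1
        · obtain ⟨v, rfl⟩ := exists_ofFn m' hm'
          rw [hF]
          exact (hM z v).trans (le_abs_self M)
        · rw [(hFcy z).1.supp m' hm', abs_zero]
          exact abs_nonneg M
      have key : (fun z w => if (l.map fun e => e z).length = p then
          s (Φ (l.map fun e => e z)) (m.map fun e => e w) else 0) =
          fun z w => s (F z) (m.map fun e => e w) := by
        funext z w
        rw [if_pos (by rw [List.length_map]; exact hp), hF]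
      change PU (fun z w => if (l.map fun e => e z).length = p then
          s (Φ (l.map fun e => e z)) (m.map fun e => e w) else 0)
      rw [key]
      refine ⟨⟨C * (|M| + 1), fun z w => ?_⟩, fun z => ?_, fun z₀ ε hε => ?_⟩
      · exact (hs (F z) (hFcy z) (hFlam z)).2.2.1 |M| (hFM z) _
      · have h1 := (hs (F z) (hFcy z) (hFlam z)).1.cont m.length
        have h2 : Continuous fun w : W => (fun i : Fin m.length => m.get i w) :=
          continuous_pi fun i => hm _ (List.get_mem m i)
        have h3 := h1.comp h2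
        refine h3.congr fun w => ?_
        simp only [Function.comp_apply]
        rw [param_ofFn]
      · obtain ⟨δ, hδ, h1⟩ := (hs (F z₀) (hFcy z₀) (hFlam z₀)).2.2.2 ε hε
        filter_upwards [hU z₀ δ hδ] with z hz w
        rw [abs_sub_comm]
        apply h1 (F z) (hFcy z) (hFlam z)
        intro m'
        by_cases hm' : m'.length = k + 1
        · obtain ⟨v, rfl⟩ := exists_ofFn m' hm'
          rw [abs_sub_comm, hF]
          exact hz v
        · rw [(hFcy z).1.supp m' hm', (hFcy z₀).1.supp m' hm', sub_zero, abs_zero]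
          exact hδ.le
    · have key : (fun (z : Z) (w : W) => if (l.map fun e => e z).length = p then
          s (Φ (l.map fun e => e z)) (m.map fun e => e w) else 0) = fun _ _ => 0 := by
        funext z w
        rw [if_neg (by rw [List.length_map]; exact hp)]
      change PU (fun z w => if (l.map fun e => e z).length = p then
          s (Φ (l.map fun e => e z)) (m.map fun e => e w) else 0)
      rw [key]
      exact cls_PU.zero Z W
  · intro h g l m
    have h1 : Φ (l.map (h * ·)) = Φ l := by
      funext m'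
      have h3 := hinv h 1 l m'
      have h4 : m'.map ((1 : G) * ·) = m' := by simp
      rwa [h4] at h3
    simp only [List.length_map, h1]
    by_cases hp : l.length = p
    · rw [if_pos hp, if_pos hp]
      exact (hs (Φ l) (hcy l) (hlam l)).1.inv g m
    · rw [if_neg hp, if_neg hp]
  · intro l m h
    by_cases hp : l.length = p
    · simp only [if_pos hp]
      exact (hs (Φ l) (hcy l) (hlam l)).1.supp m (h.resolve_left (fun h' => h' hp))
    · simp only [if_neg hp]
  · intro l m
    by_cases hp : l.length = p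
    · simp only [if_pos hp]
      exact (hs (Φ l) (hcy l) (hlam l)).2.1 m
    · simp only [if_neg hp]
      rw [hsupp l m (Or.inl hp)]
      simp [dl]

end Pool.Agent.Helper87.BK
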