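import Pool.Agent.Helper87.BK.SH
import Pool.Agent.Helper87.BK.AW

/-!
# Project BK: regularity of the shuffle and Alexander-Whitney maps (piece BK-REG1)

* `FC_cons`: given `Z`, `W`, `p : Z → Z₀ × X`, `q : W → W₀ × Y` and `l`, apply the hypothesis to
  `fun z => (p z).1`, `fun w => (q w).1` and the list `(fun z => (p z).2, fun w => (q w).2) :: l`.
  In the same way `FK_cons`.
* `FC_sh`: for all `n`: if `FC P F` then for all `Z`, `W`, `p`, `q`, `l`, `m` as in `FK` the family
  `fun z w => shn n (F (p z) (q w)) (l.map (· z)) (m.map (· w))` is in `P`: induction on `n`,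
  generalizing everything (`F`, the spaces): the step uses `FC_cons` and the maps
  `z ↦ (p z, x z)`, `w ↦ (q w, y w)`, and `hP.add`, `hP.smul`, `hP.zero`.
* `FK_aw`: induction on the list of entries, with `FK_cons`.
* `InC.sh`, `InK.aw`: the case of constant families, `Z₀ = W₀ = Unit`.
* `InC.dl`, `InK.DD`: `dl` is a finite sum of values at `eraseIdx` of the list
  (`List.eraseIdx_map`); if one list is empty `DD` is zero.
-/

open scoped Topology

namespace Pool.Agent.Helper87.BK
open Pool.Agent.Helper11.BC (dl)
open Pool.Agent.Helper87.BCR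

variable {X Y : Type} [TopologicalSpace X] [TopologicalSpace Y]
variable {P : ∀ (Z W : Type) [TopologicalSpace Z] [TopologicalSpace W], (Z → W → ℝ) → Prop}

theorem FC_cons {Z₀ W₀ : Type} [TopologicalSpace Z₀] [TopologicalSpace W₀]
    {F : Z₀ → W₀ → List (X × Y) → ℝ} (hF : FC P F) :
    FC P (fun (z : Z₀ × X) (w : W₀ × Y) t => F z.1 w.1 ((z.2, w.2) :: t)) := by
  intro Z W _ _ p q hp hq l hl
  refine hF Z W (fun z => (p z).1) (fun w => (q w).1) hp.fst hq.fst
    ((fun z => (p z).2, fun w => (q w).2) :: l) ?_
  intro e he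
  rcases List.mem_cons.mp he with rfl | he
  · exact ⟨hp.snd, hq.snd⟩
  · exact hl e he

theorem FK_cons {Z₀ W₀ : Type} [TopologicalSpace Z₀] [TopologicalSpace W₀]
    {F : Z₀ → W₀ → List X → List Y → ℝ} (hF : FK P F) :
    FK P (fun (z : Z₀ × X) (w : W₀) a b => F z.1 w (z.2 :: a) b) := by
  intro Z W _ _ p q hp hq l m hl hm
  refine hF Z W (fun z => (p z).1) q hp.fst hq ((fun z => (p z).2) :: l) m ?_ hm
  intro e he
  rcases List.mem_cons.mp he with rfl | he
  · exact hp.snd
  · exact hl e he

private theorem FC_shn (hP : Cls P) (n : ℕ) :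
    ∀ {Z₀ W₀ : Type} [TopologicalSpace Z₀] [TopologicalSpace W₀]
    {F : Z₀ → W₀ → List (X × Y) → ℝ} (_ : FC P F)
    (Z W : Type) [TopologicalSpace Z] [TopologicalSpace W] (p : Z → Z₀) (q : W → W₀),
    Continuous p → Continuous q → ∀ (l : List (Z → X)) (m : List (W → Y)),
    (∀ e ∈ l, Continuous e) → (∀ e ∈ m, Continuous e) →
    P Z W fun z w => shn n (F (p z) (q w)) (l.map fun e => e z) (m.map fun e => e w) := by
  induction n with
  | zero =>
    intro Z₀ W₀ _ _ F hF Z W _ _ p q hp hq l m hl hm
    exact hP.zero Z W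
  | succ n ih =>
    intro Z₀ W₀ _ _ F hF Z W _ _ p q hp hq l m hl hm
    cases l with
    | nil => exact hP.zero Z W
    | cons x l =>
      cases m with
      | nil => exact hP.zero Z W
      | cons y m =>
        have hx : Continuous x := hl x (by simp)
        have hy : Continuous y := hm y (by simp)
        have hl' : ∀ e ∈ l, Continuous e := fun e he => hl e (List.mem_cons_of_mem _ he)
        have hm' : ∀ e ∈ m, Continuous e := fun e he => hm e (List.mem_cons_of_mem _ he)
        have h1 : P Z W fun z w => if l.length + m.length = 0 then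
            F (p z) (q w) [(x z, y w)] else 0 := by
          split_ifs with h0
          · refine hF Z W p q hp hq [(x, y)] ?_
            intro e he
            rw [List.mem_singleton] at he
            subst he
            exact ⟨hx, hy⟩
          · exact hP.zero Z W
        have h2 := ih (FC_cons hF) Z W (fun z => (p z, x z)) (fun w => (q w, y w))
          (hp.prodMk hx) (hq.prodMk hy) l (y :: m) hl' hm
        have h3 := ih (FC_cons hF) Z W (fun z => (p z, x z)) (fun w => (q w, y w))
          (hp.prodMk hx) (hq.prodMk hy) (x :: l) m hl hm'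
        have h4 := hP.add Z W _ _ h1 (hP.add Z W _ _ h2 (hP.smul Z W ((-1) ^ l.length) _ h3))
        have h5 : (fun z w => shn (n + 1) (F (p z) (q w)) ((x :: l).map fun e => e z)
            ((y :: m).map fun e => e w)) = fun z w =>
            (if l.length + m.length = 0 then F (p z) (q w) [(x z, y w)] else 0) +
            (shn n (fun t => F (p z) (q w) ((x z, y w) :: t)) (l.map fun e => e z)
              ((y :: m).map fun e => e w) + (-1) ^ l.length *
              shn n (fun t => F (p z) (q w) ((x z, y w) :: t)) ((x :: l).map fun e => e z)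
              (m.map fun e => e w)) := by
          funext z w
          simp only [List.map_cons, shn, List.length_map]
        rw [h5]
        exact h4

theorem FC_sh (hP : Cls P) {Z₀ W₀ : Type} [TopologicalSpace Z₀] [TopologicalSpace W₀]
    {F : Z₀ → W₀ → List (X × Y) → ℝ} (hF : FC P F) : FK P (fun z w => sh (F z w)) := by
  intro Z W _ _ p q hp hq l m hl hm
  have h1 := FC_shn hP (l.length + m.length) hF Z W p q hp hq l m hl hm
  have h2 : (fun z w => sh (F (p z) (q w)) (l.map fun e => e z) (m.map fun e => e w)) =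
      fun z w => shn (l.length + m.length) (F (p z) (q w)) (l.map fun e => e z)
        (m.map fun e => e w) := by
    funext z w
    simp only [sh, List.length_map]
  rw [h2]
  exact h1

private theorem FK_aw_aux (hP : Cls P) (Z W : Type) [TopologicalSpace Z] [TopologicalSpace W]
    (l : List ((Z → X) × (W → Y))) (hl : ∀ e ∈ l, Continuous e.1 ∧ Continuous e.2) :
    ∀ {Z₀ W₀ : Type} [TopologicalSpace Z₀] [TopologicalSpace W₀]
    {F : Z₀ → W₀ → List X → List Y → ℝ} (_ : FK P F) (p : Z → Z₀) (q : W → W₀),
    Continuous p → Continuous q →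
    P Z W fun z w => aw (F (p z) (q w)) (l.map fun e => (e.1 z, e.2 w)) := by
  induction l with
  | nil =>
    intro Z₀ W₀ _ _ F hF p q hp hq
    exact hP.zero Z W
  | cons e l ih =>
    intro Z₀ W₀ _ _ F hF p q hp hq
    have he := hl e (by simp)
    have hl' : ∀ e ∈ l, Continuous e.1 ∧ Continuous e.2 :=
      fun e he => hl e (List.mem_cons_of_mem _ he)
    have h1 := hF Z W p q hp hq [e.1] (e.2 :: l.map Prod.snd) (by
      intro a ha
      rw [List.mem_singleton] at ha
      subst ha
      exact he.1) (by
      intro a ha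
      rcases List.mem_cons.mp ha with rfl | ha
      · exact he.2
      · obtain ⟨b, hb, rfl⟩ := List.mem_map.mp ha
        exact (hl' b hb).2)
    have h2 := ih hl' (FK_cons hF) (fun z => (p z, e.1 z)) q (hp.prodMk he.1) hq
    have h3 := hP.add Z W _ _ h1 h2
    have h5 : (fun z w => aw (F (p z) (q w)) ((e :: l).map fun e => (e.1 z, e.2 w))) =
        fun z w => F (p z) (q w) ([e.1].map fun e => e z)
          ((e.2 :: l.map Prod.snd).map fun e => e w) +
          aw (fun a b => F (p z) (q w) (e.1 z :: a) b) (l.map fun e => (e.1 z, e.2 w)) := by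
      funext z w
      simp only [List.map_cons, List.map_nil, aw, List.map_map, Function.comp_def]
    rw [h5]
    exact h3

theorem FK_aw (hP : Cls P) {Z₀ W₀ : Type} [TopologicalSpace Z₀] [TopologicalSpace W₀]
    {F : Z₀ → W₀ → List X → List Y → ℝ} (hF : FK P F) : FC P (fun z w => aw (F z w)) := by
  intro Z W _ _ p q hp hq l hl
  exact FK_aw_aux hP Z W l hl hF p q hp hq

theorem InC.sh (hP : Cls P) {f : List (X × Y) → ℝ} (hf : InC P f) : InK P (BK.sh f) := by
  have h1 : FC P (fun (_ _ : Unit) => f) := by
    intro Z W _ _ p q _ _ l hl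
    exact hf Z W l hl
  intro Z W _ _ l m hl hm
  exact FC_sh hP h1 Z W (fun _ => ()) (fun _ => ()) continuous_const continuous_const l m hl hm

theorem InK.aw (hP : Cls P) {Φ : List X → List Y → ℝ} (hΦ : InK P Φ) : InC P (BK.aw Φ) := by
  have h1 : FK P (fun (_ _ : Unit) => Φ) := by
    intro Z W _ _ p q _ _ l m hl hm
    exact hΦ Z W l m hl hm
  intro Z W _ _ l hl
  exact FK_aw hP h1 Z W (fun _ => ()) (fun _ => ()) continuous_const continuous_const l hl

private theorem cls_sum (hP : Cls P) (Z W : Type) [TopologicalSpace Z] [TopologicalSpace W]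
    (n : ℕ) (c : ℕ → ℝ) (G : ℕ → Z → W → ℝ) (h : ∀ i, P Z W (G i)) :
    P Z W fun z w => ∑ i ∈ Finset.range n, c i * G i z w := by
  induction n with
  | zero => simpa using hP.zero Z W
  | succ n ih =>
    simp only [Finset.sum_range_succ]
    exact hP.add Z W _ _ ih (hP.smul Z W (c n) _ (h n))

theorem InC.dl (hP : Cls P) {f : List (X × Y) → ℝ} (hf : InC P f) :
    InC P (Helper11.BC.dl f) := by
  intro Z W _ _ l hl
  have h1 := cls_sum hP Z W l.length (fun i => (-1) ^ i)
    (fun i z w => f ((l.eraseIdx i).map fun e => (e.1 z, e.2 w)))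
    (fun i => hf Z W (l.eraseIdx i) fun e he => hl e (List.mem_of_mem_eraseIdx he))
  have h2 : (fun z w => Helper11.BC.dl f (l.map fun e => (e.1 z, e.2 w))) = fun z w =>
      ∑ i ∈ Finset.range l.length, (-1 : ℝ) ^ i *
        f ((l.eraseIdx i).map fun e => (e.1 z, e.2 w)) := by
    funext z w
    simp only [Helper11.BC.dl, List.length_map, smul_eq_mul, List.eraseIdx_map]
  rw [h2]
  exact h1

theorem InK.DD (hP : Cls P) {Φ : List X → List Y → ℝ} (hΦ : InK P Φ) : InK P (BK.DD Φ) := by
  intro Z W _ _ l m hl hm
  by_cases h0 : l = [] ∨ m = []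
  · have h1 : (fun z w => BK.DD Φ (l.map fun e => e z) (m.map fun e => e w)) =
        fun (_ : Z) (_ : W) => (0 : ℝ) := by
      funext z w
      unfold BK.DD
      rw [if_pos]
      rcases h0 with rfl | rfl
      · exact Or.inl rfl
      · exact Or.inr rfl
    rw [h1]
    exact hP.zero Z W
  · have h1 := cls_sum hP Z W l.length (fun i => (-1) ^ i)
      (fun i z w => Φ ((l.eraseIdx i).map fun e => e z) (m.map fun e => e w))
      (fun i => hΦ Z W (l.eraseIdx i) m (fun e he => hl e (List.mem_of_mem_eraseIdx he)) hm)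
    have h2 := cls_sum hP Z W m.length (fun i => (-1) ^ i)
      (fun i z w => Φ (l.map fun e => e z) ((m.eraseIdx i).map fun e => e w))
      (fun i => hΦ Z W l (m.eraseIdx i) hl (fun e he => hm e (List.mem_of_mem_eraseIdx he)))
    have h3 := hP.add Z W _ _ h1 (hP.smul Z W ((-1) ^ (l.length + 1)) _ h2)
    have h4 : (fun z w => BK.DD Φ (l.map fun e => e z) (m.map fun e => e w)) = fun z w =>
        (∑ i ∈ Finset.range l.length, (-1 : ℝ) ^ i *
          Φ ((l.eraseIdx i).map fun e => e z) (m.map fun e => e w)) +
        (-1) ^ (l.length + 1) * ∑ i ∈ Finset.range m.length, (-1 : ℝ) ^ i *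
          Φ (l.map fun e => e z) ((m.eraseIdx i).map fun e => e w) := by
      funext z w
      unfold BK.DD
      rw [if_neg (by simpa using h0)]
      simp only [Helper11.BC.dl, List.length_map, smul_eq_mul, List.eraseIdx_map]
    rw [h4]
    exact h3

end Pool.Agent.Helper87.BK
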