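import Pool.Agent.Helper87.BK.Basic

/-!
# Project BK: the shuffle map (piece BK-SH)

`g` denotes `fun t => f ((x, y) :: t)`.
* `sh_nil_left`, `sh_nil_right`: unfold (`shn _ f [] m = 0` for every fuel).
* `sh_cons`: unfold `sh` and `shn`; the fuels agree: `(l.length + 1) + (m.length + 1) =
  (l.length + (m.length + 1)) + 1`, and `l.length + (m.length + 1) = (l.length + 1) + m.length`.
* `sh_add`, `sh_smul`, `sh_map`, `sh_congr`: induction on `l.length + m.length` with `sh_cons`.
* `sh_dl`: strong induction on `l.length + m.length`.  Both sides are `0` if one list is empty.  For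
  `x :: l`, `y :: m`: by `BCR.dl_cons`, `(dl f) ((x, y) :: t) = f t - dl g t`, so by `sh_cons` and
  linearity
  `sh (dl f) (x::l) (y::m) = [l=m=nil] f [] + sh f l (y::m) + (-1)^|l| sh f (x::l) m
      - sh (dl g) l (y::m) - (-1)^|l| sh (dl g) (x::l) m`  (for `l = m = nil`, `dl f [(x,y)] = f []`).
  By `BCR.dl_cons` in each variable
  `DD (sh f) (x::l) (y::m) = sh f l (y::m) - dl (fun a => sh f (x::a) (y::m)) l
      + (-1)^|l| (sh f (x::l) m - dl (fun b => sh f (x::l) (y::b)) m)`.
  So, by the induction hypothesis for `g`, it remains to see that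
  `dl (fun a => sh f (x::a) (y::m)) l + (-1)^|l| dl (fun b => sh f (x::l) (y::b)) m
    = DD (sh g) l (y::m) + (-1)^|l| DD (sh g) (x::l) m + [|l|=1, m=nil] g [] + (-1)^|l| [l=nil, |m|=1] g []`.
  Insert `sh_cons` in the left side: the terms with `g []` agree; the faces `a` of `l` have length
  `|l| - 1`, so `(-1)^|a| = -(-1)^|l|`; on the right side `dl (sh g l) (y::m) = sh g l m -
  dl (fun b => sh g l (y::b)) m` and `dl (fun a => sh g a m) (x::l) = sh g l m -
  dl (fun a => sh g (x::a) m) l` and the two terms `(-1)^|l| sh g l m` cancel; if `l = []` or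
  `m = []` the terms which are missing in `DD` are zero anyway (`sh g [] _ = 0`, `sh g _ [] = 0`).
-/

namespace Pool.Agent.Helper87.BK
open Pool.Agent.Helper11.BC (dl)
open Pool.Agent.Helper87.BCR

variable {X Y : Type}

theorem sh_nil_left (f : List (X × Y) → ℝ) (m : List Y) : sh f [] m = 0 := by
  unfold sh
  cases (List.length ([] : List X) + m.length) <;> rfl

theorem sh_nil_right (f : List (X × Y) → ℝ) (l : List X) : sh f l [] = 0 := by
  unfold sh
  cases l with
  | nil => rfl
  | cons x l => cases (List.length (x :: l) + List.length ([] : List Y)) <;> rfl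

theorem sh_cons (f : List (X × Y) → ℝ) (x : X) (l : List X) (y : Y) (m : List Y) :
    sh f (x :: l) (y :: m) = (if l.length + m.length = 0 then f [(x, y)] else 0) +
      (sh (fun t => f ((x, y) :: t)) l (y :: m) +
        (-1) ^ l.length * sh (fun t => f ((x, y) :: t)) (x :: l) m) := by
  unfold sh
  have h1 : (x :: l).length + (y :: m).length = (l.length + (y :: m).length) + 1 := by
    simp only [List.length_cons]; omega
  have h2 : (x :: l).length + m.length = l.length + (y :: m).length := by
    simp only [List.length_cons]; omega
  rw [h1, h2]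
  rfl

/-- Induction over pairs of lists. -/
private theorem ind2 {P : List X → List Y → Prop} (h0 : ∀ m, P [] m) (h1 : ∀ l, P l [])
    (h2 : ∀ x l y m, P l (y :: m) → P (x :: l) m → P (x :: l) (y :: m)) (l : List X) (m : List Y) :
    P l m := by
  induction l generalizing m with
  | nil => exact h0 m
  | cons x l ih =>
    induction m with
    | nil => exact h1 _
    | cons y m ihm => exact h2 x l y m (ih _) ihm

theorem sh_add (f g : List (X × Y) → ℝ) (l : List X) (m : List Y) :
    sh (fun t => f t + g t) l m = sh f l m + sh g l m := by
  have key : ∀ (l : List X) (m : List Y), ∀ f g : List (X × Y) → ℝ,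
      sh (fun t => f t + g t) l m = sh f l m + sh g l m := by
    refine ind2 ?_ ?_ ?_
    · intro m f g; simp [sh_nil_left]
    · intro l f g; simp [sh_nil_right]
    · intro x l y m h1 h2 f g
      rw [sh_cons, sh_cons f, sh_cons g, h1 (fun t => f ((x, y) :: t)) (fun t => g ((x, y) :: t)),
        h2 (fun t => f ((x, y) :: t)) (fun t => g ((x, y) :: t))]
      split_ifs <;> ring
  exact key l m f g

theorem sh_smul (c : ℝ) (f : List (X × Y) → ℝ) (l : List X) (m : List Y) :
    sh (fun t => c * f t) l m = c * sh f l m := by
  have key : ∀ (l : List X) (m : List Y), ∀ f : List (X × Y) → ℝ,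
      sh (fun t => c * f t) l m = c * sh f l m := by
    refine ind2 ?_ ?_ ?_
    · intro m f; simp [sh_nil_left]
    · intro l f; simp [sh_nil_right]
    · intro x l y m h1 h2 f
      rw [sh_cons, sh_cons f, h1 (fun t => f ((x, y) :: t)), h2 (fun t => f ((x, y) :: t))]
      split_ifs <;> ring
  exact key l m f

theorem sh_congr (f g : List (X × Y) → ℝ) (l : List X) (m : List Y)
    (h : ∀ t : List (X × Y), t.length + 1 = l.length + m.length → f t = g t) :
    sh f l m = sh g l m := by
  have key : ∀ (l : List X) (m : List Y), ∀ f g : List (X × Y) → ℝ,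
      (∀ t : List (X × Y), t.length + 1 = l.length + m.length → f t = g t) →
      sh f l m = sh g l m := by
    refine ind2 ?_ ?_ ?_
    · intro m f g _; simp [sh_nil_left]
    · intro l f g _; simp [sh_nil_right]
    · intro x l y m h1 h2 f g h
      simp only [List.length_cons] at h h1 h2
      rw [sh_cons f, sh_cons g, h1 (fun t => f ((x, y) :: t)) (fun t => g ((x, y) :: t)),
        h2 (fun t => f ((x, y) :: t)) (fun t => g ((x, y) :: t))]
      · congr 1
        split_ifs with h0
        · exact h _ (by simp only [List.length_cons, List.length_nil]; omega)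
        · rfl
      · intro t ht
        exact h _ (by simp only [List.length_cons]; omega)
      · intro t ht
        exact h _ (by simp only [List.length_cons]; omega)
  exact key l m f g h

theorem sh_map (f : List (X × Y) → ℝ) (a : X → X) (b : Y → Y) (l : List X) (m : List Y) :
    sh (fun t => f (t.map fun e => (a e.1, b e.2))) l m = sh f (l.map a) (m.map b) := by
  have key : ∀ (l : List X) (m : List Y), ∀ f : List (X × Y) → ℝ,
      sh (fun t => f (t.map fun e => (a e.1, b e.2))) l m = sh f (l.map a) (m.map b) := by
    refine ind2 ?_ ?_ ?_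
    · intro m f; simp [sh_nil_left]
    · intro l f; simp [sh_nil_right]
    · intro x l y m h1 h2 f
      have e1 := h1 (fun t => f ((a x, b y) :: t))
      have e2 := h2 (fun t => f ((a x, b y) :: t))
      simp only [List.map_cons] at e1 e2 ⊢
      rw [sh_cons, sh_cons, List.length_map, List.length_map, ← e1, ← e2]
      rfl
  exact key l m f

private theorem sh_zero (l : List X) (m : List Y) : sh (fun _ : List (X × Y) => (0 : ℝ)) l m = 0 := by
  have := sh_smul (0 : ℝ) (fun _ : List (X × Y) => (0 : ℝ)) l m
  simpa using this

private theorem dl_lin (c d : ℝ) {Z : Type} (Φ Ψ : List Z → ℝ) (l : List Z) :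
    dl (fun t => c * Φ t + d * Ψ t) l = c * dl Φ l + d * dl Ψ l := by
  unfold dl
  rw [Finset.mul_sum, Finset.mul_sum, ← Finset.sum_add_distrib]
  refine Finset.sum_congr rfl fun i _ => ?_
  simp only [smul_eq_mul]
  ring

private theorem dl_zero' {Z : Type} (l : List Z) : dl (fun _ : List Z => (0 : ℝ)) l = 0 := by
  simp [dl]

private theorem dl_congr' {Z : Type} (Φ Ψ : List Z → ℝ) (l : List Z)
    (h : ∀ a : List Z, a.length + 1 = l.length → Φ a = Ψ a) : dl Φ l = dl Ψ l := by
  unfold dl
  refine Finset.sum_congr rfl fun i hi => ?_
  rw [Finset.mem_range] at hi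
  rw [h (l.eraseIdx i)]
  rw [List.length_eraseIdx_of_lt hi]
  omega

private theorem dl_const_if {Z : Type} (l : List Z) (p : Prop) [Decidable p] (c : ℝ)
    (h : p → l.length = 1) : dl (fun _ : List Z => if p then c else 0) l = if p then c else 0 := by
  split_ifs with hp
  · have h1 := h hp
    match l, h1 with
    | [z], _ => simp [dl]
  · exact dl_zero' l

theorem sh_dl (f : List (X × Y) → ℝ) (l : List X) (m : List Y) :
    sh (dl f) l m = DD (sh f) l m + (if l.length = 1 ∧ m.length = 1 then f [] else 0) := by
  have key : ∀ (l : List X) (m : List Y), ∀ f : List (X × Y) → ℝ,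
      sh (dl f) l m = DD (sh f) l m + (if l.length = 1 ∧ m.length = 1 then f [] else 0) := by
    refine ind2 ?_ ?_ ?_
    · intro m f; simp [sh_nil_left, DD]
    · intro l f; simp [sh_nil_right, DD]
    · intro x l y m h1 h2 f
      set g : List (X × Y) → ℝ := fun t => f ((x, y) :: t) with hg
      set s : ℝ := (-1) ^ l.length with hs
      -- the left side
      have e0 : (fun t => dl f ((x, y) :: t)) = fun t => f t + (-1) * dl g t := by
        funext t
        rw [dl_cons, hg]
        ring
      have e1 : sh (fun t => dl f ((x, y) :: t)) l (y :: m) =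
          sh f l (y :: m) - sh (dl g) l (y :: m) := by
        rw [e0, sh_add f (fun t => (-1) * dl g t), sh_smul]
        ring
      have e2 : sh (fun t => dl f ((x, y) :: t)) (x :: l) m =
          sh f (x :: l) m - sh (dl g) (x :: l) m := by
        rw [e0, sh_add f (fun t => (-1) * dl g t), sh_smul]
        ring
      have e3 : dl f [(x, y)] = f [] := by
        rw [dl_cons, dl_nil, sub_zero]
      -- the faces of the first list
      have a1 : dl (fun a => sh f (x :: a) (y :: m)) l =
          (if l.length = 1 ∧ m.length = 0 then g [] else 0) +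
            dl (fun a => sh g a (y :: m)) l - s * dl (fun a => sh g (x :: a) m) l := by
        have q1 : dl (fun a => sh f (x :: a) (y :: m)) l =
            dl (fun a => 1 * (if l.length = 1 ∧ m.length = 0 then g [] else 0) +
              1 * (1 * sh g a (y :: m) + (-s) * sh g (x :: a) m)) l := by
          refine dl_congr' _ _ _ fun a ha => ?_
          rw [sh_cons]
          have q2 : (a.length + m.length = 0) ↔ (l.length = 1 ∧ m.length = 0) := by omega
          have q3 : (-1 : ℝ) ^ a.length = -s := by
            rw [hs, ← ha, pow_succ]
            ring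
          simp only [q2, q3]
          ring
        rw [q1, dl_lin 1 1 (fun _ => if l.length = 1 ∧ m.length = 0 then g [] else 0)
          (fun a => 1 * sh g a (y :: m) + (-s) * sh g (x :: a) m),
          dl_lin 1 (-s) (fun a => sh g a (y :: m)) (fun a => sh g (x :: a) m),
          dl_const_if l _ _ (fun h => h.1)]
        ring
      -- the faces of the second list
      have a2 : dl (fun b => sh f (x :: l) (y :: b)) m =
          (if l.length = 0 ∧ m.length = 1 then g [] else 0) +
            dl (fun b => sh g l (y :: b)) m + s * dl (sh g (x :: l)) m := by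
        have q1 : dl (fun b => sh f (x :: l) (y :: b)) m =
            dl (fun b => 1 * (if l.length = 0 ∧ m.length = 1 then g [] else 0) +
              1 * (1 * sh g l (y :: b) + s * sh g (x :: l) b)) m := by
          refine dl_congr' _ _ _ fun b hb => ?_
          rw [sh_cons]
          have q2 : (l.length + b.length = 0) ↔ (l.length = 0 ∧ m.length = 1) := by omega
          simp only [q2, ← hs]
          ring
        rw [q1, dl_lin 1 1 (fun _ => if l.length = 0 ∧ m.length = 1 then g [] else 0)
          (fun b => 1 * sh g l (y :: b) + s * sh g (x :: l) b),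
          dl_lin 1 s (fun b => sh g l (y :: b)) (fun b => sh g (x :: l) b),
          dl_const_if m _ _ (fun h => h.2)]
        ring
      -- the total differentials of `sh g`
      have d1 : DD (sh g) l (y :: m) = dl (fun a => sh g a (y :: m)) l -
          s * (sh g l m - dl (fun b => sh g l (y :: b)) m) := by
        unfold DD
        by_cases hl : l = []
        · subst hl
          simp [sh_nil_left, dl_nil, dl_zero']
        · rw [if_neg (by simp [hl]), dl_cons, pow_succ, ← hs]
          ring
      have d2 : DD (sh g) (x :: l) m = sh g l m - dl (fun a => sh g (x :: a) m) l +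
          s * dl (sh g (x :: l)) m := by
        unfold DD
        by_cases hm : m = []
        · subst hm
          simp [sh_nil_right, dl_nil, dl_zero']
        · rw [if_neg (by simp [hm]), dl_cons, List.length_cons, pow_succ, pow_succ, ← hs]
          ring
      have d3 : DD (sh f) (x :: l) (y :: m) =
          sh f l (y :: m) - dl (fun a => sh f (x :: a) (y :: m)) l +
            s * (sh f (x :: l) m - dl (fun b => sh f (x :: l) (y :: b)) m) := by
        unfold DD
        rw [if_neg (by simp), dl_cons, dl_cons, List.length_cons, pow_succ, pow_succ, ← hs]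
        ring
      have i1 := h1 g
      have i2 := h2 g
      have c1 : (l.length = 1 ∧ (y :: m).length = 1) ↔ (l.length = 1 ∧ m.length = 0) := by
        simp
      have c2 : ((x :: l).length = 1 ∧ m.length = 1) ↔ (l.length = 0 ∧ m.length = 1) := by
        simp
      have c3 : ((x :: l).length = 1 ∧ (y :: m).length = 1) ↔ (l.length + m.length = 0) := by
        simp only [List.length_cons]; omega
      simp only [c1] at i1
      simp only [c2] at i2
      rw [sh_cons, e1, e2, e3, i1, i2, d1, d2, d3, a1, a2]
      simp only [c3]
      ring
  exact key l m f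

end Pool.Agent.Helper87.BK
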