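import Pool.Agent.Helper87.BK.T2lip
import Pool.Agent.Helper87.BK.Basic
import Pool.Agent.Helper87.BCR.Desc

/-!
# Project BK: the smoothing operator on cochains of `SL(2, ℝ)` (piece BK-SS)

Let `B' φ k = tens T1 φ (k.map toSL2R)` for `k : List ℍ`.  As in the proof of `exists_descent`
(`Pool/Agent/Helper87/BCR/Desc.lean`): `B' φ (l.map pos) = tens T1 φ l` (`tens_T1_congr`), `LC (B' φ)`,
`|B' φ| ≤ M`, `B' φ (k.map (g • ·)) = B' φ k` (invariance of `φ`), `dl (B' φ) = B' (dl φ)`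
(`Lin.tens_dl`, `dl_map`); and as in the proof of `reduction_cont` (`BCR/Main.lean`) the same for
`tens T2 (B' φ)` and `(l.map pos)`.
* `SS_lin`: linearity of `tens T` on the classes: from `Lin.tens_sub` and `Mk.smul`, or directly by
  induction (`tens T (a φ + b ψ) = a tens T φ + b tens T ψ` for `LC`, `LB` functions).
* `SS_prim`: `SS φ = tens T2 (B' φ) (· .map pos) = B' φ (· .map pos) + dl (pri T2 (B' φ)) (· .map pos)` and
  `B' φ (l.map pos) = tens T1 φ l = φ l + dl (pri T1 φ) l` (`prism_of_dl_eq_zero`);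
  `ψ l = pri T2 (B' φ) (l.map pos) + pri T1 φ l` is `Co k` (all the steps are in the proof of
  `reduction_cont`; the values for `l.length ≠ k` are zero: `pri T Φ l` only involves `Φ` on lists of length
  `l.length + 1`, induction on `l`).
* `SS_lip`: `tens_T2_lip` and `List.map_append`.
-/

open scoped MatrixGroups UpperHalfPlane Topology
open MeasureTheory

namespace Pool.Agent.Helper87.BK
open Pool.Agent.Helper11.BC
open Pool.Agent.Helper87.BCR

/-- The smoothing operator. -/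
noncomputable def SS (φ : List G → ℝ) (l : List G) : ℝ :=
  tens T2 (fun k => tens T1 φ (k.map UpperHalfPlane.toSL2R)) (l.map pos)

private lemma SSa_dl_add {X : Type} (Φ Ψ : List X → ℝ) (l : List X) :
    dl (fun m => Φ m + Ψ m) l = dl Φ l + dl Ψ l := by
  unfold dl
  rw [← Finset.sum_add_distrib]
  refine Finset.sum_congr rfl fun i _ => ?_
  simp only [smul_eq_mul]
  ring

private lemma SSa_tens_congr {X : Type} {T : (X → ℝ) → X → ℝ} (l : List X) :
    ∀ (Φ Ψ : List X → ℝ), (∀ m : List X, m.length = l.length → Φ m = Ψ m) →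
      tens T Φ l = tens T Ψ l := by
  induction l with
  | nil => intro Φ Ψ h; exact h [] rfl
  | cons x l ih =>
    intro Φ Ψ h
    simp only [tens]
    congr 1
    funext y
    exact ih _ _ fun m hm => h (y :: m) (by simp [hm])

private lemma SSa_pri_congr {X : Type} {T : (X → ℝ) → X → ℝ} (l : List X) :
    ∀ (Φ Ψ : List X → ℝ), (∀ m : List X, m.length = l.length + 1 → Φ m = Ψ m) →
      pri T Φ l = pri T Ψ l := by
  induction l with
  | nil => intro Φ Ψ _; rfl
  | cons x l ih =>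
    intro Φ Ψ h
    have e : ∀ Φ : List X → ℝ, pri T Φ (x :: l) = tens T (fun m => Φ (x :: m)) (x :: l) -
      pri T (fun m => Φ (x :: m)) l := fun _ => rfl
    rw [e, e, SSa_tens_congr (x :: l) (fun m => Φ (x :: m)) (fun m => Ψ (x :: m))
        (fun m hm => h (x :: m) (by simp [hm])),
      ih (fun m => Φ (x :: m)) (fun m => Ψ (x :: m)) (fun m hm => h (x :: m) (by simp [hm]))]

private lemma SSa_pri_zero {X : Type} {T : (X → ℝ) → X → ℝ} (hT : ∀ x, T (fun _ => 0) x = 0)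
    (l : List X) : pri T (fun _ => (0 : ℝ)) l = 0 := by
  induction l with
  | nil => rfl
  | cons x l ih =>
    have e : pri T (fun _ => (0 : ℝ)) (x :: l) = tens T (fun _ => (0 : ℝ)) (x :: l) -
      pri T (fun _ => (0 : ℝ)) l := rfl
    rw [e, ih, tens_zero hT, sub_zero]

private lemma SSa_tens_lin {X : Type} {T : (X → ℝ) → X → ℝ} {Q : (X → ℝ) → Prop}
    {A : (List X → ℝ) → Prop} (h : Lin T Q A) (a b : ℝ) (l : List X) :
    ∀ (Φ Ψ : List X → ℝ), A Φ → A Ψ →
      tens T (fun m => a * Φ m + b * Ψ m) l = a * tens T Φ l + b * tens T Ψ l := by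
  induction l with
  | nil => intro Φ Ψ _ _; rfl
  | cons x l ih =>
    intro Φ Ψ hΦ hΨ
    simp only [tens]
    have h1 : (fun y => tens T (fun m => a * Φ (y :: m) + b * Ψ (y :: m)) l) =
        fun y => a * tens T (fun m => Φ (y :: m)) l + b * tens T (fun m => Ψ (y :: m)) l := by
      funext y
      exact ih _ _ (h.cons _ hΦ y) (h.cons _ hΨ y)
    rw [h1, h.add _ _ (h.Qsmul _ _ (h.mem Φ hΦ l)) (h.Qsmul _ _ (h.mem Ψ hΨ l)),
      h.smul _ _ (h.mem Φ hΦ l), h.smul _ _ (h.mem Ψ hΨ l)]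

/-- The intermediate cochain on the upper half plane. -/
private noncomputable def SSa_B (φ : List G → ℝ) (k : List ℍ) : ℝ :=
  tens T1 φ (k.map UpperHalfPlane.toSL2R)

private lemma SSa_LC {φ : List G → ℝ} (hc : LC φ) (hb : LB φ) : LC (SSa_B φ) := by
  intro k
  have h1 := (hc.tens mk_T1 hb) k
  have h2 : Continuous fun v : Fin k → ℍ => fun i => (v i).toSL2R :=
    continuous_pi fun i => UpperHalfPlane.continuous_toSL2R.comp (continuous_apply i)
  refine (h1.comp h2).congr fun v => ?_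
  show tens T1 φ (List.ofFn fun i => (v i).toSL2R) = tens T1 φ _
  rw [List.map_ofFn]
  rfl

private lemma SSa_bdd {φ : List G → ℝ} (hc : LC φ) {M : ℝ} (hM : ∀ m, |φ m| ≤ M)
    (l : List ℍ) : |SSa_B φ l| ≤ M :=
  tens_abs_le mk_T1 hc fun m _ => hM m

private lemma SSa_pos {φ : List G → ℝ} (hc : LC φ) (hb : LB φ) (l : List G) :
    SSa_B φ (l.map pos) = tens T1 φ l := by
  refine tens_T1_congr _ _ _ hc hb ?_
  rw [List.map_map, List.map_map]
  refine List.map_congr_left fun z _ => ?_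
  show pos ((pos z).toSL2R) = pos z
  rw [pos_toSL2R]

private lemma SSa_inv {φ : List G → ℝ} (hc : LC φ) (hb : LB φ)
    (hi : ∀ (g : G) l, φ (l.map (g * ·)) = φ l) (g : G) (l : List ℍ) :
    SSa_B φ (l.map (g • ·)) = SSa_B φ l := by
  have hmap : ∀ (g : G) (l : List G), tens T1 φ (l.map (g * ·)) = tens T1 φ l := by
    intro g l
    have h1 := tens_map mk_T1 (g * ·) (fun f M _ _ x => T1_left f g x) l φ hc hb
    rw [← h1]
    have h2 : (fun m : List G => φ (m.map (g * ·))) = φ := funext fun m => hi g m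
    rw [h2]
  show tens T1 φ _ = tens T1 φ _
  rw [← hmap g (l.map UpperHalfPlane.toSL2R)]
  refine tens_T1_congr _ _ _ hc hb ?_
  rw [List.map_map, List.map_map, List.map_map, List.map_map]
  refine List.map_congr_left fun z _ => ?_
  show pos ((g • z).toSL2R) = pos (g * z.toSL2R)
  rw [pos_mul, pos_toSL2R, pos_toSL2R]

private lemma SSa_dl {φ : List G → ℝ} (hc : LC φ) (hb : LB φ) (l : List ℍ) :
    dl (SSa_B φ) l = SSa_B (dl φ) l := by
  show dl (fun m => tens T1 φ (m.map UpperHalfPlane.toSL2R)) l = tens T1 (dl φ) _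
  rw [dl_map (tens T1 φ), ← (Mk.lin mk_T1).tens_dl _ _ ⟨hc, hb⟩]

private lemma SSa_LCcomp {Φ : List ℍ → ℝ} (hΦ : LC Φ) : LC fun l : List G => Φ (l.map pos) := by
  intro k
  have h2 : Continuous fun v : Fin k → G => fun i => pos (v i) :=
    continuous_pi fun i => continuous_pos.comp (continuous_apply i)
  refine ((hΦ k).comp h2).congr fun v => ?_
  show Φ (List.ofFn fun i => pos (v i)) = Φ ((List.ofFn v).map pos)
  rw [List.map_ofFn]
  rfl

private lemma SSa_mp (g : G) (l : List G) :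
    (l.map (g * ·)).map pos = (l.map pos).map (g • ·) := by
  rw [List.map_map, List.map_map]
  exact List.map_congr_left fun z _ => pos_mul g z

theorem SS_Co {k : ℕ} {φ : List G → ℝ} (h : Co k φ) : Co k (SS φ) := by
  obtain ⟨M, hM⟩ := h.bdd
  have hb : LB φ := LB.of_bdd hM
  have hBc := SSa_LC h.cont hb
  have hBb : LB (SSa_B φ) := LB.of_bdd (SSa_bdd h.cont hM)
  refine ⟨SSa_LCcomp (hBc.tens mk_T2 hBb), ⟨M, fun l => ?_⟩, fun g l => ?_, fun l hl => ?_⟩
  · exact tens_abs_le mk_T2 hBc fun m _ => SSa_bdd h.cont hM m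
  · show tens T2 (SSa_B φ) _ = tens T2 (SSa_B φ) _
    rw [SSa_mp, ← tens_map mk_T2 (g • ·) (fun f _ _ _ x => T2_smul f g x) _ _ hBc hBb]
    have : (fun m : List ℍ => SSa_B φ (m.map (g • ·))) = SSa_B φ :=
      funext fun m => SSa_inv h.cont hb h.inv g m
    rw [this]
  · show tens T2 (SSa_B φ) _ = 0
    rw [SSa_tens_congr (l.map pos) (SSa_B φ) (fun _ => 0), tens_zero fun x => mk_T2.const 0 x]
    intro m hm
    rw [List.length_map] at hm
    show tens T1 φ _ = 0
    rw [SSa_tens_congr _ φ (fun _ => 0), tens_zero fun x => mk_T1.const 0 x]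
    intro m' hm'
    rw [List.length_map, hm] at hm'
    exact h.supp m' (hm'.trans_ne hl)

theorem SS_lin {k : ℕ} {φ ψ : List G → ℝ} (h : Co k φ) (h' : Co k ψ) (a b : ℝ) (l : List G) :
    SS (fun m => a * φ m + b * ψ m) l = a * SS φ l + b * SS ψ l := by
  obtain ⟨M, hM⟩ := h.bdd
  obtain ⟨M', hM'⟩ := h'.bdd
  have hb : LB φ := LB.of_bdd hM
  have hb' : LB ψ := LB.of_bdd hM'
  have e1 : (fun k : List ℍ => tens T1 (fun m => a * φ m + b * ψ m)
      (k.map UpperHalfPlane.toSL2R)) = fun k => a * SSa_B φ k + b * SSa_B ψ k := by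
    funext k
    exact SSa_tens_lin (Mk.lin mk_T1) a b _ φ ψ ⟨h.cont, hb⟩ ⟨h'.cont, hb'⟩
  show tens T2 (fun k : List ℍ => tens T1 (fun m => a * φ m + b * ψ m)
      (k.map UpperHalfPlane.toSL2R)) (l.map pos) = _
  rw [e1]
  exact SSa_tens_lin (Mk.lin mk_T2) a b _ _ _
    ⟨SSa_LC h.cont hb, LB.of_bdd (SSa_bdd h.cont hM)⟩
    ⟨SSa_LC h'.cont hb', LB.of_bdd (SSa_bdd h'.cont hM')⟩

theorem SS_bdd {k : ℕ} {φ : List G → ℝ} (h : Co k φ) {M : ℝ} (hM : ∀ m, |φ m| ≤ M)
    (l : List G) : |SS φ l| ≤ M := by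
  have hb : LB φ := LB.of_bdd hM
  exact tens_abs_le mk_T2 (SSa_LC h.cont hb) fun m _ => SSa_bdd h.cont hM m

theorem SS_dl {k : ℕ} {φ : List G → ℝ} (h : Co k φ) (l : List G) :
    SS (dl φ) l = dl (SS φ) l := by
  obtain ⟨M, hM⟩ := h.bdd
  have hb : LB φ := LB.of_bdd hM
  have e1 : SSa_B (dl φ) = dl (SSa_B φ) := funext fun l => (SSa_dl h.cont hb l).symm
  show tens T2 (SSa_B (dl φ)) (l.map pos) = dl (fun m => tens T2 (SSa_B φ) (m.map pos)) l
  rw [e1, dl_map (tens T2 (SSa_B φ)), (Mk.lin mk_T2).tens_dl _ _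
    ⟨SSa_LC h.cont hb, LB.of_bdd (SSa_bdd h.cont hM)⟩]

theorem SS_prim {k : ℕ} {φ : List G → ℝ} (h : Cy (k + 1) φ) :
    ∃ ψ : List G → ℝ, Co k ψ ∧ ∀ l, SS φ l = φ l + dl ψ l := by
  obtain ⟨M, hM⟩ := h.1.bdd
  have hc := h.1.cont
  have hb : LB φ := LB.of_bdd hM
  have hBc := SSa_LC hc hb
  have hBb : LB (SSa_B φ) := LB.of_bdd (SSa_bdd hc hM)
  have hBd : ∀ l, dl (SSa_B φ) l = 0 := by
    intro l
    rw [SSa_dl hc hb]
    have h2 : dl φ = fun _ => 0 := funext h.2
    rw [h2]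
    exact tens_zero (fun x => mk_T1.const 0 x) _
  have hs1 : ∀ l : List G, l.length ≠ k → pri T1 φ l = 0 := by
    intro l hl
    rw [SSa_pri_congr l φ (fun _ => 0), SSa_pri_zero fun x => mk_T1.const 0 x]
    intro m hm
    exact h.1.supp m (by omega)
  have hs2 : ∀ l : List G, l.length ≠ k → pri T2 (SSa_B φ) (l.map pos) = 0 := by
    intro l hl
    rw [SSa_pri_congr (l.map pos) (SSa_B φ) (fun _ => 0),
      SSa_pri_zero fun x => mk_T2.const 0 x]
    intro m hm
    rw [List.length_map] at hm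
    show tens T1 φ _ = 0
    rw [SSa_tens_congr _ φ (fun _ => 0), tens_zero fun x => mk_T1.const 0 x]
    intro m' hm'
    rw [List.length_map] at hm'
    exact h.1.supp m' (by omega)
  refine ⟨fun l => pri T2 (SSa_B φ) (l.map pos) + pri T1 φ l, ⟨?_, ?_, ?_, ?_⟩, ?_⟩
  · exact fun n => ((SSa_LCcomp (hBc.pri mk_T2 hBb)) n).add ((hc.pri mk_T1 hb) n)
  · refine ⟨k * |M| + k * |M|, fun l => ?_⟩
    by_cases hl : l.length = k
    · refine (abs_add_le _ _).trans (add_le_add ?_ ?_)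
      · have := pri_abs_le (l := l.map pos) mk_T2 hBc
          (fun m => (SSa_bdd hc hM m).trans (le_abs_self M))
        rwa [List.length_map, hl] at this
      · have := pri_abs_le (l := l) mk_T1 hc (fun m => (hM m).trans (le_abs_self M))
        rwa [hl] at this
    · simp only [hs1 l hl, hs2 l hl, add_zero, abs_zero]
      positivity
  · intro g l
    have e1 : pri T2 (SSa_B φ) ((l.map (g * ·)).map pos) = pri T2 (SSa_B φ) (l.map pos) := by
      rw [SSa_mp, ← pri_map mk_T2 (g • ·) (fun f _ _ _ x => T2_smul f g x) _ _ hBc hBb]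
      have : (fun m : List ℍ => SSa_B φ (m.map (g • ·))) = SSa_B φ :=
        funext fun m => SSa_inv hc hb h.1.inv g m
      rw [this]
    have e2 : pri T1 φ (l.map (g * ·)) = pri T1 φ l := by
      rw [← pri_map mk_T1 (g * ·) (fun f _ _ _ x => T1_left f g x) _ _ hc hb]
      have : (fun m : List G => φ (m.map (g * ·))) = φ := funext fun m => h.1.inv g m
      rw [this]
    show pri T2 (SSa_B φ) ((l.map (g * ·)).map pos) + pri T1 φ (l.map (g * ·)) = _
    rw [e1, e2]
  · intro l hl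
    show pri T2 (SSa_B φ) (l.map pos) + pri T1 φ l = 0
    rw [hs1 l hl, hs2 l hl, add_zero]
  · intro l
    have e1 : dl (fun l : List G => pri T2 (SSa_B φ) (l.map pos) + pri T1 φ l) l =
        dl (fun l : List G => pri T2 (SSa_B φ) (l.map pos)) l + dl (pri T1 φ) l :=
      SSa_dl_add _ _ l
    rw [e1, dl_map (pri T2 (SSa_B φ)) pos l, prism_of_dl_eq_zero mk_T2 hBc hBb hBd,
      prism_of_dl_eq_zero mk_T1 hc hb h.2, SSa_pos hc hb]
    show tens T2 (SSa_B φ) (l.map pos) = _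
    ring

theorem SS_lip {k : ℕ} {φ : List G → ℝ} (h : Co k φ) {M : ℝ} (hM : ∀ m, |φ m| ≤ M)
    (l₁ l₂ : List G) (g g' : G) :
    |SS φ (l₁ ++ g :: l₂) - SS φ (l₁ ++ g' :: l₂)| ≤ 8 * M * dist (pos g) (pos g') := by
  have hb : LB φ := LB.of_bdd hM
  show |tens T2 (SSa_B φ) ((l₁ ++ g :: l₂).map pos) -
    tens T2 (SSa_B φ) ((l₁ ++ g' :: l₂).map pos)| ≤ _
  rw [List.map_append, List.map_append, List.map_cons, List.map_cons]
  exact tens_T2_lip _ _ _ M (SSa_LC h.cont hb) (SSa_bdd h.cont hM) _ _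

end Pool.Agent.Helper87.BK
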