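import Pool.Agent.Helper87.BCR.Smo
import Pool.Agent.Helper87.BCR.Cont

/-!
# Project BK: the smoothing operator gives Lipschitz functions (piece BK-T2LIP)

`Ker.lean` and `Smo.lean` (Pool/Agent/Helper87/BCR) are complete: `ker_pos`, `ker_integrable`,
`ker_integral`, `mk_T2`.
1. For `δ = dist z z'`: `cosh (dist z' w / 2) ≤ exp (δ / 2) * cosh (dist z w / 2)` (triangle inequality,
   `cosh (a + b) ≤ exp b * cosh a` for `b ≥ 0`), so `ker z w ≤ exp (2 δ) * ker z' w` and by symmetry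
   `ker z' w ≤ exp (2 δ) * ker z w`; hence `|ker z w - ker z' w| ≤ (1 - exp (-2 δ)) * max ≤
   2 δ * (ker z w + ker z' w)` (`1 - exp (-x) ≤ x`).
2. `|T2 φ z - T2 φ z'| ≤ ∫ |ker z w - ker z' w| * M ≤ 2 δ * M * 2 = 4 M δ ≤ 8 M δ`.
3. `tens_T2_lip`: induction on `l₁`.  For `l₁ = []`: `tens T2 B (z :: l₂) - tens T2 B (w :: l₂) =
   T2 φ z - T2 φ w`, `φ y = tens T2 (fun m => B (y :: m)) l₂` continuous and bounded by `M`
   (`(Mk.lin mk_T2).mem`, `tens_abs_le`).  For `x :: l₁`: difference of `T2` of two functions, which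
   differ by at most `8 M dist z w` (linearity and bound of `T2`: `mk_T2.add`, `mk_T2.smul`,
   `mk_T2.bdd`, or `(Mk.lin mk_T2).T_sub`).
-/

open scoped MatrixGroups UpperHalfPlane Topology
open MeasureTheory

namespace Pool.Agent.Helper87.BK
open Pool.Agent.Helper11.BC
open Pool.Agent.Helper87.BCR

private theorem T2lip_cosh_le {a b c : ℝ} (ha : 0 ≤ a) (hb : 0 ≤ b) (hc : 0 ≤ c) (h : a ≤ b + c) :
    Real.cosh a ≤ Real.exp c * Real.cosh b := by
  have h1 : Real.cosh a ≤ Real.cosh (b + c) := by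
    rw [Real.cosh_le_cosh, abs_of_nonneg ha, abs_of_nonneg (by positivity)]
    exact h
  refine h1.trans ?_
  rw [Real.cosh_add, ← Real.cosh_add_sinh c, add_mul]
  have h2 : Real.sinh b ≤ Real.cosh b := (Real.sinh_lt_cosh b).le
  have h3 : 0 ≤ Real.sinh c := Real.sinh_nonneg_iff.2 hc
  nlinarith [mul_le_mul_of_nonneg_left h2 h3]

private theorem T2lip_ker_le (z z' w : ℍ) :
    ker z w ≤ Real.exp (2 * dist z z') * ker z' w := by
  have h1 : dist z' w / 2 ≤ dist z w / 2 + dist z z' / 2 := by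
    have := dist_triangle z' z w
    rw [dist_comm z' z] at this
    linarith
  have h2 := T2lip_cosh_le (by positivity) (by positivity) (by positivity) h1
  unfold ker
  have h3 := Real.cosh_pos (dist z w / 2)
  have h4 := Real.cosh_pos (dist z' w / 2)
  have h5 : Real.cosh (dist z' w / 2) ^ 4 ≤
      Real.exp (2 * dist z z') * Real.cosh (dist z w / 2) ^ 4 := by
    calc Real.cosh (dist z' w / 2) ^ 4
        ≤ (Real.exp (dist z z' / 2) * Real.cosh (dist z w / 2)) ^ 4 := by gcongr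
      _ = Real.exp (dist z z' / 2) ^ 4 * Real.cosh (dist z w / 2) ^ 4 := by ring
      _ = Real.exp (2 * dist z z') * Real.cosh (dist z w / 2) ^ 4 := by
          rw [← Real.exp_nat_mul]
          congr 2
          push_cast
          ring
  have h6 : (Real.cosh (dist z w / 2) ^ 4)⁻¹ ≤
      Real.exp (2 * dist z z') * (Real.cosh (dist z' w / 2) ^ 4)⁻¹ := by
    rw [inv_le_iff_one_le_mul₀ (by positivity)]
    rw [← div_eq_mul_inv, div_mul_eq_mul_div, le_div_iff₀ (by positivity), one_mul]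
    exact h5
  have h7 : 0 ≤ 1 / (4 * Real.pi) := by positivity
  calc _ ≤ 1 / (4 * Real.pi) *
        (Real.exp (2 * dist z z') * (Real.cosh (dist z' w / 2) ^ 4)⁻¹) := by gcongr
    _ = _ := by ring

private theorem T2lip_diff {a b x : ℝ} (ha : 0 < a) (hb : 0 < b) (hx : 0 ≤ x)
    (h : a ≤ Real.exp x * b) : a - b ≤ x * (a + b) := by
  have h1 : Real.exp (-x) * a ≤ b := by
    calc Real.exp (-x) * a ≤ Real.exp (-x) * (Real.exp x * b) :=
          mul_le_mul_of_nonneg_left h (Real.exp_pos _).le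
      _ = b := by rw [← mul_assoc, ← Real.exp_add, neg_add_cancel, Real.exp_zero, one_mul]
  have h2 := Real.one_sub_le_exp_neg x
  nlinarith [mul_le_mul_of_nonneg_right h2 ha.le, mul_nonneg hx hb.le]

private theorem T2lip_abs (z z' w : ℍ) :
    |ker z w - ker z' w| ≤ 2 * dist z z' * (ker z w + ker z' w) := by
  rw [abs_le]
  have h1 := T2lip_diff (ker_pos z w) (ker_pos z' w) (by positivity) (T2lip_ker_le z z' w)
  have h2 := T2lip_diff (ker_pos z' w) (ker_pos z w) (by positivity)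
    (T2lip_ker_le z' z w)
  rw [dist_comm z' z] at h2
  constructor <;> linarith

private theorem T2lip_int {f : ℍ → ℝ} {M : ℝ} (hf : Continuous f) (hM : ∀ x, |f x| ≤ M) (z : ℍ) :
    Integrable fun w : ℍ => ker z w * f w :=
  (ker_integrable z).mul_bdd (c := M) hf.aestronglyMeasurable
    (Filter.Eventually.of_forall fun x => by rw [Real.norm_eq_abs]; exact hM x)

theorem T2_lip (φ : ℍ → ℝ) (M : ℝ) (hc : Continuous φ) (hb : ∀ z, |φ z| ≤ M) (z z' : ℍ) :
    |T2 φ z - T2 φ z'| ≤ 8 * M * dist z z' := by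
  have hM : 0 ≤ M := (abs_nonneg _).trans (hb z)
  have h1 : T2 φ z - T2 φ z' = ∫ w : ℍ, (ker z w * φ w - ker z' w * φ w) := by
    unfold T2
    rw [integral_sub (T2lip_int hc hb z) (T2lip_int hc hb z')]
  have h2 : Integrable fun w : ℍ => 2 * dist z z' * (ker z w + ker z' w) * M :=
    (((ker_integrable z).add (ker_integrable z')).const_mul _).mul_const M
  have h3 : ∫ w : ℍ, 2 * dist z z' * (ker z w + ker z' w) * M = 4 * M * dist z z' := by
    rw [integral_mul_const, integral_const_mul, integral_add (ker_integrable z)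
      (ker_integrable z'), ker_integral, ker_integral]
    ring
  have h4 : |∫ w : ℍ, (ker z w * φ w - ker z' w * φ w)| ≤ 4 * M * dist z z' := by
    rw [← h3, ← Real.norm_eq_abs]
    refine norm_integral_le_of_norm_le h2 (Filter.Eventually.of_forall fun w => ?_)
    rw [Real.norm_eq_abs, ← sub_mul, abs_mul]
    exact mul_le_mul (T2lip_abs z z' w) (hb w) (abs_nonneg _) (by
      have := ker_pos z w
      have := ker_pos z' w
      positivity)
  rw [h1]
  refine h4.trans ?_
  have : 0 ≤ M * dist z z' := by positivity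
  linarith

theorem tens_T2_lip (l₁ l₂ : List ℍ) (B : List ℍ → ℝ) (M : ℝ) (hc : LC B)
    (hb : ∀ l, |B l| ≤ M) (z w : ℍ) :
    |tens T2 B (l₁ ++ z :: l₂) - tens T2 B (l₁ ++ w :: l₂)| ≤ 8 * M * dist z w := by
  induction l₁ generalizing B with
  | nil =>
    have h1 := (Mk.lin mk_T2).mem B ⟨hc, fun k => ⟨M, fun l _ => hb l⟩⟩ l₂
    exact T2_lip (fun y => tens T2 (fun m => B (y :: m)) l₂) M h1.1
      (fun y => tens_abs_le mk_T2 (hc.cons y) fun m _ => hb _) z w
  | cons x l₁ ih =>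
    have h1 := (Mk.lin mk_T2).mem B ⟨hc, fun k => ⟨M, fun l _ => hb l⟩⟩ (l₁ ++ z :: l₂)
    have h2 := (Mk.lin mk_T2).mem B ⟨hc, fun k => ⟨M, fun l _ => hb l⟩⟩ (l₁ ++ w :: l₂)
    have h3 := (Mk.lin mk_T2).T_sub h1 h2 x
    show |T2 (fun y => tens T2 (fun m => B (y :: m)) (l₁ ++ z :: l₂)) x -
      T2 (fun y => tens T2 (fun m => B (y :: m)) (l₁ ++ w :: l₂)) x| ≤ _
    rw [← h3]
    refine mk_T2.bdd _ _ (h1.1.sub h2.1) (fun y => ?_) x
    exact ih (fun m => B (y :: m)) (hc.cons y) fun l => hb _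

end Pool.Agent.Helper87.BK
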